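import Pool.Agent.LibCW77.GDefs
import Pool.Agent.LibCW77.NDefs

/-!
The curves `v ^ n (x ^ 3 - α ^ (-3)) = x ^ 3 - α ^ 3`.
-/

open scoped Classical
open Polynomial

namespace Pool.Agent.LibCW77

open Pool.Agent.LibBH2
open Pool.Agent.LibCHd (VR RF Red FunF)

variable {k : Type} [Field k]

/-- the curve `v ^ n (x ^ 3 - α ^ (-3)) = x ^ 3 - α ^ 3` (`ω` is a primitive third root of unity) -/
def cov (n : ℕ) (ω α : k) : Dat k :=
  ⟨n, ![α, ω * α, ω ^ 2 * α], fun i => (![α, ω * α, ω ^ 2 * α] i)⁻¹⟩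

/-- the same curve with the exponent `m` -/
def expo (c : Dat k) (m : ℕ) : Dat k := ⟨m, c.a, c.b⟩

/-- the point `(b_0, ∞)` -/
def binf (c : Dat k) : Fin 2 → Option k := ![some (c.b 0), none]

end Pool.Agent.LibCW77
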