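import Pool.Agent.LibEV91.B0
import Pool.Agent.LibCW77.D3
import Pool.Agent.LibCW77.D4
import Pool.Agent.LibCW77.D6

/-!
[EV91 P1] MEDIUM: push-forward of points along `(x, v) ↦ (x, v ^ e)`

Model: `exists_tw` (D4.lean). On points: `ψ P = ![P 0, (P 1).map (· ^ e)]`; `OnC c` at `P` gives `OnC (expo c m)` at `ψ P` (`v ^ (e m) = (v ^ e) ^ m`; `e ≠ 0`). `exists_hom c 0` with
`Ψ M u = cls (expo c m) 0 (fun j => ψ (u j))` (`cls_map` for `expo c m`, and `ψ` commutes with `mpP`), `desc`, `div_rel` for `expo c m`; specialisations: if `q` is the specialisation of `u` at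
`v` then `ψ q` is that of `ψ u` (`SpO v o p` for `o = some y`: `Red v y y₀` gives `Red v (y ^ e) (y₀ ^ e)`; `v.ord y < 0` gives `v.ord (y ^ e) < 0`). `cyc k q = 0` implies `cyc k (ψ q) = 0`:
`cyc_zero_iff` (D4) : the degree `[M : k(q)]` is infinite, `k(ψ q) ⊂ k(q)`, so `[M : k(ψ q)]` is infinite (`Module.finrank` of a tower; but here `FunF k 0 (RF v)` and `m = 1`, `d = 0`: all residue
fields are finite over `k`, so `cyc k q ≠ 0` for all `q`; `fin_zero`, `fin_cyc` in D6 may help). The value at points over `k`: `FunF k 0 k`.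
-/

open scoped Classical
open Polynomial

namespace Pool.Agent.LibCW77

open Pool.Agent.LibBH2
open Pool.Agent.LibCHd (VR RF Red FunF)

variable {k : Type} [Field k]

private def EVP1_pw (e : ℕ) {m : ℕ} {M : Type} [Field M] (u : Pnt m M) : Pnt m M :=
  fun j => ![u j 0, (u j 1).map fun z => z ^ e]

private theorem EVP1_on {c : Dat k} {e m l : ℕ} (he : c.n = e * m) {M : Type} [Field M] [Algebra k M]
    {u : Pnt l M} (hu : On (c.over M) u) : On ((expo c m).over M) (EVP1_pw e u) := by
  intro j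
  have h := hu j
  change OnC ((expo c m).over M) (u j 0) ((u j 1).map fun z => z ^ e)
  revert h
  rcases u j 0 with _ | x <;> rcases u j 1 with _ | v <;> intro h
  · exact h
  · change v ^ c.n = 1 at h
    change (v ^ e) ^ m = 1
    rw [← pow_mul, ← he, h]
  · exact h
  · change v ^ c.n * ∏ i, (x - (c.over M).b i) = ∏ i, (x - (c.over M).a i) at h
    change (v ^ e) ^ m * ∏ i, (x - (c.over M).b i) = ∏ i, (x - (c.over M).a i)
    rw [← pow_mul, ← he, h]

private theorem EVP1_map (e : ℕ) {m : ℕ} {M M' : Type} [Field M] [Algebra k M] [Field M'] [Algebra k M']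
    (σ : M →ₐ[k] M') (u : Pnt m M) : mpP σ (EVP1_pw e u) = EVP1_pw e (mpP σ u) := by
  funext j i
  fin_cases i
  · rfl
  · change ((u j 1).map fun z => z ^ e).map σ = ((u j 1).map σ).map fun z => z ^ e
    rcases u j 1 with _ | v
    · rfl
    · change some (σ (v ^ e)) = some (σ v ^ e)
      rw [map_pow]

private theorem EVP1_sp {e m : ℕ} (he : e ≠ 0) {K : Type} [Field K] [Algebra k K] {v : Place k K}
    {u : Pnt m K} {q : Pnt m (RF v)} (h : SpP v u q) : SpP v (EVP1_pw e u) (EVP1_pw e q) := by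
  intro j i
  fin_cases i
  · exact h j 0
  · have h1 := h j 1
    change SpO v ((u j 1).map fun z => z ^ e) ((q j 1).map fun z => z ^ e)
    revert h1
    generalize u j 1 = Y
    generalize q j 1 = Q
    intro h1
    rcases Y with _ | y
    · have h2 : Q = none := h1
      rw [h2]
      rfl
    · rcases Q with _ | y0
      · have h2 : v.ord y < 0 := h1
        change v.ord (y ^ e) < 0
        rw [v.ord_pow]
        have h3 : (0 : ℤ) < (e : ℤ) := by
          have := Nat.pos_of_ne_zero he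
          exact_mod_cast this
        exact mul_neg_of_pos_of_neg h3 h2
      · have h2 : Red v y y0 := h1
        exact h2.pow e

private theorem EVP1_fld (e : ℕ) {m : ℕ} {M : Type} [Field M] [Algebra k M] (u : Pnt m M) :
    fld k (EVP1_pw e u) ≤ fld k u := by
  unfold fld
  rw [IntermediateField.adjoin_le_iff]
  rintro _ ⟨⟨j, i⟩, rfl⟩
  fin_cases i
  · exact IntermediateField.subset_adjoin k _ ⟨(j, 0), rfl⟩
  · change ((u j 1).map fun z => z ^ e).getD 0 ∈ IntermediateField.adjoin k (Set.range (co u))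
    have h1 : (u j 1).getD 0 ∈ IntermediateField.adjoin k (Set.range (co u)) :=
      IntermediateField.subset_adjoin k _ ⟨(j, 1), rfl⟩
    revert h1
    rcases u j 1 with _ | v
    · intro _
      exact zero_mem _
    · intro h1
      exact pow_mem h1 e

private theorem EVP1_zero (e : ℕ) {m : ℕ} {M : Type} [Field M] [Algebra k M] (u : Pnt m M)
    (h : cyc k u = 0) : cyc k (EVP1_pw e u) = 0 := by
  rw [cyc_zero_iff] at h ⊢
  have h1 := IntermediateField.finrank_dvd_of_le_left (EVP1_fld (k := k) e u)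
  rw [h] at h1
  exact Nat.eq_zero_of_zero_dvd h1

theorem push_pt (c : Dat k) (hc : c.Good) {e m : ℕ} (he : c.n = e * m) (hm : 2 ≤ m) :
    ∃ Φ : CH c 1 0 →+ CH (expo c m) 1 0, ∀ P : Fin 2 → Option k, OnC c (P 0) (P 1) →
      Φ (cls c 0 (pt1 P)) = cls (expo c m) 0 (pt1 ![P 0, (P 1).map fun z => z ^ e]) := by
  have he0 : e ≠ 0 := by
    rintro rfl
    have := hc.two
    rw [he, zero_mul] at this
    omega
  obtain ⟨H, hH⟩ := exists_hom c 0 (G := CH (expo c m) 1 0)
    (fun M _ _ (u : Pnt 1 M) => cls (expo c m) 0 (EVP1_pw e u))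
    (by
      intro M M' _ _ _ _ σ u _ _ _
      change cls (expo c m) 0 (EVP1_pw e (mpP σ u)) = _
      rw [← EVP1_map, cls_map])
  have hker : RatEq c 1 0 ≤ H.ker := by
    apply desc c 0 H
    intro K _ _ u g S q hK hu hg hq h1 h2
    have h3 : ∑ v ∈ S, v.ord g • H (cyc k (q v)) =
        ∑ v ∈ S, v.ord g • cls (expo c m) 0 (EVP1_pw e (q v)) := by
      refine Finset.sum_congr rfl ?_
      intro v hv
      rw [hH (RF v) (q v) (h1 v hv) (on_sp hc hu (hq v))]
    rw [h3]
    exact div_rel (expo c m) 1 0 hK (EVP1_pw e u) (EVP1_on he hu) g hg S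
      (fun v => EVP1_pw e (q v)) (fun v => EVP1_sp he0 (hq v)) h1
      (fun v hv hvg hF => EVP1_zero e _ (h2 v hv hvg hF))
  refine ⟨QuotientAddGroup.lift (RatEq c 1 0) H hker, ?_⟩
  intro P hP
  change QuotientAddGroup.lift (RatEq c 1 0) H hker (QuotientAddGroup.mk (cyc k (pt1 P))) = _
  rw [QuotientAddGroup.lift_mk]
  have hF0 : FunF k 0 k := Pool.Agent.LibHL77.funF_zero.2 inferInstance
  have hon : On (c.over k) (pt1 P) := fun _ => hP
  exact hH k (pt1 P) hF0 hon

end Pool.Agent.LibCW77
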