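import Pool.Agent.LibEV91.B0
import Pool.Agent.LibCW77.DE7
import Pool.Agent.LibCW77.FG3

/-!
[EV91 E4] STRONG: the function of a torsion class (models: CW77 NE4.lean, FG4.lean `fam_tors`)

`m • (∑ cls (pt1 P_p) - card • cls (pt1 (binf c))) = 0` (`m > 0`) says that `e = m • ∑_p cyc k (pt1 P_p) - (m card) • cyc k (pt1 (binf c))` is in `RatEq c 1 0`. For points `Q` over `k`:
`cyc k (pt1 Q) = single (eqs k (pt1 Q)) 1`, `eqs k (pt1 Q) = eqs k (pt1 Q')` iff `Q = Q'`, and `eqs_rat` (DE3a) for the residue fields; see NE4. `ratEq_fun` (DE7): `f : N`, `f ≠ 0`,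
for a place `w` with the point `Q` (`place_pt`): `w.ord f = m * [Q ∈ I] - m card [Q = (b_0, ∞)]`. Put `n = c.n`, `M = n m` and
`G = f ^ (3 n) * ((x - b_0) / (x - b_1)) ^ (m card) * ((x - b_0) / (x - b_2)) ^ (m card)`. Orders at the place of `Q` (`placeC`): `w.ord (x - b_i) = n` if `Q = (b_i, ∞)`; `-1` if `Q 0 = none`
(then the quotients have order `0`); `0` otherwise (`Q = (x₀, v₀)` with `x₀ = b_i` has `Q 1 = none` by `OnC` and `hc.inj`). So at `(b_0, ∞)`: `- 3 n m card + 2 n m card = - card M`; at `(b_i, ∞)`,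
`i = 1, 2`: `- n m card`; at `p ∈ I`: `3 n m`; elsewhere `0`. `w.ord v < 0` iff the point of `w` is some `(b_i, ∞)`; `0 ≤ w.ord v` and the reductions determine the point (`spO_unique`).
-/

open scoped Classical
open Polynomial

namespace Pool.Agent.LibCW77

open Pool.Agent.LibBH2
open Pool.Agent.LibCHd (VR RF Red FunF)

variable {k : Type} [Field k]

private theorem EVE4_eqs {M : Type} [Field M] [Algebra k M] (Q : Fin 2 → Option k) :
    eqs k (pt1 (ctp M Q)) = eqs k (pt1 Q) := by
  have h := eqs_map (Algebra.ofId k M) (pt1 Q)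
  exact h

private theorem EVE4_inj (Q Q' : Fin 2 → Option k) (h : eqs k (pt1 Q) = eqs k (pt1 Q')) :
    Q = Q' := by
  have h1 : eqs k (pt1 Q) = eqs k (pt1 (ctp k Q')) := by rw [h, EVE4_eqs]
  have h2 := eqs_rat (M := k) (M' := k) (pt1 Q) Q' h1
  have h3 : ctp k Q' = Q' := by
    funext i
    change (Q' i).map (algebraMap k k) = Q' i
    cases Q' i <;> rfl
  rw [h3] at h2
  exact congrFun h2 0

private theorem EVE4_cyc (Q : Fin 2 → Option k) :
    cyc k (pt1 Q) = Finsupp.single (eqs k (pt1 Q)) 1 := by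
  unfold cyc
  have h : fld k (pt1 Q) = ⊤ := by
    rw [eq_top_iff]
    intro z _
    exact (fld k (pt1 Q)).algebraMap_mem z
  rw [h, IntermediateField.finrank_top]
  rfl

private theorem EVE4_val (Q R : Fin 2 → Option k) :
    (cyc k (pt1 Q)) (eqs k (pt1 R)) = if Q = R then (1 : ℤ) else 0 := by
  rw [EVE4_cyc, Finsupp.single_apply]
  by_cases h : Q = R
  · subst h
    rw [if_pos rfl, if_pos rfl]
  · rw [if_neg h, if_neg fun h' => h (EVE4_inj _ _ h')]

private theorem EVE4_sp {N : Type} [Field N] [Algebra k N] {x v : N} {w : Place k N} {Q : Fin 2 → Option k}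
    (h0 : SpO w (some x) ((Q 0).map (algebraMap k (RF w))))
    (h1 : SpO w (some v) ((Q 1).map (algebraMap k (RF w)))) : SpP w (gpt x v) (pt1 (ctp (RF w) Q)) := by
  intro j i
  fin_cases i
  · exact h0
  · exact h1

private theorem EVE4_inf {K : Type} [Field K] [Algebra k K] (v : Place k K) {s : K}
    (h : v.ord s < 0) (c : k) : v.ord (s - algebraMap k K c) = v.ord s := by
  have hs : s ≠ 0 := by rintro rfl; rw [v.ord_zero] at h; omega
  by_cases hc : c = 0
  · rw [hc, map_zero, sub_zero]
  · have h1 : v.ord (-algebraMap k K c) = 0 := by rw [Place.ord_neg, v.ord_const c hc]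
    have h2 : -algebraMap k K c ≠ 0 := by simpa using hc
    rw [sub_eq_add_neg]
    exact (Place.ord_add_of_lt hs h2 (by rw [h1]; exact h)).2

private theorem EVE4_red {K : Type} [Field K] [Algebra k K] (w : Place k K) {x : K} {a b : k}
    (h : Red w x (algebraMap k (RF w) a)) (hab : a ≠ b) : w.ord (x - algebraMap k K b) = 0 := by
  have h6 := h.sub (LibCHd.red_const w b)
  rw [← map_sub] at h6
  exact h6.ord_eq_zero fun h => sub_ne_zero.2 hab ((map_eq_zero _).1 h)

private theorem EVE4_coef (c : Dat k) (I : Finset (k × k)) (m : ℕ) (R : Fin 2 → Option k) :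
    (m • (∑ p ∈ I, cyc k (pt1 ![some p.1, some p.2]) - I.card • cyc k (pt1 (binf c)))) (eqs k (pt1 R)) =
      (m : ℤ) * ((∑ p ∈ I, if (![some p.1, some p.2] : Fin 2 → Option k) = R then (1 : ℤ) else 0) -
        I.card * if binf c = R then (1 : ℤ) else 0) := by
  rw [Finsupp.smul_apply, Finsupp.sub_apply, Finsupp.finsetSum_apply, Finsupp.smul_apply, EVE4_val,
    nsmul_eq_mul, nsmul_eq_mul]
  congr 2
  exact Finset.sum_congr rfl fun p _ => EVE4_val _ _

private theorem EVE4_none (I : Finset (k × k)) (R : Fin 2 → Option k) (h : R 0 = none ∨ R 1 = none) :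
    (∑ p ∈ I, if (![some p.1, some p.2] : Fin 2 → Option k) = R then (1 : ℤ) else 0) = 0 := by
  refine Finset.sum_eq_zero fun p _ => ?_
  rw [if_neg]
  rintro rfl
  rcases h with h | h
  · exact Option.some_ne_none _ h
  · exact Option.some_ne_none _ h

private theorem EVE4_some (I : Finset (k × k)) (x₀ v₀ : k) :
    (∑ p ∈ I, if (![some p.1, some p.2] : Fin 2 → Option k) = ![some x₀, some v₀] then (1 : ℤ) else 0) =
      if (x₀, v₀) ∈ I then 1 else 0 := by
  have h : ∀ p ∈ I, (if (![some p.1, some p.2] : Fin 2 → Option k) = ![some x₀, some v₀] then (1 : ℤ) else 0) =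
      if p = (x₀, v₀) then 1 else 0 := by
    intro p _
    by_cases hp : p = (x₀, v₀)
    · rw [if_pos hp, if_pos (by rw [hp])]
    · rw [if_neg hp, if_neg]
      intro h'
      apply hp
      have h0 := congrFun h' 0
      have h1 := congrFun h' 1
      exact Prod.ext (Option.some.inj h0) (Option.some.inj h1)
  rw [Finset.sum_congr rfl h, Finset.sum_ite_eq']

private theorem EVE4_ab {c : Dat k} (hc : c.Good) {a : k} (h1 : ∏ i, (a - c.a i) = 0) (h2 : ∏ i, (a - c.b i) = 0) :
    False := by
  obtain ⟨i, -, hi⟩ := Finset.prod_eq_zero_iff.1 h1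
  obtain ⟨j, -, hj⟩ := Finset.prod_eq_zero_iff.1 h2
  have h3 : Sum.elim c.a c.b (Sum.inl i) = Sum.elim c.a c.b (Sum.inr j) := by
    change c.a i = c.b j
    rw [← sub_eq_zero.1 hi, ← sub_eq_zero.1 hj]
  exact Sum.inl_ne_inr (hc.inj h3)

theorem ev_fun [IsAlgClosed k] [CharZero k] {c : Dat k} (hc : c.Good) (I : Finset (k × k))
    (hI : ∀ p ∈ I, OnC c (some p.1) (some p.2) ∧ p.2 ≠ 0)
    (ht : IsOfFinAddOrder (∑ p ∈ I, cls c 0 (pt1 ![some p.1, some p.2]) - I.card • cls c 0 (pt1 (binf c))))
    {N : Type} [Field N] [Algebra k N] {x v : N} (h : GenC c x v) :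
    ∃ (M : ℕ) (G : N), 0 < M ∧ G ≠ 0 ∧ ∀ w : Place k N,
      (w.ord v < 0 → w.ord G = -((I.card * M : ℕ) : ℤ)) ∧
      (∀ x₀ v₀ : k, Red w x (algebraMap k (RF w) x₀) → Red w v (algebraMap k (RF w) v₀) →
        w.ord G = if (x₀, v₀) ∈ I then 3 * (M : ℤ) else 0) ∧
      (w.ord x < 0 → w.ord G = 0) := by
  have hn2 := hc.two
  have hnk : NeZero ((c.n : ℕ) : k) := ⟨by exact_mod_cast (by omega : c.n ≠ 0)⟩
  obtain ⟨ζ, hζ⟩ := HasEnoughRootsOfUnity.exists_primitiveRoot k c.n
  obtain ⟨m, hm, hm0⟩ := isOfFinAddOrder_iff_nsmul_eq_zero.1 ht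
  set e : Cyc k 1 := m • (∑ p ∈ I, cyc k (pt1 ![some p.1, some p.2]) - I.card • cyc k (pt1 (binf c))) with he
  have heR : e ∈ RatEq c 1 0 := by
    have h1 : (∑ p ∈ I, cls c 0 (pt1 (![some p.1, some p.2] : Fin 2 → Option k)) -
        I.card • cls c 0 (pt1 (binf c))) =
        QuotientAddGroup.mk' (RatEq c 1 0)
          (∑ p ∈ I, cyc k (pt1 ![some p.1, some p.2]) - I.card • cyc k (pt1 (binf c))) := by
      rw [map_sub, map_sum, map_nsmul]
      rfl
    rw [h1, ← map_nsmul, ← he] at hm0
    exact (QuotientAddGroup.eq_zero_iff _).1 hm0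
  obtain ⟨f, hf0, hf⟩ := ratEq_fun hc hζ h e heR
  have hx : ∀ y : k, x - algebraMap k N y ≠ 0 := by
    intro y h0
    apply h.tr
    rw [sub_eq_zero.1 h0]
    exact isAlgebraic_algebraMap y
  set X : Fin 3 → N := fun i => x - algebraMap k N (c.b i) with hX
  have hX0 : ∀ i, X i ≠ 0 := fun i => hx _
  set G : N := f ^ (3 * c.n) * (X 0 / X 1) ^ (m * I.card) * (X 0 / X 2) ^ (m * I.card) with hG
  have hq1 : X 0 / X 1 ≠ 0 := div_ne_zero (hX0 0) (hX0 1)
  have hq2 : X 0 / X 2 ≠ 0 := div_ne_zero (hX0 0) (hX0 2)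
  have hG0 : G ≠ 0 := mul_ne_zero (mul_ne_zero (pow_ne_zero _ hf0) (pow_ne_zero _ hq1)) (pow_ne_zero _ hq2)
  have hordG : ∀ w : Place k N, w.ord G = (3 * c.n : ℕ) * w.ord f +
      (m * I.card : ℕ) * (w.ord (X 0) - w.ord (X 1)) + (m * I.card : ℕ) * (w.ord (X 0) - w.ord (X 2)) := by
    intro w
    rw [hG, w.ord_mul _ _ (mul_ne_zero (pow_ne_zero _ hf0) (pow_ne_zero _ hq1)) (pow_ne_zero _ hq2),
      w.ord_mul _ _ (pow_ne_zero _ hf0) (pow_ne_zero _ hq1), Place.ord_pow, Place.ord_pow, Place.ord_pow,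
      Place.ord_div w _ _ (hX0 0) (hX0 1), Place.ord_div w _ _ (hX0 0) (hX0 2)]
  have hbne : ∀ i j, i ≠ j → c.b i ≠ c.b j := by
    intro i j hij h1
    have h2 : (Sum.inr i : Fin 3 ⊕ Fin 3) = Sum.inr j := hc.inj h1
    exact hij (Sum.inr.inj h2)
  refine ⟨c.n * m, G, Nat.mul_pos (by omega) hm, hG0, fun w => ?_⟩
  obtain ⟨Q, hQ, h0, h1⟩ := place_pt hc h w
  have hordf : w.ord f = (m : ℤ) * ((∑ p ∈ I, if (![some p.1, some p.2] : Fin 2 → Option k) = Q then (1 : ℤ) else 0) -
      I.card * if binf c = Q then (1 : ℤ) else 0) := by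
    rw [← hf w _ (EVE4_sp h0 h1), EVE4_eqs, he, EVE4_coef]
  refine ⟨fun hv => ?_, fun x₀ v₀ hx₀ hv₀ => ?_, fun hxi => ?_⟩
  · -- a pole of `v`
    have hQ1 : Q 1 = none := by
      have h2 : (Q 1).map (algebraMap k (RF w)) = none :=
        spO_unique h1 (show SpO w (some v) none from hv)
      rcases hq : Q 1 with _ | a
      · rfl
      · rw [hq] at h2
        exact absurd h2 (Option.some_ne_none _)
    rcases hq0 : Q 0 with _ | a
    · rw [hq0, hQ1] at hQ
      exact hQ.elim
    · have hQ' := hQ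
      rw [hq0, hQ1] at hQ'
      obtain ⟨i, hi⟩ : ∃ i, a = c.b i := hQ'
      subst hi
      obtain ⟨w₀, -, -, -, -, -, hb, huniq⟩ := placeC hc hζ h Q hQ
      have hw : w = w₀ := huniq w h0 h1
      subst hw
      have hord := (hb i hq0).1
      have hred : Red w x (algebraMap k (RF w) (c.b i)) := by
        rw [hq0] at h0
        exact h0
      have hoth : ∀ j, i ≠ j → w.ord (X j) = 0 := fun j hij => EVE4_red w hred (hbne i j hij)
      have hbinf : (binf c = Q) ↔ i = 0 := by
        constructor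
        · intro h3
          have h4 := congrFun h3 0
          rw [hq0] at h4
          have h5 : c.b 0 = c.b i := Option.some.inj h4
          by_contra h6
          exact hbne i 0 h6 h5.symm
        · rintro rfl
          funext j
          fin_cases j
          · exact hq0.symm
          · exact hQ1.symm
      rw [hordG, hordf, EVE4_none I Q (Or.inr hQ1)]
      have hordi : w.ord (X i) = c.n := hord
      fin_cases i
      · have h3 : binf c = Q := hbinf.2 rfl
        have h4 := hoth 1 (by decide)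
        have h5 := hoth 2 (by decide)
        have h6 : w.ord (X 0) = c.n := hordi
        rw [if_pos h3, h4, h5, h6]
        push_cast
        ring
      · have h3 : ¬ binf c = Q := fun h => by
          have := hbinf.1 h
          exact absurd this (by decide)
        have h4 := hoth 0 (by decide)
        have h5 := hoth 2 (by decide)
        have h6 : w.ord (X 1) = c.n := hordi
        rw [if_neg h3, h4, h5, h6]
        push_cast
        ring
      · have h3 : ¬ binf c = Q := fun h => by
          have := hbinf.1 h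
          exact absurd this (by decide)
        have h4 := hoth 0 (by decide)
        have h5 := hoth 1 (by decide)
        have h6 : w.ord (X 2) = c.n := hordi
        rw [if_neg h3, h4, h5, h6]
        push_cast
        ring
  · -- a finite point
    have hinj : Function.Injective (algebraMap k (RF w)) := (algebraMap k (RF w)).injective
    have hQ0 : Q 0 = some x₀ := by
      have h2 : (Q 0).map (algebraMap k (RF w)) = some (algebraMap k (RF w) x₀) :=
        spO_unique h0 (show SpO w (some x) (some (algebraMap k (RF w) x₀)) from hx₀)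
      rcases hq : Q 0 with _ | a
      · rw [hq] at h2
        exact absurd h2.symm (Option.some_ne_none _)
      · rw [hq] at h2
        rw [hinj (Option.some.inj h2)]
    have hQ1 : Q 1 = some v₀ := by
      have h2 : (Q 1).map (algebraMap k (RF w)) = some (algebraMap k (RF w) v₀) :=
        spO_unique h1 (show SpO w (some v) (some (algebraMap k (RF w) v₀)) from hv₀)
      rcases hq : Q 1 with _ | a
      · rw [hq] at h2
        exact absurd h2.symm (Option.some_ne_none _)
      · rw [hq] at h2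
        rw [hinj (Option.some.inj h2)]
    have hon : v₀ ^ c.n * ∏ i, (x₀ - c.b i) = ∏ i, (x₀ - c.a i) := by
      rw [hQ0, hQ1] at hQ
      exact hQ
    have hxb : ∀ i, x₀ ≠ c.b i := by
      intro i hi
      have hB : ∏ i, (x₀ - c.b i) = 0 := Finset.prod_eq_zero (Finset.mem_univ i) (by rw [hi, sub_self])
      rw [hB, mul_zero] at hon
      exact EVE4_ab hc hon.symm hB
    have hoth : ∀ j, w.ord (X j) = 0 := fun j => EVE4_red w hx₀ (hxb j)
    have hQe : Q = ![some x₀, some v₀] := by
      funext j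
      fin_cases j
      · exact hQ0
      · exact hQ1
    have hbinf : ¬ binf c = Q := by
      intro h3
      have h4 := congrFun h3 1
      rw [hQ1] at h4
      exact absurd h4.symm (Option.some_ne_none _)
    rw [hordG, hordf, if_neg hbinf, hoth, hoth, hoth, hQe, EVE4_some]
    split_ifs
    · push_cast
      ring
    · ring
  · -- infinity
    have hQ0 : Q 0 = none := by
      have h2 : (Q 0).map (algebraMap k (RF w)) = none :=
        spO_unique h0 (show SpO w (some x) none from hxi)
      rcases hq : Q 0 with _ | a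
      · rfl
      · rw [hq] at h2
        exact absurd h2 (Option.some_ne_none _)
    have hoth : ∀ j, w.ord (X j) = w.ord x := fun j => EVE4_inf w hxi (c.b j)
    have hbinf : ¬ binf c = Q := by
      intro h3
      have h4 := congrFun h3 0
      rw [hQ0] at h4
      exact absurd h4 (Option.some_ne_none _)
    rw [hordG, hordf, if_neg hbinf, hoth, hoth, hoth, EVE4_none I Q (Or.inl hQ0)]
    ring

end Pool.Agent.LibCW77
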