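import Pool.Agent.LibEV91.Defs

/-!
[EV91 N2] MEDIUM: the polynomials over the valuation ring (only polynomials)

`m` is a unit of `O` (`3 ∤ m`: `u m + w 3 = 1` in `ℤ`, and `3` is in the maximal ideal: `(3 : k)⁻¹ ∉ O` implies that `(3 : O)` is not a unit). `1 + T` is a unit. So
`γ = - (1 - T) / (m (1 + T)) ∈ O`. `(1 + γ X) ^ m = 1 + m γ X + γ ^ 2 X ^ 2 R`, `R : O[X]` (induction on `m`). Put `δ = 1 / (1 + T)`, `ε = 1 / (m (1 + T))` in `O`:
`m γ = - δ (1 - T)`, `γ ^ 2 = - ε γ (1 - T)`. `B = 1 + C (T δ) X + C (T ε γ) X ^ 2 R`, `A = - 1 + C δ X + C (ε γ) X ^ 2 R`: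
`(1 - T) B = (1 - T) - T (m γ X + γ ^ 2 X ^ 2 R) = 1 - T (1 + γ X) ^ m`, `(1 - T) A = T - (1 + γ X) ^ m`. `B(0) = 1`, `A(0) = -1`, `A'(0) B(0) - A(0) B'(0) = δ + T δ = 1`.
-/

open scoped Classical
open Polynomial

namespace Pool.Agent.LibCW77

open Pool.Agent.LibBH2
open Pool.Agent.LibCHd (VR RF Red FunF)

variable {k : Type} [Field k]

private theorem EVN2_unit [CharZero k] {O : ValuationSubring k} (h3 : (3 : k)⁻¹ ∉ O) {m : ℕ}
    (hm : ¬ 3 ∣ m) : (m : k)⁻¹ ∈ O := by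
  have hcop : Nat.Coprime m 3 := ((Nat.Prime.coprime_iff_not_dvd Nat.prime_three).2 hm).symm
  have hv3 : O.valuation (3 : k) < 1 := by
    by_contra h
    rw [not_lt] at h
    apply h3
    rw [← O.valuation_le_one_iff, map_inv₀]
    exact inv_le_one_of_one_le₀ h
  have hmO : ∀ z : ℤ, O.valuation ((z : ℤ) : k) ≤ 1 := fun z =>
    (O.valuation_le_one_iff _).2 (intCast_mem O z)
  have hvm : 1 ≤ O.valuation (m : k) := by
    by_contra h
    rw [not_le] at h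
    have e : ((m : k)) * ((Nat.gcdA m 3 : ℤ) : k) + 3 * ((Nat.gcdB m 3 : ℤ) : k) = 1 := by
      have h1 := Nat.gcd_eq_gcd_ab m 3
      rw [hcop] at h1
      have h2 := congrArg (fun z : ℤ => (z : k)) h1
      push_cast at h2
      exact h2.symm
    have h1 : O.valuation ((m : k) * ((Nat.gcdA m 3 : ℤ) : k)) < 1 := by
      rw [map_mul]
      exact mul_lt_one_of_lt_of_le h (hmO _)
    have h2 : O.valuation (3 * ((Nat.gcdB m 3 : ℤ) : k)) < 1 := by
      rw [map_mul]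
      exact mul_lt_one_of_lt_of_le hv3 (hmO _)
    have h4 := Valuation.map_add_lt O.valuation h1 h2
    rw [e, map_one] at h4
    exact lt_irrefl _ h4
  rw [← O.valuation_le_one_iff, map_inv₀]
  exact inv_le_one_of_one_le₀ hvm

private theorem EVN2_pow {A : Type} [CommRing A] (γ : A) (n : ℕ) : ∃ R : A[X],
    (1 + C γ * X) ^ n = 1 + C ((n : A) * γ) * X + C (γ ^ 2) * X ^ 2 * R := by
  induction n with
  | zero => exact ⟨0, by simp⟩
  | succ n ih =>
    obtain ⟨R, hR⟩ := ih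
    refine ⟨C (n : A) + R * (1 + C γ * X), ?_⟩
    rw [pow_succ, hR]
    simp only [map_mul, map_pow, map_natCast, Nat.cast_add, Nat.cast_one, map_add, map_one]
    ring

/-- the identities over a ring -/
private theorem EVN2_id {A : Type} [CommRing A] (T δ ε γ μ : A) (R : A[X]) (h1 : μ * γ = -(1 - T) * δ)
    (h2 : γ ^ 2 = -(1 - T) * (ε * γ)) (h3 : (1 + T) * δ = 1) {W : A[X]}
    (hW : W = 1 + C (μ * γ) * X + C (γ ^ 2) * X ^ 2 * R) :
    C (1 - T) * (1 + C (T * δ) * X + C (T * (ε * γ)) * X ^ 2 * R) = 1 - C T * W ∧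
      C (1 - T) * (-1 + C δ * X + C (ε * γ) * X ^ 2 * R) = C T - W ∧
      (1 + C (T * δ) * X + C (T * (ε * γ)) * X ^ 2 * R : A[X]).eval 0 = 1 ∧
      (-1 + C δ * X + C (ε * γ) * X ^ 2 * R : A[X]).eval 0 = -1 ∧
      (derivative (-1 + C δ * X + C (ε * γ) * X ^ 2 * R) *
        (1 + C (T * δ) * X + C (T * (ε * γ)) * X ^ 2 * R) -
        (-1 + C δ * X + C (ε * γ) * X ^ 2 * R) *
        derivative (1 + C (T * δ) * X + C (T * (ε * γ)) * X ^ 2 * R)).eval 0 = 1 := by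
  refine ⟨?_, ?_, ?_, ?_, ?_⟩
  · rw [hW, h1, h2]
    simp only [map_mul, map_neg, map_sub, map_one]
    ring
  · rw [hW, h1, h2]
    simp only [map_mul, map_neg, map_sub, map_one]
    ring
  · simp
  · simp
  · simp only [derivative_add, derivative_mul, derivative_C, derivative_X, derivative_neg,
      derivative_one, derivative_X_pow, eval_sub, eval_add, eval_mul, eval_neg, eval_one, eval_C,
      eval_X, eval_pow, eval_zero]
    simp
    linear_combination h3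

theorem ev_pol [CharZero k] {O : ValuationSubring k} (h3 : (3 : k)⁻¹ ∉ O) {m : ℕ} (hm : ¬ 3 ∣ m) {T : k} (hT : T ∈ O)
    (hT1 : 1 + T ≠ 0) (hT2 : (1 + T)⁻¹ ∈ O) (hT3 : 1 - T ≠ 0) {γ : k} (hγ : γ = -(1 - T) / (m * (1 + T))) :
    γ ∈ O ∧ ∃ A B : O[X],
      C (1 - T) * B.map (algebraMap O k) = 1 - C T * (1 + C γ * X) ^ m ∧
      C (1 - T) * A.map (algebraMap O k) = C T - (1 + C γ * X) ^ m ∧
      B.eval 0 = 1 ∧ A.eval 0 = -1 ∧ (derivative A * B - A * derivative B).eval 0 = 1 := by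
  have hmi := EVN2_unit h3 hm
  have hm0 : (m : k) ≠ 0 := by
    have : m ≠ 0 := by
      rintro rfl
      exact hm (dvd_zero 3)
    exact Nat.cast_ne_zero.2 this
  have hγ' : γ = -(1 - T) * ((m : k)⁻¹ * (1 + T)⁻¹) := by
    rw [hγ, div_eq_mul_inv, mul_inv]
  have hγO : γ ∈ O := by
    rw [hγ']
    exact O.mul_mem _ _ (O.neg_mem _ (O.sub_mem O.one_mem hT)) (O.mul_mem _ _ hmi hT2)
  refine ⟨hγO, ?_⟩
  obtain ⟨T', hT'⟩ : ∃ T' : O, (T' : k) = T := ⟨⟨T, hT⟩, rfl⟩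
  obtain ⟨δ, hδ⟩ : ∃ δ : O, (δ : k) = (1 + T)⁻¹ := ⟨⟨_, hT2⟩, rfl⟩
  obtain ⟨ε, hε⟩ : ∃ ε : O, (ε : k) = (m : k)⁻¹ * (1 + T)⁻¹ := ⟨⟨_, O.mul_mem _ _ hmi hT2⟩, rfl⟩
  obtain ⟨g, hg⟩ : ∃ g : O, (g : k) = γ := ⟨⟨_, hγO⟩, rfl⟩
  have e1 : (m : O) * g = -(1 - T') * δ := by
    apply Subtype.ext
    push_cast
    rw [hg, hT', hδ, hγ']
    field_simp
  have e2 : g ^ 2 = -(1 - T') * (ε * g) := by
    apply Subtype.ext
    push_cast
    rw [hg, hT', hε, sq]
    nth_rewrite 1 [hγ']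
    ring
  have e3 : (1 + T') * δ = 1 := by
    apply Subtype.ext
    push_cast
    rw [hT', hδ]
    exact mul_inv_cancel₀ hT1
  obtain ⟨R, hR⟩ := EVN2_pow g m
  obtain ⟨i1, i2, i3, i4, i5⟩ := EVN2_id T' δ ε g (m : O) R e1 e2 e3 hR
  have hmapW : ((1 + C g * X) ^ m : O[X]).map (algebraMap O k) = (1 + C γ * X) ^ m := by
    rw [Polynomial.map_pow, Polynomial.map_add, Polynomial.map_mul, Polynomial.map_one,
      Polynomial.map_C, Polynomial.map_X]
    rw [← hg]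
    rfl
  refine ⟨-1 + C δ * X + C (ε * g) * X ^ 2 * R, 1 + C (T' * δ) * X + C (T' * (ε * g)) * X ^ 2 * R,
    ?_, ?_, i3, i4, i5⟩
  · have h := congrArg (Polynomial.map (algebraMap O k)) i1
    rw [Polynomial.map_mul, Polynomial.map_sub, Polynomial.map_one, Polynomial.map_mul,
      Polynomial.map_C, Polynomial.map_C, hmapW] at h
    have a1 : algebraMap O k (1 - T') = 1 - T := by
      rw [← hT']
      rfl
    have a2 : algebraMap O k T' = T := hT'
    rw [a1, a2] at h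
    exact h
  · have h := congrArg (Polynomial.map (algebraMap O k)) i2
    rw [Polynomial.map_mul, Polynomial.map_sub,
      Polynomial.map_C, Polynomial.map_C, hmapW] at h
    have a1 : algebraMap O k (1 - T') = 1 - T := by
      rw [← hT']
      rfl
    have a2 : algebraMap O k T' = T := hT'
    rw [a1, a2] at h
    exact h

end Pool.Agent.LibCW77
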