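import Pool.Agent.LibEV91.F0
import Pool.Agent.LibEV91.N2
import Pool.Agent.LibEV91.E4

/-!
[EV91 F1] MEDIUM: one point

First a private lemma (the case `T = α ^ 3 ∈ O`, for a function): `c = cov m ω α`, `s ^ m = α ^ 3`, `GenC c x v`, `0 < M`, `G ≠ 0`, `-M ≤ w.ord G` if `w.ord v < 0`, `0 ≤ w.ord G` if `0 ≤ w.ord v`,
`3 M ≤ w.ord G` at the point `(-1, s)`, contradicts `α ^ 3 ∈ O`, `(1 + α ^ 3)⁻¹ ∈ O`: `ev_core` with `ι = Unit`, `T = α ^ 3`, `γ` of `ev_pol` (N2), `κ = s γ`, `δ = s`, `ε = 1 - T` (`≠ 0`: `T ^ 2 ≠ 1`),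
`y = (v - s) / κ`, `a = 0`, `b = -1`: `(κ X + δ) ^ m = T (1 + γ X) ^ m`. `hA`: `C (1 - T) * A = C T - (1 + C γ X) ^ m`. `rs O 3 = 0`: `(3 : k)⁻¹ ∉ O`.
Now the theorem. `(1 + T)⁻¹ ∈ O`. `ev_fun` (E4) with `I = {(-1, s)}` for the generic point `(x, v)` of some `N` (`genC_exists`): `G`, `M`. If `T ∈ O`: the lemma. If `T ∉ O`: `T⁻¹ ∈ O`,
`(1 + T⁻¹)⁻¹ ∈ O` (`T⁻¹` is in the maximal ideal); `GenC (cov m ω α⁻¹) x v⁻¹` (`cov_swap`), `s⁻¹ ^ m = (α⁻¹) ^ 3`; the function `G * (v ^ M)⁻¹`: order `-M + M = 0` if `w.ord v < 0` (there `w.ord v = -1`),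
`- M` if `w.ord v > 0` (there `w.ord v = 1`, `placeC`, `place_pt`), `w.ord G` otherwise; use the lemma for `α⁻¹`, `v⁻¹`, `s⁻¹`.
The point `(-1, s)` is on the curve: `s ^ m (-1 - T⁻¹) = -1 - T`.
-/

open scoped Classical
open Polynomial

namespace Pool.Agent.LibCW77

open Pool.Agent.LibBH2
open Pool.Agent.LibCHd (VR RF Red FunF)

variable {k : Type} [Field k]

private theorem EVF1_cube_ne {α : k} (h1 : α ^ 6 ≠ 1) : 1 - α ^ 3 ≠ 0 ∧ 1 + α ^ 3 ≠ 0 := by
  constructor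
  · intro h
    apply h1
    have e : α ^ 3 = 1 := by linear_combination -h
    calc α ^ 6 = (α ^ 3) ^ 2 := by ring
      _ = 1 := by rw [e, one_pow]
  · intro h
    apply h1
    have e : α ^ 3 = -1 := by linear_combination h
    calc α ^ 6 = (α ^ 3) ^ 2 := by ring
      _ = 1 := by rw [e]; ring

private theorem EVF1_rs3 {O : ValuationSubring k} (h3 : (3 : k)⁻¹ ∉ O) : rs O 3 = 0 := by
  rw [IsLocalRing.residue_eq_zero_iff, IsLocalRing.mem_maximalIdeal, mem_nonunits_iff]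
  rintro ⟨u, hu⟩
  apply h3
  have e : ((u : O) : k) * ((u⁻¹ : Oˣ) : O) = 1 := by
    rw [← MulMemClass.coe_mul, Units.mul_inv, OneMemClass.coe_one]
  have e2 : ((u : O) : k) = 3 := by
    rw [hu]
    rfl
  rw [e2] at e
  rw [← eq_inv_of_mul_eq_one_right e]
  exact ((u⁻¹ : Oˣ) : O).2

private theorem EVF1_core [IsAlgClosed k] [CharZero k] {ω : k} (hω : IsPrimitiveRoot ω 3) {m : ℕ} (hm : 2 ≤ m)
    (hm3 : ¬ 3 ∣ m) {α s : k} (h0 : α ≠ 0) (h1 : α ^ 6 ≠ 1) (hs : s ^ m = α ^ 3) {O : ValuationSubring k}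
    (h3 : (3 : k)⁻¹ ∉ O) (hT : (1 + α ^ 3)⁻¹ ∈ O) (hTO : α ^ 3 ∈ O) {N : Type} [Field N] [Algebra k N] {x v : N}
    (h : GenC (cov m ω α) x v) {M : ℕ} (hM : 0 < M) {G : N} (hG : G ≠ 0)
    (hinf : ∀ w : Place k N, w.ord v < 0 → -(M : ℤ) ≤ w.ord G)
    (hfin : ∀ w : Place k N, 0 ≤ w.ord v → 0 ≤ w.ord G)
    (hpt : ∀ w : Place k N, Red w x (algebraMap k (RF w) (-1)) → Red w v (algebraMap k (RF w) s) →
      3 * (M : ℤ) ≤ w.ord G) : False := by
  obtain ⟨hT1, hT2⟩ := EVF1_cube_ne h1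
  obtain ⟨hγ, A, B, hB, hA, hB0, hA0, hW⟩ := ev_pol h3 hm3 hTO hT2 hT hT1 rfl
  have hm0 : (m : k) ≠ 0 := Nat.cast_ne_zero.2 (by omega)
  have hs0 : s ≠ 0 := by
    rintro rfl
    rw [zero_pow (by omega)] at hs
    exact pow_ne_zero 3 h0 hs.symm
  set γ : k := -(1 - α ^ 3) / (m * (1 + α ^ 3)) with hγdef
  have hγ0 : γ ≠ 0 := div_ne_zero (neg_ne_zero.2 hT1) (mul_ne_zero hm0 hT2)
  have hκ : s * γ ≠ 0 := mul_ne_zero hs0 hγ0
  have hlin : (C (s * γ) * X + C s : k[X]) = C s * (1 + C γ * X) := by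
    rw [C_mul]
    ring
  have hpow : (C (s * γ) * X + C s : k[X]) ^ m = C (α ^ 3) * (1 + C γ * X) ^ m := by
    rw [hlin, mul_pow, ← C_pow, hs]
  have hκN : algebraMap k N (s * γ) ≠ 0 := (_root_.map_ne_zero _).2 hκ
  refine ev_core hω h0 h1 h (y := (v - algebraMap k N s) / algebraMap k N (s * γ)) (δ := s) hκ ?_ (EVF1_rs3 h3) (A := A)
    (B := B) hT1 ?_ ?_ (ι := Unit) ?_ (fun _ => 0) (fun _ => -1) (fun i i' _ => Subsingleton.elim i i') ?_ ?_ ?_ ?_ ?_
    hM hG ?_ hfin ?_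
  · rw [mul_div_cancel₀ _ hκN, sub_add_cancel]
  · rw [hpow]
    exact hB
  · rw [hpow, ← mul_assoc, ← C_mul, inv_mul_cancel₀ (pow_ne_zero 3 h0), C_1, one_mul]
    exact hA
  · rw [Fintype.card_unit]
    exact hm
  · intro _
    rw [hA0, map_neg, map_one]
    exact neg_ne_zero.2 one_ne_zero
  · intro _
    rw [hB0, map_one]
    exact one_ne_zero
  · intro _
    rw [hW, map_one]
    exact one_ne_zero
  · intro _
    rw [hA0, hB0]
    ring
  · intro _
    rw [ZeroMemClass.coe_zero, mul_zero, zero_add]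
    exact hs0
  · intro w hw
    rw [Fintype.card_unit, one_mul]
    exact hinf w hw
  · intro _ w hw1 hw2
    refine hpt w ?_ ?_
    · have e : ((-1 : O) : k) = -1 := by
        rw [NegMemClass.coe_neg, OneMemClass.coe_one]
      rwa [e] at hw1
    · rwa [ZeroMemClass.coe_zero, mul_zero, zero_add] at hw2

private theorem EVF1_ord [IsAlgClosed k] [CharZero k] {c : Dat k} (hc : c.Good) {N : Type} [Field N] [Algebra k N]
    {x v : N} (h : GenC c x v) (w : Place k N) : (0 < w.ord v → w.ord v = 1) ∧ (w.ord v < 0 → w.ord v = -1) := by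
  have hn : c.n ≠ 0 := by have := hc.two; omega
  obtain ⟨ζ, hζ⟩ : ∃ ζ : k, IsPrimitiveRoot ζ c.n := by
    have : NeZero c.n := ⟨hn⟩
    have : NeZero (c.n : k) := ⟨Nat.cast_ne_zero.2 hn⟩
    exact HasEnoughRootsOfUnity.exists_primitiveRoot k c.n
  obtain ⟨Q, hQ, hQ0, hQ1⟩ := place_pt hc h w
  obtain ⟨w₀, -, -, -, -, ha, hb, huniq⟩ := placeC hc hζ h Q hQ
  have hw := huniq w hQ0 hQ1
  subst hw
  generalize hP : Q 0 = P at hQ ha hb hQ0
  generalize hR : Q 1 = R at hQ hQ1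
  constructor
  · intro hpos
    rcases R with _ | v₀
    · have h5 : w.ord v < 0 := hQ1
      omega
    · have h5 : Red w v (algebraMap k (RF w) v₀) := hQ1
      have hv0 : v₀ = 0 := by
        by_contra hne
        have := h5.ord_eq_zero ((_root_.map_ne_zero _).2 hne)
        omega
      subst hv0
      rcases P with _ | x₀
      · have h6 : (0 : k) ^ c.n = 1 := hQ
        rw [zero_pow hn] at h6
        exact absurd h6 zero_ne_one
      · have h6 : (0 : k) ^ c.n * ∏ i, (x₀ - c.b i) = ∏ i, (x₀ - c.a i) := hQ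
        rw [zero_pow hn, zero_mul] at h6
        obtain ⟨i, -, hi⟩ := Finset.prod_eq_zero_iff.1 h6.symm
        exact (ha i (by rw [sub_eq_zero.1 hi])).2
  · intro hneg
    rcases R with _ | v₀
    · rcases P with _ | x₀
      · exact hQ.elim
      · obtain ⟨i, hi⟩ := hQ
        exact (hb i (by rw [hi])).2
    · have h5 : Red w v (algebraMap k (RF w) v₀) := hQ1
      rcases h5.reg with h6 | h6
      · rw [h6, w.ord_zero] at hneg
        omega
      · omega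

theorem cov_one [IsAlgClosed k] [CharZero k] {ω : k} (hω : IsPrimitiveRoot ω 3) {m : ℕ} (hm : 2 ≤ m) (hm3 : ¬ 3 ∣ m) {α s : k}
    (h0 : α ≠ 0) (h1 : α ^ 6 ≠ 1) (hs : s ^ m = α ^ 3) {O : ValuationSubring k} (h3 : (3 : k)⁻¹ ∉ O)
    (hT : (1 + α ^ 3)⁻¹ ∈ O) :
    ¬ IsOfFinAddOrder (cls (cov m ω α) 0 (pt1 ![some (-1), some s]) -
      cls (cov m ω α) 0 (pt1 (binf (cov m ω α)))) := by
  intro ht
  have hc : (cov m ω α).Good := cov_good hω hm h0 h1
  obtain ⟨hT1, hT2⟩ := EVF1_cube_ne h1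
  have hα3 : α ^ 3 ≠ 0 := pow_ne_zero 3 h0
  have hs0 : s ≠ 0 := by
    rintro rfl
    rw [zero_pow (by omega)] at hs
    exact hα3 hs.symm
  have hon : OnC (cov m ω α) (some (-1)) (some s) := by
    have e1 : ∏ i, ((-1 : k) - (cov m ω α).a i) = (-1) ^ 3 - α ^ 3 := cov_a hω m α k (-1)
    have e2 : ∏ i, ((-1 : k) - (cov m ω α).b i) = (-1) ^ 3 - (α ^ 3)⁻¹ := cov_b hω m α k (-1)
    show s ^ m * ∏ i, ((-1 : k) - (cov m ω α).b i) = ∏ i, ((-1 : k) - (cov m ω α).a i)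
    rw [e1, e2, hs, mul_sub, mul_inv_cancel₀ hα3]
    ring
  obtain ⟨N, iN, aN, x, v, h⟩ := genC_exists hc
  have hv := (genC_funF hc h).2
  obtain ⟨M, G, hM, hG, hw⟩ := ev_fun hc {((-1 : k), s)}
    (by
      intro p hp
      rw [Finset.mem_singleton] at hp
      subst hp
      exact ⟨hon, hs0⟩)
    (by
      rw [Finset.sum_singleton, Finset.card_singleton, one_smul]
      exact ht) h
  have hinf : ∀ w : Place k N, w.ord v < 0 → w.ord G = -(M : ℤ) := by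
    intro w h5
    have := (hw w).1 h5
    rwa [Finset.card_singleton, one_mul] at this
  have hfin : ∀ w : Place k N, 0 ≤ w.ord v → 0 ≤ w.ord G := by
    intro w h5
    obtain ⟨Q, hQ, hQ0, hQ1⟩ := place_pt hc h w
    generalize Q 0 = P at hQ hQ0
    generalize Q 1 = R at hQ hQ1
    rcases R with _ | v₀
    · have h6 : w.ord v < 0 := hQ1
      omega
    · rcases P with _ | x₀
      · exact ((hw w).2.2 hQ0).ge
      · rw [(hw w).2.1 x₀ v₀ hQ0 hQ1]
        split_ifs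
        · positivity
        · exact le_rfl
  have hpt : ∀ w : Place k N, Red w x (algebraMap k (RF w) (-1)) → Red w v (algebraMap k (RF w) s) →
      w.ord G = 3 * (M : ℤ) := by
    intro w h5 h6
    rw [(hw w).2.1 (-1) s h5 h6, if_pos (Finset.mem_singleton_self _)]
  rcases O.mem_or_inv_mem (α ^ 3) with hTO | hTO
  · exact EVF1_core hω hm hm3 h0 h1 hs h3 hT hTO h hM hG (fun w h5 => (hinf w h5).ge) hfin
      (fun w h5 h6 => (hpt w h5 h6).ge)
  · have h0' : α⁻¹ ≠ 0 := inv_ne_zero h0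
    have h1' : α⁻¹ ^ 6 ≠ 1 := by
      rw [inv_pow]
      intro h5
      exact h1 (inv_eq_one.1 h5)
    have hs' : s⁻¹ ^ m = α⁻¹ ^ 3 := by rw [inv_pow, inv_pow, hs]
    have hT' : (1 + α⁻¹ ^ 3)⁻¹ ∈ O := by
      have e : (1 + α⁻¹ ^ 3)⁻¹ = 1 - (1 + α ^ 3)⁻¹ := by
        have h5 : 1 + (α ^ 3)⁻¹ ≠ 0 := by
          intro h6
          apply hT2
          have h7 : α ^ 3 * (1 + (α ^ 3)⁻¹) = 0 := by rw [h6, mul_zero]
          rw [mul_add, mul_inv_cancel₀ hα3] at h7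
          linear_combination h7
        rw [inv_pow, inv_eq_iff_eq_inv, eq_comm, inv_eq_iff_eq_inv, eq_comm, ← mul_left_inj' h5,
          inv_mul_cancel₀ h5, ← mul_right_inj' hT2, ← mul_assoc, mul_sub, mul_inv_cancel₀ hT2, mul_one]
        rw [add_sub_cancel_left, mul_add, mul_inv_cancel₀ hα3]
        ring
      rw [e]
      exact sub_mem O.one_mem hT
    have hTO' : α⁻¹ ^ 3 ∈ O := by rwa [inv_pow]
    have hvM : v ^ M ≠ 0 := pow_ne_zero M hv
    have hord : ∀ w : Place k N, w.ord (G * (v ^ M)⁻¹) = w.ord G - M * w.ord v := by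
      intro w
      rw [w.ord_mul _ _ hG (inv_ne_zero hvM), w.ord_inv, w.ord_pow]
      ring
    refine EVF1_core hω hm hm3 h0' h1' hs' h3 hT' hTO' (cov_swap hω hm h0 h1 h) hM
      (G := G * (v ^ M)⁻¹) (mul_ne_zero hG (inv_ne_zero hvM)) ?_ ?_ ?_
    · intro w h5
      rw [w.ord_inv] at h5
      have h6 := (EVF1_ord hc h w).1 (by omega)
      have h7 := hfin w (by omega)
      rw [hord, h6]
      omega
    · intro w h5
      rw [w.ord_inv] at h5
      rw [hord]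
      rcases lt_trichotomy (w.ord v) 0 with h6 | h6 | h6
      · rw [hinf w h6, (EVF1_ord hc h w).2 h6]
        omega
      · have h7 := hfin w h6.ge
        rw [h6, mul_zero, sub_zero]
        exact h7
      · omega
    · intro w h5 h6
      have hs1 : algebraMap k (RF w) s⁻¹ ≠ 0 := (_root_.map_ne_zero _).2 (inv_ne_zero hs0)
      have h7 := h6.inv hs1
      rw [inv_inv, map_inv₀, inv_inv] at h7
      have h8 := h7.ord_eq_zero ((_root_.map_ne_zero _).2 hs0)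
      rw [hord, hpt w h5 h7, h8, mul_zero, sub_zero]

end Pool.Agent.LibCW77
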