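import Pool.Agent.LibEV91.F0
import Pool.Agent.LibEV91.E4

/-!
[EV91 F2] MEDIUM: two points

As F1, with two points. Private lemma (`T = α ^ 3 ∈ O`, `(1 - T ^ 2)⁻¹ ∈ O`): `ev_core` with `ι = Fin 2`, `κ = s`, `δ = 0`, `ε = 1`, `y = v / s`, `A = C T - X ^ m`, `B = 1 - C T * X ^ m` over `O`,
`a = ![1, -1]`, `b = ![-1, 1]`; `(κ X) ^ m = T X ^ m`; `m` is odd, `m ≥ 3`. `A(1) = T - 1`, `A(-1) = T + 1`, `B(1) = 1 - T`, `B(-1) = 1 + T`: units, because `(1 - T)(1 + T)` is a unit of `O`;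
`A' B - A B' = m X ^ (m-1) (T ^ 2 - 1)`, and `m` is a unit of `O` (`3 ∤ m`, `(3 : k)⁻¹ ∉ O`). `rs O 1 ≠ rs O (-1)`: `2` is a unit. `b_i ^ 3 B(a_i) = A(a_i)` ok.
Theorem: `ev_fun` with `I = {(-1, s), (1, -s)}` (two different points; on the curve). If `T ∉ O` use `cov_swap`, `α⁻¹`, `v⁻¹`, `s⁻¹` and the function `G * (v ^ (2 M))⁻¹`
(`(1 - T ^ (-2))⁻¹ ∈ O`, as `T⁻¹` is in the maximal ideal).
-/

open scoped Classical
open Polynomial

namespace Pool.Agent.LibCW77

open Pool.Agent.LibBH2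
open Pool.Agent.LibCHd (VR RF Red FunF)

variable {k : Type} [Field k]

private theorem EVF2_unit {O : ValuationSubring k} (z : O) (h0 : (z : k) ≠ 0) (h : (z : k)⁻¹ ∈ O) : rs O z ≠ 0 := by
  intro h1
  rw [IsLocalRing.residue_eq_zero_iff, IsLocalRing.mem_maximalIdeal, mem_nonunits_iff] at h1
  refine h1 (IsUnit.of_mul_eq_one (⟨(z : k)⁻¹, h⟩ : O) ?_)
  apply Subtype.ext
  exact mul_inv_cancel₀ h0

private theorem EVF2_inv {O : ValuationSubring k} (z : O) (h : rs O z ≠ 0) : (z : k)⁻¹ ∈ O := by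
  rw [Ne, IsLocalRing.residue_eq_zero_iff, IsLocalRing.mem_maximalIdeal, mem_nonunits_iff, not_not] at h
  obtain ⟨y, hy⟩ := h.exists_right_inv
  have h1 : (z : k) * (y : k) = 1 := congrArg Subtype.val hy
  rw [inv_eq_of_mul_eq_one_right h1]
  exact y.2

private theorem EVF2_three {O : ValuationSubring k} (h : (3 : k)⁻¹ ∉ O) : rs O 3 = 0 := by
  by_contra h0
  exact h (EVF2_inv 3 h0)

private theorem EVF2_int {O : ValuationSubring k} (h : rs O 3 = 0) {m : ℕ} (hm : ¬ 3 ∣ m) : rs O (m : O) ≠ 0 := by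
  intro h0
  have hc : IsCoprime (m : ℤ) 3 := by
    rw [Int.isCoprime_iff_gcd_eq_one]
    have : Nat.Coprime m 3 := (Nat.prime_three.coprime_iff_not_dvd.2 hm).symm
    exact this
  obtain ⟨a, b, hab⟩ := hc
  have h1 : ((a : ℤ) : O) * (m : O) + ((b : ℤ) : O) * 3 = 1 := by
    have := congrArg (fun z : ℤ => (z : O)) hab
    push_cast at this
    exact this
  have h2 := congrArg (rs O) h1
  rw [map_add, map_mul, map_mul, h0, h, map_one] at h2
  simp at h2

private theorem EVF2_core [IsAlgClosed k] [CharZero k] {ω : k} (hω : IsPrimitiveRoot ω 3) {m : ℕ} (hm : 3 ≤ m)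
    (hodd : Odd m) (hm3 : ¬ 3 ∣ m) {α s : k} (h0 : α ≠ 0) (h1 : α ^ 6 ≠ 1) (hs : s ^ m = α ^ 3) {O : ValuationSubring k}
    (h3 : (3 : k)⁻¹ ∉ O) (hTO : α ^ 3 ∈ O) (hT : (1 - α ^ 6)⁻¹ ∈ O) {N : Type} [Field N] [Algebra k N] {x v : N}
    (h : GenC (cov m ω α) x v) {M : ℕ} (hM : 0 < M) {G : N} (hG : G ≠ 0)
    (hinf : ∀ w : Place k N, w.ord v < 0 → -((2 * M : ℕ) : ℤ) ≤ w.ord G)
    (hfin : ∀ w : Place k N, 0 ≤ w.ord v → 0 ≤ w.ord G)
    (hp1 : ∀ w : Place k N, Red w x (algebraMap k (RF w) (-1)) → Red w v (algebraMap k (RF w) s) →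
      3 * (M : ℤ) ≤ w.ord G)
    (hp2 : ∀ w : Place k N, Red w x (algebraMap k (RF w) 1) → Red w v (algebraMap k (RF w) (-s)) →
      3 * (M : ℤ) ≤ w.ord G) : False := by
  have hα3 : α ^ 3 ≠ 0 := pow_ne_zero 3 h0
  have hs0 : s ≠ 0 := by
    rintro rfl
    rw [zero_pow (by omega)] at hs
    exact hα3 hs.symm
  obtain ⟨T, hTk⟩ : ∃ T : O, (T : k) = α ^ 3 := ⟨⟨α ^ 3, hTO⟩, rfl⟩
  have e3 := EVF2_three h3
  have hne : (1 : k) - α ^ 6 ≠ 0 := sub_ne_zero.2 (Ne.symm h1)
  have hu : rs O ((1 - T) * (1 + T)) ≠ 0 := by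
    have e : (((1 - T) * (1 + T) : O) : k) = 1 - α ^ 6 := by
      have e1 : (((1 - T) * (1 + T) : O) : k) = (1 - (T : k)) * (1 + (T : k)) := rfl
      rw [e1, hTk]
      ring
    exact EVF2_unit _ (by rw [e]; exact hne) (by rw [e]; exact hT)
  rw [map_mul] at hu
  have u1 : rs O (1 - T) ≠ 0 := left_ne_zero_of_mul hu
  have u2 : rs O (1 + T) ≠ 0 := right_ne_zero_of_mul hu
  have hmO := EVF2_int e3 hm3
  have hpm : (-1 : O) ^ m = -1 := hodd.neg_one_pow
  have hpm1 : (-1 : O) ^ (m - 1) = 1 := by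
    obtain ⟨l, hl⟩ := hodd
    have : m - 1 = 2 * l := by omega
    rw [this, pow_mul]
    simp
  have hA1 : ∀ z : O, (C T - X ^ m : O[X]).eval z = T - z ^ m := fun z => by simp
  have hB1 : ∀ z : O, (1 - C T * X ^ m : O[X]).eval z = 1 - T * z ^ m := fun z => by simp
  have hW1 : ∀ z : O, (derivative (C T - X ^ m : O[X]) * (1 - C T * X ^ m) -
      (C T - X ^ m) * derivative (1 - C T * X ^ m)).eval z = -((m : O) * z ^ (m - 1) * ((1 - T) * (1 + T))) := by
    intro z
    simp only [derivative_sub, derivative_C, derivative_X_pow, derivative_one, derivative_mul, eval_sub, eval_mul,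
      eval_C, eval_pow, eval_X, eval_one, zero_mul, zero_add, zero_sub, map_natCast, eval_neg,
      eval_natCast]
    ring
  refine ev_core hω h0 h1 h (κ := s) (δ := 0) (ε := 1) (y := v * (algebraMap k N s)⁻¹) hs0 ?_ (O := O) e3
    (A := C T - X ^ m) (B := 1 - C T * X ^ m) one_ne_zero ?_ ?_ (ι := Fin 2) ?_ ![1, -1] ![-1, 1] ?_ ?_ ?_ ?_ ?_ ?_
    hM hG ?_ hfin ?_
  · have hsN : algebraMap k N s ≠ 0 := (_root_.map_ne_zero _).2 hs0
    rw [map_zero, add_zero]
    field_simp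
  · have e : algebraMap O k T = α ^ 3 := hTk
    simp only [Polynomial.map_sub, Polynomial.map_mul, Polynomial.map_pow, map_C, map_X, Polynomial.map_one,
      map_zero, add_zero, mul_pow, ← C_pow, hs, e, C_1, one_mul]
  · have e : algebraMap O k T = α ^ 3 := hTk
    simp only [Polynomial.map_sub, Polynomial.map_pow, map_C, map_X,
      map_zero, add_zero, mul_pow, ← C_pow, hs, e, C_1, one_mul]
    rw [← mul_assoc, ← C_mul, inv_mul_cancel₀ hα3, C_1, one_mul]
  · rw [Fintype.card_fin]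
    omega
  · have hd : rs O 1 ≠ rs O (-1) := by
      intro hh
      have e2 : rs O 1 = 0 := by
        have e4 : (1 : O) = 3 - (1 - (-1)) := by ring
        rw [e4, map_sub, e3, map_sub, ← hh, sub_self, sub_zero]
      rw [map_one] at e2
      exact one_ne_zero e2
    intro i i' hii
    fin_cases i <;> fin_cases i'
    · rfl
    · exact absurd hii hd
    · exact absurd hii.symm hd
    · rfl
  · intro i
    rw [hA1]
    fin_cases i
    · change rs O (T - 1 ^ m) ≠ 0
      rw [one_pow, ← neg_sub, map_neg]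
      exact neg_ne_zero.2 u1
    · change rs O (T - (-1) ^ m) ≠ 0
      rw [hpm, sub_neg_eq_add, add_comm]
      exact u2
  · intro i
    rw [hB1]
    fin_cases i
    · change rs O (1 - T * 1 ^ m) ≠ 0
      rw [one_pow, mul_one]
      exact u1
    · change rs O (1 - T * (-1) ^ m) ≠ 0
      rw [hpm, mul_neg, mul_one, sub_neg_eq_add]
      exact u2
  · intro i
    rw [hW1]
    have hz : (![1, -1] : Fin 2 → O) i ^ (m - 1) = 1 := by
      fin_cases i
      · change (1 : O) ^ (m - 1) = 1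
        exact one_pow _
      · exact hpm1
    rw [hz, mul_one, map_neg, map_mul, map_mul]
    exact neg_ne_zero.2 (mul_ne_zero hmO (mul_ne_zero u1 u2))
  · intro i
    rw [hA1, hB1]
    fin_cases i
    · change (-1 : O) ^ 3 * (1 - T * 1 ^ m) = T - 1 ^ m
      rw [one_pow]
      ring
    · change (1 : O) ^ 3 * (1 - T * (-1) ^ m) = T - (-1) ^ m
      rw [hpm]
      ring
  · intro i
    fin_cases i
    · change s * ((1 : O) : k) + 0 ≠ 0
      have e : ((1 : O) : k) = 1 := rfl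
      rw [e, mul_one, add_zero]
      exact hs0
    · change s * ((-1 : O) : k) + 0 ≠ 0
      have e : ((-1 : O) : k) = -1 := rfl
      rw [e, mul_neg, mul_one, add_zero]
      exact neg_ne_zero.2 hs0
  · intro w hw
    rw [Fintype.card_fin]
    exact hinf w hw
  · intro i w hx hv
    fin_cases i
    · have e : s * ((1 : O) : k) + 0 = s := by
        have e : ((1 : O) : k) = 1 := rfl
        rw [e, mul_one, add_zero]
      refine hp1 w hx ?_
      rw [← e]
      exact hv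
    · have e : s * ((-1 : O) : k) + 0 = -s := by
        have e : ((-1 : O) : k) = -1 := rfl
        rw [e, mul_neg, mul_one, add_zero]
      refine hp2 w hx ?_
      rw [← e]
      exact hv

private theorem EVF2_on {ω : k} (hω : IsPrimitiveRoot ω 3) (m : ℕ) (α x v : k)
    (h : v ^ m * (x ^ 3 - (α ^ 3)⁻¹) = x ^ 3 - α ^ 3) : OnC (cov m ω α) (some x) (some v) := by
  have ha := cov_a hω m α k x
  have hb := cov_b hω m α k x
  change v ^ m * ∏ i, (x - (cov m ω α).b i) = ∏ i, (x - (cov m ω α).a i)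
  have ha' : ∏ i, (x - (cov m ω α).a i) = x ^ 3 - α ^ 3 := ha
  have hb' : ∏ i, (x - (cov m ω α).b i) = x ^ 3 - (α ^ 3)⁻¹ := hb
  rw [ha', hb', h]

/-- a place where `v` has a zero -/
private theorem EVF2_zero [IsAlgClosed k] [CharZero k] {c : Dat k} (hc : c.Good) {N : Type} [Field N] [Algebra k N]
    {x v : N} (h : GenC c x v) (w : Place k N) (hw : 0 < w.ord v) :
    w.ord v = 1 ∧ ∃ x₀ : k, Red w x (algebraMap k (RF w) x₀) ∧ Red w v (algebraMap k (RF w) 0) := by
  have hn0 : (c.n : k) ≠ 0 := by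
    have := hc.two
    exact_mod_cast (by omega : c.n ≠ 0)
  have : NeZero (c.n : k) := ⟨hn0⟩
  obtain ⟨ζ, hζ⟩ := HasEnoughRootsOfUnity.exists_primitiveRoot k c.n
  obtain ⟨Q, hQ, hQx, hQv⟩ := place_pt hc h w
  have hred : Red w v (algebraMap k (RF w) 0) := by
    rw [map_zero, Pool.Agent.LibCHd.red_zero_iff]
    exact Or.inr hw
  have h1 : Q 1 = some 0 := by
    have h2 : SpO w (some v) (some (algebraMap k (RF w) 0)) := hred
    have h3 := spO_unique hQv h2
    rcases h4 : Q 1 with _ | q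
    · rw [h4] at h3
      exact absurd h3 (by simp)
    · rw [h4] at h3
      have h5 : algebraMap k (RF w) q = algebraMap k (RF w) 0 := Option.some.inj h3
      rw [(algebraMap k (RF w)).injective h5]
  obtain ⟨i, hi⟩ : ∃ i, Q 0 = some (c.a i) := by
    rcases h4 : Q 0 with _ | q
    · rw [h4, h1] at hQ
      have h5 : (0 : k) ^ c.n = 1 := hQ
      rw [zero_pow (by have := hc.two; omega)] at h5
      exact absurd h5 zero_ne_one
    · rw [h4, h1] at hQ
      have h5 : (0 : k) ^ c.n * ∏ i, (q - c.b i) = ∏ i, (q - c.a i) := hQ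
      rw [zero_pow (by have := hc.two; omega), zero_mul] at h5
      obtain ⟨i, _, h6⟩ := Finset.prod_eq_zero_iff.1 h5.symm
      exact ⟨i, by rw [sub_eq_zero.1 h6]⟩
  obtain ⟨w', _, _, _, _, h5, _, h7⟩ := placeC hc hζ h Q hQ
  have h8 := h7 w hQx hQv
  refine ⟨?_, c.a i, ?_, hred⟩
  · rw [h8]
    exact (h5 i hi).2
  · rw [hi] at hQx
    exact hQx

theorem cov_two [IsAlgClosed k] [CharZero k] {ω : k} (hω : IsPrimitiveRoot ω 3) {m : ℕ} (hm : 3 ≤ m) (hodd : Odd m)
    (hm3 : ¬ 3 ∣ m) {α s : k} (h0 : α ≠ 0) (h1 : α ^ 6 ≠ 1) (hs : s ^ m = α ^ 3) {O : ValuationSubring k}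
    (h3 : (3 : k)⁻¹ ∉ O) (hT : (1 - α ^ 6)⁻¹ ∈ O) :
    ¬ IsOfFinAddOrder (cls (cov m ω α) 0 (pt1 ![some (-1), some s]) + cls (cov m ω α) 0 (pt1 ![some 1, some (-s)]) -
      2 • cls (cov m ω α) 0 (pt1 (binf (cov m ω α)))) := by
  have hα3 : α ^ 3 ≠ 0 := pow_ne_zero 3 h0
  have hs0 : s ≠ 0 := by
    rintro rfl
    rw [zero_pow (by omega)] at hs
    exact hα3 hs.symm
  intro ht
  have hc : (cov m ω α).Good := cov_good hω (by omega) h0 h1
  obtain ⟨N, i1, i2, x, v, h⟩ := genC_exists hc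
  have hv0 : v ≠ 0 := (genC_funF hc h).2
  have h12 : ((-1 : k), s) ≠ ((1 : k), -s) := by
    intro hh
    have h2 : (-1 : k) = 1 := congrArg Prod.fst hh
    have h3 : (2 : k) = 0 := by linear_combination -h2
    exact two_ne_zero h3
  have hsm : (-s) ^ m = -(α ^ 3) := by
    rw [hodd.neg_pow, hs]
  obtain ⟨M, G, hM, hG, hall⟩ := ev_fun hc {((-1 : k), s), ((1 : k), -s)} (by
      intro p hp
      rw [Finset.mem_insert, Finset.mem_singleton] at hp
      rcases hp with rfl | rfl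
      · refine ⟨EVF2_on hω m α _ _ ?_, hs0⟩
        rw [hs]
        field_simp
        ring
      · refine ⟨EVF2_on hω m α _ _ ?_, neg_ne_zero.2 hs0⟩
        rw [hsm]
        field_simp
        ring) (by
      rw [Finset.sum_pair h12, Finset.card_pair h12]
      exact ht) h
  rw [Finset.card_pair h12] at hall
  have hfinG : ∀ w : Place k N, 0 ≤ w.ord v → 0 ≤ w.ord G := by
    intro w hw
    obtain ⟨Q, hQ, hQx, hQv⟩ := place_pt hc h w
    rcases h4 : Q 0 with _ | x₀
    · rw [h4] at hQx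
      have h5 : w.ord x < 0 := hQx
      rw [(hall w).2.2 h5]
    · rcases h6 : Q 1 with _ | v₀
      · rw [h6] at hQv
        have h5 : w.ord v < 0 := hQv
        omega
      · rw [h4] at hQx
        rw [h6] at hQv
        rw [(hall w).2.1 x₀ v₀ hQx hQv]
        split_ifs
        · positivity
        · exact le_rfl
  have hpt1 : ∀ w : Place k N, Red w x (algebraMap k (RF w) (-1)) → Red w v (algebraMap k (RF w) s) →
      3 * (M : ℤ) = w.ord G := by
    intro w hx hv
    rw [(hall w).2.1 _ _ hx hv, if_pos (Finset.mem_insert_self _ _)]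
  have hpt2 : ∀ w : Place k N, Red w x (algebraMap k (RF w) 1) → Red w v (algebraMap k (RF w) (-s)) →
      3 * (M : ℤ) = w.ord G := by
    intro w hx hv
    rw [(hall w).2.1 _ _ hx hv, if_pos (Finset.mem_insert_of_mem (Finset.mem_singleton_self _))]
  by_cases hTO : α ^ 3 ∈ O
  · refine EVF2_core hω hm hodd hm3 h0 h1 hs h3 hTO hT h hM hG ?_ hfinG ?_ ?_
    · intro w hw
      rw [(hall w).1 hw]
    · intro w hx hv
      exact (hpt1 w hx hv).le
    · intro w hx hv
      exact (hpt2 w hx hv).le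
  · have hTi : (α ^ 3)⁻¹ ∈ O := (O.mem_or_inv_mem _).resolve_left hTO
    have hTi' : (α⁻¹) ^ 3 ∈ O := by
      rw [inv_pow]
      exact hTi
    obtain ⟨t, ht'⟩ : ∃ t : O, (t : k) = (α ^ 3)⁻¹ := ⟨⟨_, hTi⟩, rfl⟩
    have hrt : rs O t = 0 := by
      by_contra h2
      have h4 := EVF2_inv t h2
      rw [ht', inv_inv] at h4
      exact hTO h4
    have hT' : (1 - (α⁻¹) ^ 6)⁻¹ ∈ O := by
      have e : ((1 - t ^ 2 : O) : k) = 1 - (α⁻¹) ^ 6 := by
        have e1 : ((1 - t ^ 2 : O) : k) = 1 - (t : k) ^ 2 := rfl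
        rw [e1, ht', inv_pow, inv_pow, ← pow_mul]
      rw [← e]
      refine EVF2_inv _ ?_
      rw [map_sub, map_pow, hrt, map_one]
      simp
    have h0' : α⁻¹ ≠ 0 := inv_ne_zero h0
    have h1' : (α⁻¹) ^ 6 ≠ 1 := by
      rw [inv_pow]
      exact fun hh => h1 (inv_eq_one.1 hh)
    have hvi : v⁻¹ ≠ 0 := inv_ne_zero hv0
    have hG' : G * (v ^ (2 * M))⁻¹ ≠ 0 := mul_ne_zero hG (inv_ne_zero (pow_ne_zero _ hv0))
    have hord : ∀ w : Place k N, w.ord (G * (v ^ (2 * M))⁻¹) = w.ord G - (2 * M : ℕ) * w.ord v := by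
      intro w
      rw [w.ord_mul _ _ hG (inv_ne_zero (pow_ne_zero _ hv0)), Place.ord_inv, Place.ord_pow]
      ring
    have hredinv : ∀ (w : Place k N) (r : k), r ≠ 0 → Red w v⁻¹ (algebraMap k (RF w) r⁻¹) →
        Red w v (algebraMap k (RF w) r) ∧ w.ord v = 0 := by
      intro w r hr hh
      have hne : algebraMap k (RF w) r⁻¹ ≠ 0 := (_root_.map_ne_zero _).2 (inv_ne_zero hr)
      have h5 := hh.inv hne
      have h6 : (algebraMap k (RF w) r⁻¹)⁻¹ = algebraMap k (RF w) r := by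
        rw [map_inv₀, inv_inv]
      rw [inv_inv, h6] at h5
      exact ⟨h5, h5.ord_eq_zero ((_root_.map_ne_zero _).2 hr)⟩
    refine EVF2_core hω hm hodd hm3 h0' h1' (s := s⁻¹) (by rw [inv_pow, hs, inv_pow]) h3 hTi' hT'
      (cov_swap hω (by omega) h0 h1 h) hM hG' ?_ ?_ ?_ ?_
    · intro w hw
      rw [Place.ord_inv] at hw
      obtain ⟨h5, x₀, h6, h7⟩ := EVF2_zero hc h w (by omega)
      have h8 : w.ord G = 0 := by
        rw [(hall w).2.1 x₀ 0 h6 h7, if_neg]
        intro hh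
        rw [Finset.mem_insert, Finset.mem_singleton, Prod.mk.injEq, Prod.mk.injEq] at hh
        rcases hh with hh | hh
        · exact hs0 hh.2.symm
        · exact hs0 (neg_eq_zero.1 hh.2.symm)
      rw [hord, h8, h5]
      omega
    · intro w hw
      rw [Place.ord_inv] at hw
      rw [hord]
      rcases eq_or_lt_of_le (show w.ord v ≤ 0 by omega) with h5 | h5
      · have := hfinG w h5.ge
        rw [h5]
        omega
      · rw [(hall w).1 h5]
        have h6 : w.ord v ≤ -1 := by omega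
        push_cast
        nlinarith
    · intro w hx hv
      obtain ⟨h5, h6⟩ := hredinv w s hs0 hv
      rw [hord, h6, ← hpt1 w hx h5]
      omega
    · intro w hx hv
      obtain ⟨h5, h6⟩ := hredinv w (-s) (neg_ne_zero.2 hs0) (by rw [inv_neg]; exact hv)
      rw [hord, h6, ← hpt2 w hx h5]
      omega

end Pool.Agent.LibCW77
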