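import Pool.Agent.LibEV91.Defs

/-!
[EV91 B0] SHORT: basic facts on the curves `cov n ω α`

`cov_a`, `cov_b`: `(x - α)(x - ω α)(x - ω ^ 2 α) = x ^ 3 - α ^ 3` because `1 + ω + ω ^ 2 = 0`, `ω ^ 3 = 1` (`Fin.prod_univ_three`, `linear_combination`; from
`hω : IsPrimitiveRoot ω 3`: `ω ^ 3 = 1`, `ω ≠ 1`, `(ω - 1) (1 + ω + ω ^ 2) = 0`). `cov_good`: equal entries give `ω ^ i α = ω ^ j α` (so `i = j`, cube roots of unity are
different) or `ω ^ i α = ω ^ j α⁻¹`, so `α ^ 2 = ω ^ (j - i)` and `α ^ 6 = 1`. `Fin.forall_fin_succ`, `Sum.forall`, or compare cubes: `a_i ^ 3 = α ^ 3`, `b_i ^ 3 = α ^ (-3)`.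
`cov_swap`, `cov_neg`: `OnC` and the field generated by the coordinates (`h.tr`, `h.gen`; `v ≠ 0` by `genC_funF` in LibCW77/C1). `adjoin k {x, v⁻¹} = adjoin k {x, v}`:
`le_antisymm`, `IntermediateField.adjoin_le_iff`, `inv_mem`.
-/

open scoped Classical
open Polynomial

namespace Pool.Agent.LibCW77

open Pool.Agent.LibBH2
open Pool.Agent.LibCHd (VR RF Red FunF)

variable {k : Type} [Field k]

private theorem EVB0_sum {ω : k} (hω : IsPrimitiveRoot ω 3) : 1 + ω + ω ^ 2 = 0 := by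
  have h1 : ω ^ 3 = 1 := hω.pow_eq_one
  have h2 : ω - 1 ≠ 0 := sub_ne_zero.2 (hω.ne_one (by norm_num))
  have h3 : (ω - 1) * (1 + ω + ω ^ 2) = 0 := by linear_combination h1
  exact (mul_eq_zero.1 h3).resolve_left h2

private theorem EVB0_prod {M : Type} [Field M] {w : M} (h1 : w ^ 3 = 1) (h2 : 1 + w + w ^ 2 = 0) (x y : M) :
    (x - y) * (x - w * y) * (x - w ^ 2 * y) = x ^ 3 - y ^ 3 := by
  linear_combination (x * y ^ 2 * w - x ^ 2 * y) * h2 - y ^ 3 * h1

private theorem EVB0_w {ω : k} (hω : IsPrimitiveRoot ω 3) (M : Type) [Field M] [Algebra k M] :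
    (algebraMap k M ω) ^ 3 = 1 ∧ 1 + algebraMap k M ω + (algebraMap k M ω) ^ 2 = 0 := by
  constructor
  · rw [← map_pow, hω.pow_eq_one, map_one]
  · have := congrArg (algebraMap k M) (EVB0_sum hω)
    simpa using this

theorem cov_a {ω : k} (hω : IsPrimitiveRoot ω 3) (n : ℕ) (α : k) (M : Type) [Field M] [Algebra k M] (x : M) :
    ∏ i, (x - ((cov n ω α).over M).a i) = x ^ 3 - algebraMap k M (α ^ 3) := by
  obtain ⟨h1, h2⟩ := EVB0_w hω M
  rw [Fin.prod_univ_three]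
  have := EVB0_prod h1 h2 x (algebraMap k M α)
  simp only [Dat.map, cov, Matrix.cons_val_zero, Matrix.cons_val_one, Matrix.cons_val, map_mul, map_pow]
  exact this

theorem cov_b {ω : k} (hω : IsPrimitiveRoot ω 3) (n : ℕ) (α : k) (M : Type) [Field M] [Algebra k M] (x : M) :
    ∏ i, (x - ((cov n ω α).over M).b i) = x ^ 3 - algebraMap k M ((α ^ 3)⁻¹) := by
  obtain ⟨h1, h2⟩ := EVB0_w hω M
  have hw : algebraMap k M ω ≠ 0 := fun h => by rw [h] at h1; simp at h1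
  rw [Fin.prod_univ_three]
  have hi : (algebraMap k M ω)⁻¹ = (algebraMap k M ω) ^ 2 := by
    refine inv_eq_of_mul_eq_one_left ?_
    rw [← h1]; ring
  have hi2 : ((algebraMap k M ω) ^ 2)⁻¹ = algebraMap k M ω := by
    rw [← hi, inv_inv]
  have := EVB0_prod h1 h2 x (algebraMap k M α)⁻¹
  simp only [Dat.map, cov, Matrix.cons_val_zero, Matrix.cons_val_one, Matrix.cons_val, map_mul, map_pow, map_inv₀,
    mul_inv, hi, hi2]
  rw [← inv_pow, ← this]
  ring

/-- the equation of the curve in the function field -/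
theorem cov_eq {ω : k} (hω : IsPrimitiveRoot ω 3) {n : ℕ} {α : k} {N : Type} [Field N] [Algebra k N] {x v : N}
    (h : GenC (cov n ω α) x v) :
    v ^ n * (x ^ 3 - algebraMap k N ((α ^ 3)⁻¹)) = x ^ 3 - algebraMap k N (α ^ 3) := by
  rw [← cov_a hω n α N x, ← cov_b hω n α N x]
  exact h.on

theorem cov_good {ω : k} (hω : IsPrimitiveRoot ω 3) {n : ℕ} (hn : 2 ≤ n) {α : k} (h0 : α ≠ 0) (h1 : α ^ 6 ≠ 1) :
    (cov n ω α).Good := by
  have hw3 : ω ^ 3 = 1 := hω.pow_eq_one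
  have hw0 : ω ≠ 0 := fun h => by rw [h] at hw3; simp at hw3
  have ha : ∀ i, (cov n ω α).a i = ω ^ (i : ℕ) * α := by
    intro i
    fin_cases i <;> simp [cov]
  have hb : ∀ i, (cov n ω α).b i = (ω ^ (i : ℕ) * α)⁻¹ := by
    intro i
    fin_cases i <;> simp [cov]
  have hac : ∀ i, ((cov n ω α).a i) ^ 3 = α ^ 3 := by
    intro i
    rw [ha, mul_pow, ← pow_mul, mul_comm (i : ℕ) 3, pow_mul, hw3, one_pow, one_mul]
  have hbc : ∀ i, ((cov n ω α).b i) ^ 3 = (α ^ 3)⁻¹ := by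
    intro i
    rw [hb, inv_pow, mul_pow, ← pow_mul, mul_comm (i : ℕ) 3, pow_mul, hw3, one_pow, one_mul]
  have hne : α ^ 3 ≠ (α ^ 3)⁻¹ := by
    intro h
    apply h1
    have h3 : α ^ 3 ≠ 0 := pow_ne_zero _ h0
    calc α ^ 6 = α ^ 3 * α ^ 3 := by ring
      _ = α ^ 3 * (α ^ 3)⁻¹ := by rw [← h]
      _ = 1 := mul_inv_cancel₀ h3
  have hp : ∀ i j : Fin 3, ω ^ (i : ℕ) * α = ω ^ (j : ℕ) * α → i = j := by
    intro i j h
    exact Fin.ext (hω.pow_inj i.2 j.2 (mul_right_cancel₀ h0 h))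
  refine ⟨hn, ?_⟩
  intro p q hpq
  rcases p with i | i <;> rcases q with j | j
  · simp only [Sum.elim_inl] at hpq
    rw [ha, ha] at hpq
    rw [hp i j hpq]
  · simp only [Sum.elim_inl, Sum.elim_inr] at hpq
    exact absurd ((hac i).symm.trans ((congrArg (· ^ 3) hpq).trans (hbc j))) hne
  · simp only [Sum.elim_inl, Sum.elim_inr] at hpq
    exact absurd ((hac j).symm.trans ((congrArg (· ^ 3) hpq.symm).trans (hbc i))) hne
  · simp only [Sum.elim_inr] at hpq
    rw [hb, hb] at hpq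
    rw [hp i j (inv_injective hpq)]

private theorem EVB0_v {ω : k} (hω : IsPrimitiveRoot ω 3) {n : ℕ} (hn : 2 ≤ n) {α : k}
    {N : Type} [Field N] [Algebra k N] {x v : N} (h : GenC (cov n ω α) x v) : v ≠ 0 := by
  rintro rfl
  have h1 := cov_eq hω h
  rw [zero_pow (by omega), zero_mul] at h1
  apply h.tr
  refine ⟨X ^ 3 - C (α ^ 3), ?_, ?_⟩
  · exact (monic_X_pow_sub_C (α ^ 3) (by norm_num)).ne_zero
  · rw [map_sub, map_pow, aeval_X, aeval_C, ← h1]

/-- `(x, 1 / v)` is a generic point of the curve of `1 / α` -/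
theorem cov_swap {ω : k} (hω : IsPrimitiveRoot ω 3) {n : ℕ} (hn : 2 ≤ n) {α : k} (h0 : α ≠ 0) (h1 : α ^ 6 ≠ 1)
    {N : Type} [Field N] [Algebra k N] {x v : N} (h : GenC (cov n ω α) x v) : GenC (cov n ω α⁻¹) x v⁻¹ := by
  have hv : v ≠ 0 := EVB0_v hω hn h
  have he := cov_eq hω h
  refine ⟨?_, h.tr, ?_⟩
  · change v⁻¹ ^ n * ∏ i, (x - ((cov n ω α⁻¹).over N).b i) = ∏ i, (x - ((cov n ω α⁻¹).over N).a i)
    rw [cov_a hω, cov_b hω, inv_pow, inv_pow, inv_inv, ← he, ← mul_assoc, inv_mul_cancel₀ (pow_ne_zero _ hv),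
      one_mul]
  · rw [eq_top_iff, ← h.gen, IntermediateField.adjoin_le_iff]
    intro y hy
    rcases hy with rfl | hy
    · exact IntermediateField.subset_adjoin _ _ (by simp)
    · rw [Set.mem_singleton_iff] at hy
      rw [hy, ← inv_inv v]
      exact inv_mem (IntermediateField.subset_adjoin _ _ (by simp))

/-- `(- x, v)` is a generic point of the curve of `- α` -/
theorem cov_neg {ω : k} (hω : IsPrimitiveRoot ω 3) {n : ℕ} (hn : 2 ≤ n) {α : k} (h0 : α ≠ 0) (h1 : α ^ 6 ≠ 1)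
    {N : Type} [Field N] [Algebra k N] {x v : N} (h : GenC (cov n ω α) x v) : GenC (cov n ω (-α)) (-x) v := by
  have he := cov_eq hω h
  have h3 : ((-α) ^ 3 : k) = -(α ^ 3) := by ring
  refine ⟨?_, ?_, ?_⟩
  · change v ^ n * ∏ i, (-x - ((cov n ω (-α)).over N).b i) = ∏ i, (-x - ((cov n ω (-α)).over N).a i)
    rw [cov_a hω, cov_b hω, h3, inv_neg, map_neg, map_neg]
    linear_combination -he
  · intro hx
    apply h.tr
    have := hx.neg
    rwa [neg_neg] at this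
  · rw [eq_top_iff, ← h.gen, IntermediateField.adjoin_le_iff]
    intro y hy
    rcases hy with rfl | hy
    · have h4 : -y ∈ IntermediateField.adjoin k {-y, v} := IntermediateField.subset_adjoin _ _ (by simp)
      have h5 := neg_mem h4
      rwa [neg_neg] at h5
    · rw [Set.mem_singleton_iff] at hy
      rw [hy]
      exact IntermediateField.subset_adjoin _ _ (by simp)

end Pool.Agent.LibCW77
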