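import Pool.Agent.LibEV91.G2
import Pool.Agent.LibEV91.B0
import Pool.Agent.LibCW77.FG4

/-!
[EV91 G3] MEDIUM: torsion of the class on the curve of degree 3 implies torsion of `B` for `r = α ^ (-3)` and for `r = α ^ 3`

Model: `fam_tors` (CW77 FG4.lean). `c = cov 3 ω α`, `T = α ^ 3`, `Q = (-1, α)`, `Q' = binf c = (α⁻¹, ∞)`. `GenC c x v` (`genC_exists`), `u = v / α`; `cov_eq`:
`v ^ 3 (x ^ 3 - T⁻¹) = x ^ 3 - T`, i.e. `x ^ 3 + u ^ 3 = T (1 + x ^ 3 u ^ 3)`, and for `z = u⁻¹`: `x ^ 3 + z ^ 3 = T⁻¹ (1 + x ^ 3 z ^ 3)`. `x u ≠ 1`, `x z ≠ 1` (otherwise `x` is algebraic: with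
`u = x⁻¹`: `x ^ 3 + x ^ (-3) = 2 T`; with `u = x`: `2 x ^ 3 = T (1 + x ^ 6)`). First assertion: `R = T`, `z = u`: the value at the place of `Q` is `A = (r ^ 2 - 1, r (r ^ 2 - 1))`, `r = T⁻¹` (`mev_one`), at the
place of `Q'` it is `Z = (0, c)` (`mev_inf`, `x₀ = α⁻¹`). Second: `R = T⁻¹`, `z = u⁻¹`: `mev_one`, `mev_zero` with `x₀ = α⁻¹`, `r = T`. As in `fam_tors` (`fg_sum` with `S = {Q, Q'}`,
`n Q = m`, `n Q' = - m`, `LibCV66.abel`, `er_ell`): `m (A - Z)` has finite order; `3 Z = 0` (`fe_three`), so `A` has finite order (`const_add`, `const_tors`); `A = 2 B` (`fe_2B`), so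
`B` has finite order: `TorsB r`.
-/

open scoped Classical
open Polynomial WeierstrassCurve

namespace Pool.Agent.LibCW77

open Pool.Agent.LibBH2
open Pool.Agent.LibCHd (VR RF Red FunF)
open Pool.Agent.LibCV66 (Geo Vl tot rd)

variable {k : Type} [Field k]

private theorem EVG3_main [IsAlgClosed k] [CharZero k] {c : Dat k} (hc : c.Good) {ζ : k}
    (hζ : IsPrimitiveRoot ζ c.n) {N : Type} [Field N] [Algebra k N] {x v : N} (hx : GenC c x v)
    {Q Q' : Fin 2 → Option k} (hQQ : Q ≠ Q') (hQ : OnC c (Q 0) (Q 1)) (hQ' : OnC c (Q' 0) (Q' 1))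
    (ht : IsOfFinAddOrder (cls c 0 (pt1 Q) - cls c 0 (pt1 Q')))
    {R : k} (hR : R ≠ 0) (hR2 : R ^ 2 ≠ 1) {z : N} [(Er R⁻¹).IsElliptic]
    (hP : ((Er R⁻¹)⁄N).toAffine.Nonsingular (mX R⁻¹ x z) (mY R⁻¹ x z))
    (hA : ∀ p : Geo k N k, SpP p.1 (gpt x v) (pt1 (ctp (RF p.1) Q)) →
      Red p.1 x (algebraMap k (RF p.1) (-1)) ∧ Red p.1 z (algebraMap k (RF p.1) 1))
    (hZ : ∀ p : Geo k N k, SpP p.1 (gpt x v) (pt1 (ctp (RF p.1) Q')) →
      ∃ hA : (Er R⁻¹).Nonsingular 0 (cE R⁻¹),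
        LibCV66.ev p (.some _ _ hP : ((Er R⁻¹)⁄N).toAffine.Point) =
          constPt k (.some _ _ hA : (Er R⁻¹).toAffine.Point)) : TorsB R⁻¹ := by
  obtain ⟨m, hm, hm0⟩ := isOfFinAddOrder_iff_nsmul_eq_zero.1 ht
  have hr0 : R⁻¹ ≠ 0 := inv_ne_zero hR
  have hr1 : R⁻¹ ^ 2 ≠ 1 := by
    rw [inv_pow]
    intro h
    exact hR2 (inv_eq_one.1 h)
  set S : Finset (Fin 2 → Option k) := {Q, Q'} with hS
  let n : (Fin 2 → Option k) → ℤ := fun q => if q = Q then (m : ℤ) else -(m : ℤ)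
  have n0 : n Q = m := if_pos rfl
  have n1 : n Q' = -(m : ℤ) := if_neg (fun h0 => hQQ h0.symm)
  have hsum : ∀ {A : Type} [AddCommGroup A] (g : (Fin 2 → Option k) → A),
      ∑ q ∈ S, n q • g q = (m : ℤ) • g Q + -(m : ℤ) • g Q' := by
    intro A _ g
    rw [hS, Finset.sum_insert, Finset.sum_singleton, n0, n1]
    simpa using hQQ
  have he : (∑ q ∈ S, n q • cyc k (pt1 q)) ∈ RatEq c 1 0 := by
    rw [← QuotientAddGroup.eq_zero_iff, hsum]
    rw [← hm0]
    simp only [cls, ← QuotientAddGroup.mk_sub, ← QuotientAddGroup.mk_nsmul]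
    congr 1
    rw [← natCast_zsmul]
    module
  obtain ⟨f, hf0, hf⟩ := ratEq_fun hc hζ hx _ he
  have hon : ∀ q ∈ S, OnC c (q 0) (q 1) := by
    intro q hq
    simp only [hS, Finset.mem_insert, Finset.mem_singleton] at hq
    rcases hq with rfl | rfl
    · exact hQ
    · exact hQ'
  have hmem0 : Q ∈ S := by simp [hS]
  have hmem1 : Q' ∈ S := by simp [hS]
  have hP' : ∀ q : Fin 2 → Option k, ∃ p : Geo k N k, q ∈ S → SpP p.1 (gpt x v) (pt1 (ctp (RF p.1) q)) := by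
    intro q
    by_cases hq : q ∈ S
    · obtain ⟨p, hp⟩ := exists_geo hc hζ hx q (hon q hq)
      exact ⟨p, fun _ => hp⟩
    · obtain ⟨p, hp⟩ := exists_geo hc hζ hx Q (hon Q hmem0)
      exact ⟨p, fun h0 => absurd h0 hq⟩
  choose P hPS using hP'
  set zz : ((Er R⁻¹)⁄N).toAffine.Point := .some _ _ hP with hzz
  have hab := (LibCV66.abel (Ω := k) (genC_funF hc hx).1 f hf0 zz).2
  have hfg := fg_sum hc hζ hx S hon n f hf P hPS
    (fun p : Geo k N k => ((1 : ℤ), LibCV66.ev p zz))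
  have htot : tot (Set.univ : Set (Geo k N k)) f zz =
      ∑ q ∈ S, n q • ((1 : ℤ), LibCV66.ev (P q) zz) := by
    rw [← hfg]
    unfold tot
    rw [finsum_mem_univ]
  rw [htot, hsum] at hab
  obtain ⟨a1, a2⟩ := hA (P Q) (hPS Q hmem0)
  obtain ⟨hAn, e0⟩ := mev_one hR hR2 hP (P Q) a1 a2
  obtain ⟨hZn, e1⟩ := hZ (P Q') (hPS Q' hmem1)
  have hB := fe_B hr0 hr1
  refine ⟨hB, ?_⟩
  set A : (Er R⁻¹).toAffine.Point := .some _ _ hAn with hAdef
  set Z : (Er R⁻¹).toAffine.Point := .some _ _ hZn with hZdef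
  set B : (Er R⁻¹).toAffine.Point := .some _ _ hB with hBdef
  have hAB : 2 • B = A := by
    obtain ⟨h2, e2B⟩ := fe_2B hr0 hr1 hB
    exact e2B
  have hcE : cE R⁻¹ ≠ 0 := by
    unfold cE
    have h1 : (1 : k) - R⁻¹ ^ 2 ≠ 0 := sub_ne_zero.2 (Ne.symm hr1)
    have h4 : (4 : k) ≠ 0 := by norm_num
    exact mul_ne_zero h4 h1
  have hZ3 : 3 • Z = 0 := fe_three hZn hcE
  let φ : (Er R⁻¹).toAffine.Point →+ ((Er R⁻¹)⁄k).toAffine.Point :=
    AddMonoidHom.mk' (constPt k) (fun P Q => const_add P Q)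
  have hfin : IsOfFinAddOrder ((m : ℤ) • φ A + -(m : ℤ) • φ Z) := by
    have h1 := (AddMonoidHom.snd ℤ ((Er R⁻¹)⁄k).toAffine.Point).isOfFinAddOrder hab
    simp only [map_add, map_zsmul, AddMonoidHom.coe_snd] at h1
    rw [e0, e1] at h1
    exact h1
  have hfin3 : IsOfFinAddOrder (φ B) := by
    obtain ⟨j, hj, hj0⟩ := isOfFinAddOrder_iff_nsmul_eq_zero.1 hfin
    refine isOfFinAddOrder_iff_nsmul_eq_zero.2 ⟨j * (6 * m), by positivity, ?_⟩
    have h3 : 3 • φ Z = 0 := by rw [← map_nsmul, hZ3, map_zero]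
    have h2 : φ A = 2 • φ B := by rw [← hAB, map_nsmul]
    have h1 : (j * (6 * m)) • φ B =
        3 • (j • ((m : ℤ) • φ A + -(m : ℤ) • φ Z)) + (j * m) • (3 • φ Z) := by
      rw [h2, ← natCast_zsmul, ← natCast_zsmul, ← natCast_zsmul, ← natCast_zsmul]
      push_cast
      module
    rw [h1, hj0, h3, nsmul_zero, nsmul_zero, add_zero]
  exact const_tors B hfin3

private theorem EVG3_alg {N : Type} [Field N] [Algebra k N] {x : N} (hx : Transcendental k x) (P : k[X])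
    (hP : P ≠ 0) (h : aeval x P = 0) : False := hx ⟨P, hP, h⟩

theorem one_torsB [IsAlgClosed k] [CharZero k] {ω : k} (hω : IsPrimitiveRoot ω 3) {α : k} (h0 : α ≠ 0)
    (h1 : α ^ 6 ≠ 1)
    (ht : IsOfFinAddOrder (cls (cov 3 ω α) 0 (pt1 ![some (-1), some α]) -
      cls (cov 3 ω α) 0 (pt1 (binf (cov 3 ω α))))) : TorsB (α ^ 3)⁻¹ ∧ TorsB (α ^ 3) := by
  have hc : (cov 3 ω α).Good := cov_good hω (by norm_num) h0 h1
  have hω' : IsPrimitiveRoot ω (cov 3 ω α).n := hω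
  obtain ⟨N, _, _, x, v, hx⟩ := genC_exists hc
  have hv0 : v ≠ 0 := (genC_funF hc hx).2
  have heq := cov_eq hω hx
  set a : N := algebraMap k N α with ha
  have ha0 : a ≠ 0 := (_root_.map_ne_zero _).2 h0
  have hT : algebraMap k N (α ^ 3) = a ^ 3 := by rw [map_pow]
  have hTi : algebraMap k N ((α ^ 3)⁻¹) = (a ^ 3)⁻¹ := by rw [map_inv₀, map_pow]
  rw [hT, hTi] at heq
  have hα3 : α ^ 3 ≠ 0 := pow_ne_zero _ h0
  have hα6 : (α ^ 3) ^ 2 ≠ 1 := by
    rw [← pow_mul]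
    exact h1
  have hα6' : ((α ^ 3)⁻¹) ^ 2 ≠ 1 := by
    rw [inv_pow]
    intro h
    exact hα6 (inv_eq_one.1 h)
  -- the relation
  have e1 : x ^ 3 + (v / a) ^ 3 = a ^ 3 * (1 + x ^ 3 * (v / a) ^ 3) := by
    field_simp at heq ⊢
    linear_combination -heq
  have e2 : x ^ 3 + (a / v) ^ 3 = (a ^ 3)⁻¹ * (1 + x ^ 3 * (a / v) ^ 3) := by
    have hu : (v / a) ≠ 0 := div_ne_zero hv0 ha0
    have h2 : (a / v) = (v / a)⁻¹ := (inv_div _ _).symm
    rw [h2]
    set u := v / a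
    field_simp
    linear_combination -e1
  have hxne : x ≠ 0 := by
    rintro rfl
    exact hx.tr (isAlgebraic_zero)
  have hne1 : x * (v / a) ≠ 1 := by
    intro h2
    refine EVG3_alg hx.tr (X ^ 6 - C (2 * α ^ 3) * X ^ 3 + 1) ?_ ?_
    · intro h3
      have h4 := congrArg (fun P => coeff P 0) h3
      simp at h4
    · have h3 : v / a = x⁻¹ := by
        field_simp
        field_simp at h2
        linear_combination h2
      rw [h3] at e1
      have h4 : x ^ 6 - 2 * a ^ 3 * x ^ 3 + 1 = 0 := by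
        field_simp at e1
        linear_combination e1
      simp only [map_add, map_sub, map_mul, map_pow, aeval_X, aeval_C, map_one]
      rw [map_ofNat]
      exact h4
  have hne2 : x * (a / v) ≠ 1 := by
    intro h2
    refine EVG3_alg hx.tr (C (α ^ 3) * X ^ 6 - C 2 * X ^ 3 + C (α ^ 3)) ?_ ?_
    · intro h3
      have h4 := congrArg (eval 0) h3
      simp [h0] at h4
    · have h3 : v / a = x := by
        field_simp
        field_simp at h2
        linear_combination -h2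
      rw [h3] at e1
      simp only [map_add, map_sub, map_mul, map_pow, aeval_X, aeval_C]
      rw [map_ofNat]
      linear_combination -e1
  have hn1 := mpt (R := α ^ 3) hα3 hα6 (by rw [hT]; exact e1) hne1
  have hn2 := mpt (R := (α ^ 3)⁻¹) (inv_ne_zero hα3) hα6' (by rw [hTi]; exact e2) hne2
  have hE1 : (Er (α ^ 3)⁻¹).IsElliptic := er_ell (inv_ne_zero hα3) hα6'
  have hE2 : (Er ((α ^ 3)⁻¹)⁻¹).IsElliptic := er_ell (inv_ne_zero (inv_ne_zero hα3)) (by rw [inv_inv]; exact hα6)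
  have hQQ : (![some (-1), some α] : Fin 2 → Option k) ≠ binf (cov 3 ω α) := by
    intro h
    have h2 := congrFun h 1
    simp [binf] at h2
  have hω3 : ω ^ 3 = 1 := hω.pow_eq_one
  have hona := cov_a hω 3 α k (-1)
  have honb := cov_b hω 3 α k (-1)
  have hQ : OnC (cov 3 ω α) ((![some (-1), some α] : Fin 2 → Option k) 0)
      ((![some (-1), some α] : Fin 2 → Option k) 1) := by
    show α ^ 3 * ∏ i, ((-1 : k) - (cov 3 ω α).b i) = ∏ i, ((-1 : k) - (cov 3 ω α).a i)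
    have hb : ∏ i, ((-1 : k) - (cov 3 ω α).b i) = (-1) ^ 3 - (α ^ 3)⁻¹ := honb
    have ha : ∏ i, ((-1 : k) - (cov 3 ω α).a i) = (-1) ^ 3 - α ^ 3 := hona
    rw [hb, ha]
    field_simp
    ring
  have hQ' : OnC (cov 3 ω α) (binf (cov 3 ω α) 0) (binf (cov 3 ω α) 1) := ⟨0, rfl⟩
  have hb0 : (cov 3 ω α).b 0 = α⁻¹ := rfl
  have hsp : ∀ (p : Geo k N k) (q : Fin 2 → Option k), SpP p.1 (gpt x v) (pt1 (ctp (RF p.1) q)) →
      SpO p.1 (some x) ((q 0).map (algebraMap k (RF p.1))) ∧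
        SpO p.1 (some v) ((q 1).map (algebraMap k (RF p.1))) := fun p q hp => ⟨hp 0 0, hp 0 1⟩
  have hred : ∀ (p : Geo k N k), Red p.1 a (algebraMap k (RF p.1) α) := fun p =>
    Pool.Agent.LibCHd.red_const p.1 α
  have hαp : ∀ (p : Geo k N k), algebraMap k (RF p.1) α ≠ 0 := fun p => (_root_.map_ne_zero _).2 h0
  have horda : ∀ (p : Geo k N k), p.1.ord a = 0 := fun p => p.1.ord_const α h0
  constructor
  · refine EVG3_main hc hω' hx hQQ hQ hQ' ht hα3 hα6 hn1 ?_ ?_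
    · intro p hp
      obtain ⟨s0, s1⟩ := hsp p _ hp
      have s0' : Red p.1 x (algebraMap k (RF p.1) (-1)) := s0
      have s1' : Red p.1 v (algebraMap k (RF p.1) α) := s1
      refine ⟨s0', ?_⟩
      have h3 := s1'.div (hred p) (hαp p)
      rw [div_self (hαp p)] at h3
      rw [map_one]
      exact h3
    · intro p hp
      obtain ⟨s0, s1⟩ := hsp p _ hp
      have s0' : Red p.1 x (algebraMap k (RF p.1) α⁻¹) := s0
      have s1' : p.1.ord v < 0 := s1
      refine mev_inf hα3 hα6 hn1 p (x₀ := α⁻¹) (by rw [inv_pow]) s0' ?_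
      rw [p.1.ord_div _ _ hv0 ha0, horda]
      omega
  · have h3 : TorsB ((α ^ 3)⁻¹)⁻¹ := by
      refine EVG3_main hc hω' hx hQQ hQ hQ' ht (inv_ne_zero hα3) hα6' hn2 ?_ ?_
      · intro p hp
        obtain ⟨s0, s1⟩ := hsp p _ hp
        have s0' : Red p.1 x (algebraMap k (RF p.1) (-1)) := s0
        have s1' : Red p.1 v (algebraMap k (RF p.1) α) := s1
        refine ⟨s0', ?_⟩
        have h3 := (hred p).div s1' (hαp p)
        rw [div_self (hαp p)] at h3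
        rw [map_one]
        exact h3
      · intro p hp
        obtain ⟨s0, s1⟩ := hsp p _ hp
        have s0' : Red p.1 x (algebraMap k (RF p.1) α⁻¹) := s0
        have s1' : p.1.ord v < 0 := s1
        refine mev_zero (inv_ne_zero hα3) hα6' hn2 p (x₀ := α⁻¹) (by rw [inv_pow]) s0' ?_
        refine Pool.Agent.LibCHd.red_zero_iff.2 (Or.inr ?_)
        rw [p.1.ord_div _ _ ha0 hv0, horda]
        omega
    rwa [inv_inv] at h3

end Pool.Agent.LibCW77
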