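import Pool.Agent.LibEV91.Defs
import Pool.Agent.LibCW77.FE2

/-!
[EV91 G4] MEDIUM: tripling on the curve `Er r` (`y ^ 2 = x ^ 3 + (3 x + c) ^ 2`, `c = cE r`)

`2 P = (x₂, y₂)` by `fe_dbl`; `x₂ - x = - ψ / (4 y ^ 2)`, `ψ = tps r x`, so `x₂ ≠ x`; `3 P = 2 P + P` by `add_of_X_ne` (see `fe_3B` in CW77 TR1.lean for the style), the slope is
`(y₂ - y) / (x₂ - x)` and `x(3 P) = slope ^ 2 - 9 - x₂ - x`. The identity `x(3 P) = tph r x / tps r x ^ 2` (checked by computer) follows with `field_simp`, `y ^ 2 = x ^ 3 + (3 x + c) ^ 2` (`fe_eq`);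
put `D = x ^ 3 + (3 x + c) ^ 2` and eliminate `y` by `y ^ 2 = D` : `y₂ = - (y + (3 x ^ 2 + 18 x + 6 c) / (2 y) * (x₂ - x))`.
-/

open scoped Classical
open Polynomial WeierstrassCurve

namespace Pool.Agent.LibCW77

open Pool.Agent.LibBH2
open Pool.Agent.LibCHd (VR RF Red FunF)

variable {k : Type} [Field k]

/-- the third division polynomial -/
noncomputable def tps (r x : k) : k := 3 * x * (x ^ 3 + 12 * x ^ 2 + 12 * cE r * x + 4 * cE r ^ 2)

/-- the numerator of the `x`-coordinate of `3 P` -/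
noncomputable def tph (r x : k) : k :=
  x * tps r x ^ 2 - 8 * (x ^ 3 + (3 * x + cE r) ^ 2) *
    (x ^ 6 + 18 * x ^ 5 + 30 * cE r * x ^ 4 + 20 * cE r ^ 2 * x ^ 3 - 24 * cE r ^ 3 * x - 8 * cE r ^ 4)

private theorem EVG4_tr {W : WeierstrassCurve.Affine k} {a b a' b' : k} (h : W.Nonsingular a b) (ha : a = a')
    (hb : b = b') : ∃ h' : W.Nonsingular a' b',
      WeierstrassCurve.Affine.Point.some _ _ h = WeierstrassCurve.Affine.Point.some _ _ h' := by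
  subst ha
  subst hb
  exact ⟨h, rfl⟩

private theorem EVG4_alg [CharZero k] {x y ψ L : k} (hy : y ≠ 0) (hψ : ψ ≠ 0)
    (hL : L ^ 2 = 36 * y ^ 2 + 12 * x * y ^ 2 - ψ) :
    (8 * y ^ 3 / ψ - L / (2 * y)) ^ 2 - 9 - (x - ψ / (4 * y ^ 2)) - x =
      (x * ψ ^ 2 - 8 * y ^ 2 * (L * ψ - 8 * y ^ 4)) / ψ ^ 2 := by
  have h2 : (2 : k) ≠ 0 := two_ne_zero
  have e : (8 * y ^ 3 / ψ - L / (2 * y)) ^ 2 = 64 * y ^ 6 / ψ ^ 2 - 8 * y ^ 2 * L / ψ + L ^ 2 / (4 * y ^ 2) := by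
    field_simp
    ring
  rw [e, hL]
  field_simp
  ring

theorem fe_tpl [CharZero k] {r x y : k} (h : (Er r).Nonsingular x y) (hy : y ≠ 0) (hψ : tps r x ≠ 0) :
    ∃ (y' : k) (h' : (Er r).Nonsingular (tph r x / tps r x ^ 2) y'),
      3 • WeierstrassCurve.Affine.Point.some _ _ h = WeierstrassCurve.Affine.Point.some _ _ h' := by
  have h2 : (2 : k) ≠ 0 := two_ne_zero
  obtain ⟨hd, e2⟩ := fe_dbl h hy
  have he := fe_eq h
  obtain ⟨ψ, hψd⟩ : ∃ ψ, ψ = tps r x := ⟨_, rfl⟩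
  obtain ⟨L, hLd⟩ : ∃ L, L = 3 * x ^ 2 + 18 * x + 6 * cE r := ⟨_, rfl⟩
  rw [← hψd] at hψ
  have hx2 : x * (x ^ 3 - 12 * cE r * x - 8 * cE r ^ 2) / (4 * (x ^ 3 + (3 * x + cE r) ^ 2)) =
      x - ψ / (4 * y ^ 2) := by
    rw [← he, hψd]
    unfold tps
    field_simp
    rw [he]
    ring
  have hL : L ^ 2 = 36 * y ^ 2 + 12 * x * y ^ 2 - ψ := by
    rw [he, hLd, hψd]
    unfold tps
    ring
  obtain ⟨h3, e3⟩ := EVG4_tr hd hx2 (b' := -(y + L / (2 * y) * (x - ψ / (4 * y ^ 2) - x))) (by rw [hx2, hLd])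
  have hX : x - ψ / (4 * y ^ 2) ≠ x := by
    intro hh
    have h4 : ψ / (4 * y ^ 2) = 0 := by linear_combination -hh
    rw [div_eq_zero_iff] at h4
    rcases h4 with h4 | h4
    · exact hψ h4
    · exact mul_ne_zero (by norm_num) (pow_ne_zero 2 hy) h4
  have hsl : (Er r).slope (x - ψ / (4 * y ^ 2)) x (-(y + L / (2 * y) * (x - ψ / (4 * y ^ 2) - x))) y =
      8 * y ^ 3 / ψ - L / (2 * y) := by
    rw [WeierstrassCurve.Affine.slope_of_X_ne hX]
    have h5 : x - ψ / (4 * y ^ 2) - x = -(ψ / (4 * y ^ 2)) := by ring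
    rw [h5]
    field_simp
    ring
  have hadd := WeierstrassCurve.Affine.Point.add_of_X_ne (W := Er r) (h₁ := h3) (h₂ := h) hX
  obtain ⟨h4, e4⟩ := EVG4_tr (W := Er r) (WeierstrassCurve.Affine.nonsingular_add h3 h fun hxy => hX hxy.left)
    (a' := tph r x / tps r x ^ 2) (b' := _) (by
      rw [hsl]
      have h6 := EVG4_alg (x := x) hy hψ hL
      have h7 : tph r x = x * ψ ^ 2 - 8 * y ^ 2 * (L * ψ - 8 * y ^ 4) := by
        have h8 : y ^ 4 = (x ^ 3 + (3 * x + cE r) ^ 2) ^ 2 := by rw [← he]; ring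
        rw [h8, he, hLd, hψd]
        unfold tph tps
        ring
      rw [h7, ← hψd, ← h6]
      simp only [WeierstrassCurve.Affine.addX, Er]
      ring) rfl
  refine ⟨_, h4, ?_⟩
  have e5 : 3 • WeierstrassCurve.Affine.Point.some _ _ h = 2 • WeierstrassCurve.Affine.Point.some _ _ h +
      WeierstrassCurve.Affine.Point.some _ _ h := by
    rw [← succ_nsmul]
  rw [e5, e2, e3, hadd, e4]

end Pool.Agent.LibCW77
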