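import Pool.Agent.LibEV91.Defs
import Pool.Agent.LibCW77.FE2
import Pool.Agent.LibCW77.TR1
import Pool.Agent.LibEV91.G4

/-!
[EV91 G5] MEDIUM: `TorsB r` forces `r` into the maximal ideal, at every place over 3

Let `|·| = O.valuation` (write `v`), `v 3 < 1`, `v 2 = 1` (`2 = 3 - 1`). Suppose `r⁻¹ ∈ O`, i.e. `1 ≤ v r`. `r ≠ 0` (otherwise the point in `TorsB` is singular) and `r ^ 2 ≠ 1` (`torsB_r`). `c = cE r = 4 (1 - r ^ 2)`,
`v c ≤ v r ^ 2`. `fe_3B` (TR1): `x(3 B) = 4 (r ^ 2 - 9) / 9`, and `v (r ^ 2 - 9) = v r ^ 2` (`v 9 < 1 ≤ v r ^ 2`), so `v (x(3 B)) = v r ^ 2 / v 9`.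
TRIPLING: let `P = (x, y)` be a point with `v r ^ 2 ≤ v 9 * v x` (so `1 < v x`, `v c ≤ v x`). CLAIM: `3 P = (x', y')` is affine and `v 9 * v x' = v x`. Put
`q = x ^ 3 + 12 x ^ 2 + 12 c x + 4 c ^ 2`, `ψ = 3 x q`, `φ = x ψ ^ 2 - 8 y ^ 2 (x ^ 6 + 18 x ^ 5 + 30 c x ^ 4 + 20 c ^ 2 x ^ 3 - 24 c ^ 3 x - 8 c ^ 4)`, `y ^ 2 = x ^ 3 + 9 x ^ 2 + 6 c x + c ^ 2` (`fe_eq`).
`fe_tpl` (row G4): `x' = x(3 P) = φ / ψ ^ 2` (`φ = tph r x`, `ψ = tps r x`). As a polynomial in `x`, `c` one has `φ = x ^ 9 +`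
(monomials of total degree `≤ 8` with integral coefficients), `y ^ 2 = x ^ 3 +` (degree `≤ 2`), `q = x ^ 3 +` (degree `≤ 2`). Because `v c ≤ v x`, `1 < v x`, such monomials have the value `≤ v x ^ 8`, resp. `≤ v x ^ 2`
(it is convenient to put `w = x⁻¹`, `e = c / x`, both in `O`, `v w < 1`: `φ / x ^ 9 = 1 + w * (...)`, `q / x ^ 3 = 1 + w * (...)`, `y ^ 2 / x ^ 3 = 1 + w * (...)` with `(...)` integral polynomials in `w`, `e`).
So `v φ = v x ^ 9`, `v ψ = v 3 * v x ^ 4`, `v y ^ 2 = v x ^ 3` (`y ≠ 0`), `ψ ≠ 0` (so `x₂ ≠ x`).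
So the multiples `3 ^ (j + 1) B` have `v x` strictly increasing in `j` (the condition `v r ^ 2 ≤ v 9 * v x` persists), all different: `B` has infinite order. (A torsion point has finitely many
multiples: `IsOfFinAddOrder`, `Finite (AddSubgroup.zmultiples B)`, or: `3 ^ i B = 3 ^ j B` for some `i < j`, by `finite_zmultiples` and pigeonhole.) Equivalent with `w = 1 / x` in place of `x`.
-/

open scoped Classical
open Polynomial WeierstrassCurve

namespace Pool.Agent.LibCW77

open Pool.Agent.LibBH2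
open Pool.Agent.LibCHd (VR RF Red FunF)

variable {k : Type} [Field k]

private theorem EVG5_unit {O : ValuationSubring k} {w a : k} (hw : O.valuation w < 1) (ha : O.valuation a ≤ 1) :
    O.valuation (1 + w * a) = 1 := by
  have h1 : O.valuation (w * a) < 1 := by
    rw [map_mul]
    exact lt_of_le_of_lt (mul_le_of_le_one_right' ha) hw
  have h2 := Valuation.map_add_eq_of_lt_right O.valuation (x := w * a) (y := 1) (by rw [map_one]; exact h1)
  rw [add_comm, h2, map_one]

private theorem EVG5_mem {O : ValuationSubring k} {a : k} (ha : a ∈ O) : O.valuation a ≤ 1 :=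
  (ValuationSubring.valuation_le_one_iff O a).2 ha

private theorem EVG5_step [CharZero k] {r x y : k} {O : ValuationSubring k} (h3 : O.valuation (3 : k) < 1)
    (hr : 1 ≤ O.valuation r) (h : (Er r).Nonsingular x y)
    (hx : O.valuation r ^ 2 ≤ O.valuation (9 : k) * O.valuation x) :
    ∃ (x' y' : k) (h' : (Er r).Nonsingular x' y'),
      3 • WeierstrassCurve.Affine.Point.some _ _ h = WeierstrassCurve.Affine.Point.some _ _ h' ∧
        O.valuation (9 : k) * O.valuation x' = O.valuation x := by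
  have h9 : O.valuation (9 : k) = O.valuation (3 : k) * O.valuation (3 : k) := by
    rw [← map_mul]
    norm_num
  have h91 : O.valuation (9 : k) ≤ 1 := by
    rw [h9]
    exact mul_le_one' h3.le h3.le
  have hv3 : O.valuation (3 : k) ≠ 0 := by
    rw [Valuation.ne_zero_iff]
    norm_num
  have hx1 : O.valuation r ^ 2 ≤ O.valuation x := hx.trans (mul_le_of_le_one_left' h91)
  have hr2 : 1 ≤ O.valuation r ^ 2 := one_le_pow_of_one_le' hr 2
  have hx0 : x ≠ 0 := by
    rintro rfl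
    rw [map_zero] at hx1
    exact absurd (hr2.trans hx1) (by simp)
  have hvx : O.valuation x ≠ 0 := (Valuation.ne_zero_iff _).2 hx0
  have hxx : 1 < O.valuation x := by
    refine lt_of_le_of_lt (hr2.trans hx) ?_
    rw [h9]
    calc O.valuation (3 : k) * O.valuation (3 : k) * O.valuation x
        ≤ O.valuation (3 : k) * O.valuation x := by
          rw [mul_assoc]
          exact mul_le_of_le_one_left' h3.le
      _ < 1 * O.valuation x := by
          exact mul_lt_mul_of_pos_right h3 (zero_lt_iff.2 hvx)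
      _ = O.valuation x := one_mul _
  have hc : O.valuation (cE r) ≤ O.valuation x := by
    refine le_trans ?_ hx1
    unfold cE
    rw [map_mul]
    have h4 : O.valuation (4 : k) ≤ 1 := EVG5_mem (by exact_mod_cast (natCast_mem O 4))
    refine (mul_le_of_le_one_left' h4).trans ?_
    refine (Valuation.map_sub _ _ _).trans ?_
    rw [map_one, map_pow]
    exact max_le hr2 le_rfl
  obtain ⟨w, hw⟩ : ∃ w : k, w = x⁻¹ := ⟨_, rfl⟩
  have hwx : w * x = 1 := by
    rw [hw]
    exact inv_mul_cancel₀ hx0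
  have hvw : O.valuation w < 1 := by
    rw [hw, map_inv₀]
    exact inv_lt_one_of_one_lt₀ hxx
  obtain ⟨e, he⟩ : ∃ e : k, e = cE r * w := ⟨_, rfl⟩
  have hcE : cE r = e * x := by
    rw [he]
    linear_combination (-cE r) * hwx
  have hve : O.valuation e ≤ 1 := by
    rw [he, hw, map_mul, map_inv₀]
    exact mul_inv_le_one_of_le₀ hc bot_le
  have hwO : w ∈ O := (ValuationSubring.valuation_le_one_iff O w).1 hvw.le
  have heO : e ∈ O := (ValuationSubring.valuation_le_one_iff O e).1 hve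
  have hn : ∀ n : ℕ, (n : k) ∈ O := fun n => natCast_mem O n
  have hn3 : (3 : k) ∈ O := by exact_mod_cast hn 3
  have hn4 : (4 : k) ∈ O := by exact_mod_cast hn 4
  have hn8 : (8 : k) ∈ O := by exact_mod_cast hn 8
  have hn9 : (9 : k) ∈ O := by exact_mod_cast hn 9
  have hn12 : (12 : k) ∈ O := by exact_mod_cast hn 12
  have hn18 : (18 : k) ∈ O := by exact_mod_cast hn 18
  have hn20 : (20 : k) ∈ O := by exact_mod_cast hn 20
  have hn24 : (24 : k) ∈ O := by exact_mod_cast hn 24
  have hn30 : (30 : k) ∈ O := by exact_mod_cast hn 30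
  obtain ⟨a, ha⟩ : ∃ a : k, a = 12 + 12 * e + 4 * e ^ 2 := ⟨_, rfl⟩
  obtain ⟨b, hb⟩ : ∃ b : k, b = (3 + e) ^ 2 := ⟨_, rfl⟩
  obtain ⟨g, hg⟩ : ∃ g : k, g = 18 + 30 * e + 20 * e ^ 2 - w * (24 * e ^ 3 + 8 * e ^ 4) := ⟨_, rfl⟩
  have haO : a ∈ O := by
    rw [ha]
    exact add_mem (add_mem hn12 (mul_mem hn12 heO)) (mul_mem hn4 (pow_mem heO 2))
  have hbO : b ∈ O := by
    rw [hb]
    exact pow_mem (add_mem hn3 heO) 2
  have hgO : g ∈ O := by
    rw [hg]
    exact sub_mem (add_mem (add_mem hn18 (mul_mem hn30 heO)) (mul_mem hn20 (pow_mem heO 2)))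
      (mul_mem hwO (add_mem (mul_mem hn24 (pow_mem heO 3)) (mul_mem hn8 (pow_mem heO 4))))
  have hAO : 18 * a + 9 * w * a ^ 2 - 8 * b - 8 * g - 8 * w * b * g ∈ O :=
    sub_mem (sub_mem (sub_mem (add_mem (mul_mem hn18 haO) (mul_mem (mul_mem hn9 hwO) (pow_mem haO 2)))
      (mul_mem hn8 hbO)) (mul_mem hn8 hgO)) (mul_mem (mul_mem (mul_mem hn8 hwO) hbO) hgO)
  have hq : x ^ 3 + 12 * x ^ 2 + 12 * cE r * x + 4 * cE r ^ 2 = x ^ 3 * (1 + w * a) := by
    rw [hcE, ha]
    linear_combination (-(x ^ 2 * (12 + 12 * e + 4 * e ^ 2))) * hwx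
  have hD : x ^ 3 + (3 * x + cE r) ^ 2 = x ^ 3 * (1 + w * b) := by
    rw [hcE, hb]
    linear_combination (-(x ^ 2 * (3 + e) ^ 2)) * hwx
  have hS : x ^ 6 + 18 * x ^ 5 + 30 * cE r * x ^ 4 + 20 * cE r ^ 2 * x ^ 3 - 24 * cE r ^ 3 * x - 8 * cE r ^ 4 =
      x ^ 6 * (1 + w * g) := by
    rw [hcE, hg]
    linear_combination (-(x ^ 5 * (18 + 30 * e + 20 * e ^ 2)) + x ^ 4 * (24 * e ^ 3 + 8 * e ^ 4) * (w * x + 1)) * hwx
  have hψ : tps r x = 3 * x ^ 4 * (1 + w * a) := by
    unfold tps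
    rw [hq]
    ring
  have hφ : tph r x = x ^ 9 * (1 + w * (18 * a + 9 * w * a ^ 2 - 8 * b - 8 * g - 8 * w * b * g)) := by
    unfold tph
    rw [hψ, hS, hD]
    ring
  have hva := EVG5_unit hvw (EVG5_mem haO)
  have hvb := EVG5_unit hvw (EVG5_mem hbO)
  have hvA := EVG5_unit hvw (EVG5_mem hAO)
  have hψv : O.valuation (tps r x) = O.valuation (3 : k) * O.valuation x ^ 4 := by
    rw [hψ, map_mul, hva, mul_one, map_mul, map_pow]
  have hφv : O.valuation (tph r x) = O.valuation x ^ 9 := by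
    rw [hφ, map_mul, hvA, mul_one, map_pow]
  have hψ0 : tps r x ≠ 0 := by
    rw [← Valuation.ne_zero_iff O.valuation, hψv]
    exact mul_ne_zero hv3 (pow_ne_zero 4 hvx)
  have hy : y ≠ 0 := by
    rintro rfl
    have h1 := fe_eq h
    rw [hD] at h1
    have h2 : O.valuation (x ^ 3 * (1 + w * b)) = 0 := by
      rw [← h1]
      simp
    rw [map_mul, hvb, mul_one, map_pow] at h2
    exact pow_ne_zero 3 hvx h2
  obtain ⟨y', h', e'⟩ := fe_tpl h hy hψ0
  refine ⟨_, y', h', e', ?_⟩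
  rw [map_div₀, map_pow, hψv, hφv, h9]
  field_simp

theorem torsB_three [CharZero k] {r : k} (h : TorsB r) {O : ValuationSubring k} (h3 : (3 : k)⁻¹ ∉ O) : r⁻¹ ∉ O := by
  intro hrO
  have h1 := torsB_r h
  obtain ⟨hB, hfin⟩ := h
  have hr0 : r ≠ 0 := by
    rintro rfl
    rw [WeierstrassCurve.Affine.nonsingular_iff'] at hB
    have h2 := hB.2
    simp only [Er] at h2
    norm_num at h2
  have hv3 : O.valuation (3 : k) < 1 := by
    by_contra hcon
    push Not at hcon
    apply h3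
    rw [← ValuationSubring.valuation_le_one_iff, map_inv₀]
    exact inv_le_one_of_one_le₀ hcon
  have hv30 : O.valuation (3 : k) ≠ 0 := by
    rw [Valuation.ne_zero_iff]
    norm_num
  have hvr0 : O.valuation r ≠ 0 := (Valuation.ne_zero_iff _).2 hr0
  have hvr : 1 ≤ O.valuation r := by
    have h4 := (ValuationSubring.valuation_le_one_iff O r⁻¹).2 hrO
    rw [map_inv₀] at h4
    exact (inv_le_one₀ (zero_lt_iff.2 hvr0)).1 h4
  have h9 : O.valuation (9 : k) = O.valuation (3 : k) * O.valuation (3 : k) := by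
    rw [← map_mul]
    norm_num
  have h91 : O.valuation (9 : k) < 1 := by
    rw [h9]
    exact mul_lt_one_of_nonneg_of_lt_one_left bot_le hv3 hv3.le
  have h90 : O.valuation (9 : k) ≠ 0 := by
    rw [Valuation.ne_zero_iff]
    norm_num
  have h41 : O.valuation (4 : k) = 1 := by
    have e4 : (4 : k) = 1 + 3 * 1 := by norm_num
    rw [e4]
    exact EVG5_unit hv3 (by rw [map_one])
  have hr21 : 1 ≤ O.valuation r ^ 2 := one_le_pow_of_one_le' hvr 2
  have key : ∀ j : ℕ, ∃ (x y : k) (h' : (Er r).Nonsingular x y),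
      3 ^ (j + 1) • WeierstrassCurve.Affine.Point.some _ _ hB = WeierstrassCurve.Affine.Point.some _ _ h' ∧
        O.valuation r ^ 2 ≤ O.valuation (9 : k) * O.valuation x := by
    intro j
    induction j with
    | zero =>
      obtain ⟨h', e'⟩ := fe_3B hr0 h1 hB
      refine ⟨_, _, h', by rw [zero_add, pow_one]; exact e', ?_⟩
      rw [map_div₀, map_mul, h41, one_mul]
      have h5 : O.valuation (r ^ 2 - 9) = O.valuation r ^ 2 := by
        rw [← map_pow]
        apply Valuation.map_sub_eq_of_lt_left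
        rw [map_pow]
        exact lt_of_lt_of_le h91 hr21
      rw [h5]
      field_simp
      exact le_rfl
    | succ j ih =>
      obtain ⟨x, y, h', e', hx⟩ := ih
      obtain ⟨x2, y2, h2, e2, hx2⟩ := EVG5_step hv3 hvr h' hx
      refine ⟨x2, y2, h2, ?_, ?_⟩
      · rw [pow_succ, mul_comm, mul_nsmul, ← e2, ← e', ← mul_nsmul, ← mul_nsmul, mul_comm]
      · rw [hx2]
        exact hx.trans (mul_le_of_le_one_left' h91.le)
  choose x y hP eP hx using key
  have hstep : ∀ j, O.valuation (9 : k) * O.valuation (x (j + 1)) = O.valuation (x j) := by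
    intro j
    obtain ⟨x2, y2, h2, e2, hx2⟩ := EVG5_step hv3 hvr (hP j) (hx j)
    have e3 : WeierstrassCurve.Affine.Point.some _ _ (hP (j + 1)) = WeierstrassCurve.Affine.Point.some _ _ h2 := by
      rw [← eP (j + 1), ← e2, ← eP j, ← mul_nsmul]
      congr 1
    have e4 : x (j + 1) = x2 := by
      injection e3
    rw [e4]
    exact hx2
  have hpos : ∀ j, O.valuation (x j) ≠ 0 := by
    intro j h0
    have h5 := hx j
    rw [h0, mul_zero] at h5
    exact absurd (hr21.trans h5) (by simp)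
  have hmono : StrictMono fun j => O.valuation (x j) := by
    apply strictMono_nat_of_lt_succ
    intro j
    rw [← hstep j]
    calc O.valuation (9 : k) * O.valuation (x (j + 1)) < 1 * O.valuation (x (j + 1)) :=
          mul_lt_mul_of_pos_right h91 (zero_lt_iff.2 (hpos (j + 1)))
      _ = O.valuation (x (j + 1)) := one_mul _
  have hinj : Function.Injective fun j : ℕ => 3 ^ (j + 1) • WeierstrassCurve.Affine.Point.some _ _ hB := by
    intro i j hij
    simp only at hij
    rw [eP i, eP j] at hij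
    have e4 : x i = x j := by
      injection hij
    apply hmono.injective
    simp only
    rw [e4]
  have hf := hfin.finite_multiples
  refine Set.infinite_range_of_injective hinj (hf.subset ?_)
  rintro _ ⟨j, rfl⟩
  exact ⟨_, rfl⟩

end Pool.Agent.LibCW77
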