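import Pool.Agent.LibEV91.B0
import Pool.Agent.LibCW77.D3
import Pool.Agent.LibCW77.D4
import Pool.Agent.LibCW77.D6

/-!
[EV91 P2] SHORT/MEDIUM: push-forward of points along `(x, v) ↦ (- x, v)`

Model: `exists_tw` (D4.lean). On points: `ψ P = ![(P 0).map (- ·), P 1]`; `OnC (cov m ω α)` at `P` gives `OnC (cov m ω (-α))` at `ψ P` (`-x - (-a) = - (x - a)`, three factors on both sides; the
entries of `cov m ω (-α)` are the negatives of those of `cov m ω α`). `exists_hom c 0` with `Ψ M u = cls (cov m ω (-α)) 0 (fun j => ψ (u j))`, `desc`, `div_rel`; `ψ` is an involution, so the field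
generated by the coordinates does not change (`cyc k q = 0` iff `cyc k (ψ q) = 0`; see `fld_tw`, `D4_tw_zero` in D4.lean). Specialisation: `Red v y y₀` gives `Red v (-y) (-y₀)`. The value at points
over `k`: `FunF k 0 k`.
-/

open scoped Classical
open Polynomial

namespace Pool.Agent.LibCW77

open Pool.Agent.LibBH2
open Pool.Agent.LibCHd (VR RF Red FunF)

variable {k : Type} [Field k]

private theorem EVP2_fun0 : FunF k 0 k := by
  refine ⟨fun i => i.elim0, algebraicIndependent_empty_type_iff.mpr (algebraMap k k).injective, ?_⟩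
  have : FiniteDimensional k k := inferInstance
  exact FiniteDimensional.right k _ k

private theorem EVP2_over (c : Dat k) : c.over k = c := by
  cases c
  simp [Dat.over, Dat.map]

private def EVP2_neg {m : ℕ} {M : Type} [Field M] (u : Pnt m M) : Pnt m M :=
  fun j => ![(u j 0).map fun z => -z, u j 1]

private theorem EVP2_a (m : ℕ) (ω α : k) (i : Fin 3) : (cov m ω (-α)).a i = -(cov m ω α).a i := by
  fin_cases i
  · rfl
  · change ω * -α = -(ω * α)
    ring
  · change ω ^ 2 * -α = -(ω ^ 2 * α)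
    ring

private theorem EVP2_b (m : ℕ) (ω α : k) (i : Fin 3) : (cov m ω (-α)).b i = -(cov m ω α).b i := by
  have h := EVP2_a m ω α i
  change ((cov m ω (-α)).a i)⁻¹ = -((cov m ω α).a i)⁻¹
  rw [h, inv_neg]

private theorem EVP2_prod {M : Type} [Field M] (x : M) (f g : Fin 3 → M) (hfg : ∀ i, g i = -f i) :
    ∏ i, (-x - g i) = -∏ i, (x - f i) := by
  rw [Fin.prod_univ_three, Fin.prod_univ_three, hfg, hfg, hfg]
  ring

private theorem EVP2_on1 {m : ℕ} {ω α : k} {M : Type} [Field M] [Algebra k M] (x v : Option M)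
    (h : OnC ((cov m ω α).over M) x v) : OnC ((cov m ω (-α)).over M) (x.map fun z => -z) v := by
  have ha : ∀ i, ((cov m ω (-α)).over M).a i = -((cov m ω α).over M).a i := by
    intro i
    change algebraMap k M ((cov m ω (-α)).a i) = -algebraMap k M ((cov m ω α).a i)
    rw [EVP2_a, map_neg]
  have hb : ∀ i, ((cov m ω (-α)).over M).b i = -((cov m ω α).over M).b i := by
    intro i
    change algebraMap k M ((cov m ω (-α)).b i) = -algebraMap k M ((cov m ω α).b i)
    rw [EVP2_b, map_neg]
  rcases x with _ | x <;> rcases v with _ | v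
  · exact h
  · exact h
  · obtain ⟨i, hi⟩ := h
    exact ⟨i, by rw [hb i, hi]⟩
  · change v ^ m * ∏ i, (x - ((cov m ω α).over M).b i) = ∏ i, (x - ((cov m ω α).over M).a i) at h
    change v ^ m * ∏ i, (-x - ((cov m ω (-α)).over M).b i) = ∏ i, (-x - ((cov m ω (-α)).over M).a i)
    rw [EVP2_prod x _ _ ha, EVP2_prod x _ _ hb, mul_neg, h]

private theorem EVP2_on {l m : ℕ} {ω α : k} {M : Type} [Field M] [Algebra k M] {u : Pnt l M}
    (h : On ((cov m ω α).over M) u) : On ((cov m ω (-α)).over M) (EVP2_neg u) :=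
  fun j => EVP2_on1 (u j 0) (u j 1) (h j)

private theorem EVP2_map {l : ℕ} {M M' : Type} [Field M] [Algebra k M] [Field M'] [Algebra k M']
    (σ : M →ₐ[k] M') (u : Pnt l M) : mpP σ (EVP2_neg u) = EVP2_neg (mpP σ u) := by
  funext j i
  fin_cases i
  · change ((u j 0).map fun z => -z).map σ = ((u j 0).map σ).map fun z => -z
    rcases u j 0 with _ | x
    · rfl
    · change some (σ (-x)) = some (-σ x)
      rw [map_neg]
  · rfl

private theorem EVP2_invol {l : ℕ} {M : Type} [Field M] (u : Pnt l M) : EVP2_neg (EVP2_neg u) = u := by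
  funext j i
  fin_cases i
  · change ((u j 0).map fun z => -z).map (fun z => -z) = u j 0
    rcases u j 0 with _ | x
    · rfl
    · change some (- -x) = some x
      rw [neg_neg]
  · rfl

private theorem EVP2_fld_le {l : ℕ} {M : Type} [Field M] [Algebra k M] (u : Pnt l M) :
    fld k (EVP2_neg u) ≤ fld k u := by
  unfold fld
  rw [IntermediateField.adjoin_le_iff]
  rintro _ ⟨⟨j, i⟩, rfl⟩
  have h0 : co u (j, i) ∈ IntermediateField.adjoin k (Set.range (co u)) :=
    IntermediateField.subset_adjoin k _ ⟨(j, i), rfl⟩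
  fin_cases i
  · have h1 : co (EVP2_neg u) (j, 0) = -co u (j, 0) := by
      change ((u j 0).map fun z => -z).getD 0 = -(u j 0).getD 0
      rcases u j 0 with _ | x
      · exact neg_zero.symm
      · rfl
    change co (EVP2_neg u) (j, 0) ∈ IntermediateField.adjoin k (Set.range (co u))
    rw [h1]
    exact neg_mem h0
  · exact h0

private theorem EVP2_fld {l : ℕ} {M : Type} [Field M] [Algebra k M] (u : Pnt l M) :
    fld k (EVP2_neg u) = fld k u := by
  apply le_antisymm (EVP2_fld_le u)
  have h := EVP2_fld_le (k := k) (EVP2_neg u)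
  rwa [EVP2_invol] at h

private theorem EVP2_zero {l : ℕ} {M : Type} [Field M] [Algebra k M] (u : Pnt l M) (h : cyc k u = 0) :
    cyc k (EVP2_neg u) = 0 := by
  rw [cyc_zero_iff] at h ⊢
  rw [EVP2_fld]
  exact h

private theorem EVP2_sp {l : ℕ} {K : Type} [Field K] [Algebra k K] {v : Place k K} {u : Pnt l K}
    {q : Pnt l (RF v)} (h : SpP v u q) : SpP v (EVP2_neg u) (EVP2_neg q) := by
  intro j i
  fin_cases i
  · have h1 := h j 0
    change SpO v ((u j 0).map fun z => -z) ((q j 0).map fun z => -z)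
    revert h1
    generalize u j 0 = Y
    generalize q j 0 = Q
    intro h1
    rcases Y with _ | y
    · have h2 : Q = none := h1
      rw [h2]
      rfl
    · rcases Q with _ | y0
      · have h2 : v.ord y < 0 := h1
        change v.ord (-y) < 0
        rw [v.ord_neg]
        exact h2
      · have h2 : Red v y y0 := h1
        exact h2.neg
  · exact h j 1

theorem push_neg_pt {ω : k} (hω : IsPrimitiveRoot ω 3) {m : ℕ} (hm : 2 ≤ m) {α : k} (h0 : α ≠ 0) (h1 : α ^ 6 ≠ 1) :
    ∃ Φ : CH (cov m ω α) 1 0 →+ CH (cov m ω (-α)) 1 0,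
      ∀ P : Fin 2 → Option k, OnC (cov m ω α) (P 0) (P 1) →
        Φ (cls (cov m ω α) 0 (pt1 P)) = cls (cov m ω (-α)) 0 (pt1 ![(P 0).map fun z => -z, P 1]) := by
  have hc : (cov m ω α).Good := cov_good hω hm h0 h1
  obtain ⟨H, hH⟩ := exists_hom (m := 1) (cov m ω α) 0 (G := CH (cov m ω (-α)) 1 0)
    (fun M _ _ (u : Pnt 1 M) => cls (cov m ω (-α)) 0 (EVP2_neg u))
    (by
      intro M M' _ _ _ _ σ u _ _ _
      change cls (cov m ω (-α)) 0 (EVP2_neg (mpP σ u)) = _
      rw [← EVP2_map, cls_map])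
  have hker : RatEq (cov m ω α) 1 0 ≤ H.ker := by
    apply desc (cov m ω α) 0 H
    intro K _ _ u g S q hK hu hg hq h1 h2
    have h3 : ∑ v ∈ S, v.ord g • H (cyc k (q v)) =
        ∑ v ∈ S, v.ord g • cls (cov m ω (-α)) 0 (EVP2_neg (q v)) := by
      refine Finset.sum_congr rfl ?_
      intro v hv
      rw [hH (RF v) (q v) (h1 v hv) (on_sp hc hu (hq v))]
    rw [h3]
    exact div_rel (cov m ω (-α)) 1 0 hK (EVP2_neg u) (EVP2_on hu) g hg S (fun v => EVP2_neg (q v))
      (fun v => EVP2_sp (hq v)) h1 (fun v hv hvg hF => EVP2_zero _ (h2 v hv hvg hF))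
  refine ⟨QuotientAddGroup.lift (RatEq (cov m ω α) 1 0) H hker, ?_⟩
  intro P hP
  change QuotientAddGroup.lift (RatEq (cov m ω α) 1 0) H hker (QuotientAddGroup.mk (cyc k (pt1 P))) = _
  rw [QuotientAddGroup.lift_mk, hH k (pt1 P) EVP2_fun0 (by rw [EVP2_over]; intro j; exact hP)]
  rfl

end Pool.Agent.LibCW77
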