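import Pool.Agent.LibEV91.Defs

/-!
[EV91 V0] SHORT: valuation rings over 3 (Mathlib only)

`exists_three`: the subring `ℤ → k` (injective), the prime ideal `(3)`; the local ring `ℤ_(3) ⊂ k` is dominated by a valuation ring of `k` (`LocalSubring.exists_le_valuationSubring`, as in CW77
NI1.lean: `exists_val` with `ι = Empty`, `F = ZMod 3`; that file is in the store, CW77_NI1.lean, and may be copied). `three_two`: `(3 : k)⁻¹ ∉ O` says that `3` is in the maximal ideal
(`ValuationSubring.mem_or_inv_mem`, nonunits); if `x⁻¹ ∉ O` then `x ∈ O` is in the maximal ideal; `(1 + T) + (1 - T) = 2`, and `2 = 3 - 1` is a unit. `rs3`: `rs O 3 = 0`.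
`val_tr`: `T` transcendental over `ℚ`: `exists_val` with `ι = Unit`, `u = T`, `F = AlgebraicClosure (ZMod 3)` and `w` with `w ^ 2 ≠ 1` (for example `w = 0`): then `1 - T ^ 2` is a unit of `O`.
`val_rat`: `T = q` rational with `padicValRat 3 q ≠ 0`: `O` any valuation ring with `(3 : k)⁻¹ ∉ O`; integers prime to `3` are units of `O`; `q = a / b` in lowest terms; if `3 ∣ a` then `q` is in
the maximal ideal and `1 - q ^ 2` is a unit; if `3 ∣ b` then `q⁻¹` is in the maximal ideal, `(1 - q ^ 2)⁻¹ = q⁻² / (q⁻² - 1) ∈ O`.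
-/

open scoped Classical
open Polynomial

namespace Pool.Agent.LibCW77

open Pool.Agent.LibBH2
open Pool.Agent.LibCHd (VR RF Red FunF)

variable {k : Type} [Field k]

private theorem EVV0_exists_val {ι : Type} [Finite ι] (u : ι → k) [CharZero k] (hu : AlgebraicIndependent ℚ u) {F : Type} [Field F]
    [CharP F 3] (w : ι → F) :
    ∃ O : ValuationSubring k, (3 : k)⁻¹ ∉ O ∧ ∀ P : MvPolynomial ι ℤ, ∃ z : O, (z : k) = MvPolynomial.aeval u P ∧
      (rs O z = 0 ↔ MvPolynomial.aeval w P = 0) := by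
  classical
  have huZ : AlgebraicIndependent ℤ u :=
    AlgebraicIndependent.restrictScalars (R := ℤ) (K := ℚ) (RingHom.injective_int (algebraMap ℤ ℚ)) hu
  let φ : MvPolynomial ι ℤ →+* k := (MvPolynomial.aeval u : MvPolynomial ι ℤ →ₐ[ℤ] k).toRingHom
  have hφinj : Function.Injective φ := huZ
  have hφ : ∀ P : MvPolynomial ι ℤ, φ P = MvPolynomial.aeval u P := fun P => rfl
  let e : MvPolynomial ι ℤ ≃+* φ.range :=
    RingEquiv.ofBijective φ.rangeRestrict
      ⟨fun a b hab => hφinj (congrArg Subtype.val hab), φ.rangeRestrict_surjective⟩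
  have he : ∀ P : MvPolynomial ι ℤ, ((e P : φ.range) : k) = φ P := fun P => rfl
  let ψ : φ.range →+* F :=
    ((MvPolynomial.aeval w : MvPolynomial ι ℤ →ₐ[ℤ] F).toRingHom).comp (e.symm : φ.range ≃+* MvPolynomial ι ℤ).toRingHom
  have hψ : ∀ P : MvPolynomial ι ℤ, ψ (e P) = MvPolynomial.aeval w P := by
    intro P
    change MvPolynomial.aeval w (e.symm (e P)) = MvPolynomial.aeval w P
    rw [RingEquiv.symm_apply_apply]
  have hprime : (RingHom.ker ψ).IsPrime := RingHom.ker_isPrime ψ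
  let L : LocalSubring k := LocalSubring.ofPrime φ.range (RingHom.ker ψ)
  obtain ⟨O, hO⟩ := L.exists_le_valuationSubring
  obtain ⟨hle, hloc⟩ := LocalSubring.le_def.mp hO
  have hAL : φ.range ≤ L.toSubring := LocalSubring.le_ofPrime φ.range (RingHom.ker ψ)
  have key : ∀ P : MvPolynomial ι ℤ, ∃ z : O, (z : k) = MvPolynomial.aeval u P ∧
      (rs O z = 0 ↔ MvPolynomial.aeval w P = 0) := by
    intro P
    let y : L.toSubring := Subring.inclusion hAL (e P)
    let z : O := ⟨(y : k), hle y.2⟩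
    have hyz : ((Subring.inclusion hle y : O.toLocalSubring.toSubring) : k) = (z : k) := rfl
    have h1 : IsUnit y ↔ e P ∈ (RingHom.ker ψ).primeCompl := by
      have := IsLocalization.AtPrime.isUnit_to_map_iff (LocalSubring.ofPrime φ.range (RingHom.ker ψ)).toSubring
        (RingHom.ker ψ) (e P)
      exact this
    have h2 : IsUnit (Subring.inclusion hle y) ↔ IsUnit y :=
      ⟨fun h => hloc.map_nonunit y h, fun h => h.map _⟩
    have h3 : IsUnit z ↔ IsUnit (Subring.inclusion hle y) := Iff.rfl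
    refine ⟨z, rfl, ?_⟩
    have h4 : rs O z = 0 ↔ ¬ IsUnit z := by
      rw [IsLocalRing.residue_eq_zero_iff, IsLocalRing.mem_maximalIdeal, mem_nonunits_iff]
    rw [h4, h3, h2, h1]
    have h5 : e P ∈ (RingHom.ker ψ).primeCompl ↔ ¬ (ψ (e P) = 0) := by
      rw [Ideal.mem_primeCompl_iff, RingHom.mem_ker]
    rw [h5, not_not, hψ]
  refine ⟨O, ?_, key⟩
  intro h3
  obtain ⟨z, hz, hz2⟩ := key 3
  have hw3 : (MvPolynomial.aeval w (3 : MvPolynomial ι ℤ) : F) = 0 := by
    rw [map_ofNat]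
    exact_mod_cast CharP.cast_eq_zero F 3
  have hu3 : (MvPolynomial.aeval u (3 : MvPolynomial ι ℤ) : k) = 3 := by
    rw [map_ofNat]
  have h0 := hz2.mpr hw3
  rw [IsLocalRing.residue_eq_zero_iff, IsLocalRing.mem_maximalIdeal, mem_nonunits_iff] at h0
  apply h0
  have h30 : (3 : k) ≠ 0 := by exact_mod_cast (by norm_num : (3 : ℕ) ≠ 0)
  refine IsUnit.of_mul_eq_one (⟨(3 : k)⁻¹, h3⟩ : O) ?_
  apply Subtype.ext
  change (z : k) * (3 : k)⁻¹ = 1
  rw [hz, hu3]
  exact mul_inv_cancel₀ h30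

private theorem EVV0_unit {O : ValuationSubring k} (z : O) (h : rs O z ≠ 0) : (z : k)⁻¹ ∈ O := by
  rw [Ne, IsLocalRing.residue_eq_zero_iff, IsLocalRing.mem_maximalIdeal, mem_nonunits_iff, not_not] at h
  obtain ⟨y, hy⟩ := h.exists_right_inv
  have h1 : (z : k) * (y : k) = 1 := congrArg Subtype.val hy
  rw [inv_eq_of_mul_eq_one_right h1]
  exact y.2

private theorem EVV0_non {O : ValuationSubring k} (z : O) (h : (z : k)⁻¹ ∉ O) : rs O z = 0 := by
  by_contra h0
  exact h (EVV0_unit z h0)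

theorem exists_three [CharZero k] : ∃ O : ValuationSubring k, (3 : k)⁻¹ ∉ O := by
  have : Fact (Nat.Prime 3) := ⟨Nat.prime_three⟩
  obtain ⟨O, hO, _⟩ := EVV0_exists_val (k := k) (ι := Empty) Empty.elim
    (by
      rw [algebraicIndependent_empty_type_iff]
      exact (algebraMap ℚ k).injective) (F := ZMod 3) Empty.elim
  exact ⟨O, hO⟩

theorem rs3 {O : ValuationSubring k} (h : (3 : k)⁻¹ ∉ O) : rs O 3 = 0 := by
  have h1 : ((3 : O) : k) = 3 := rfl
  exact EVV0_non 3 (by rw [h1]; exact h)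

theorem three_two {O : ValuationSubring k} (h : (3 : k)⁻¹ ∉ O) {T : k} (h1 : (1 + T)⁻¹ ∉ O) (h2 : (1 - T)⁻¹ ∉ O) :
    False := by
  have m1 : 1 + T ∈ O := (O.mem_or_inv_mem _).resolve_right h1
  have m2 : 1 - T ∈ O := (O.mem_or_inv_mem _).resolve_right h2
  have e1 : rs O ⟨1 + T, m1⟩ = 0 := EVV0_non _ h1
  have e2 : rs O ⟨1 - T, m2⟩ = 0 := EVV0_non _ h2
  have e3 := rs3 h
  have e4 : (1 : O) = 3 - (⟨1 + T, m1⟩ + ⟨1 - T, m2⟩) := by
    apply Subtype.ext
    change (1 : k) = 3 - ((1 + T) + (1 - T))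
    ring
  have e5 : rs O 1 = 0 := by
    rw [e4, map_sub, map_add, e1, e2, e3]
    simp
  rw [map_one] at e5
  exact one_ne_zero e5

theorem val_tr [CharZero k] {T : k} (hT : Transcendental ℚ T) :
    ∃ O : ValuationSubring k, (3 : k)⁻¹ ∉ O ∧ (1 - T ^ 2)⁻¹ ∈ O := by
  have : Fact (Nat.Prime 3) := ⟨Nat.prime_three⟩
  obtain ⟨O, hO, hP⟩ := EVV0_exists_val (k := k) (ι := Unit) (fun _ => T)
    (by
      rw [algebraicIndependent_unique_type_iff]
      exact hT) (F := ZMod 3) (fun _ => 0)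
  obtain ⟨z, hz, hz2⟩ := hP (1 - MvPolynomial.X () ^ 2)
  have h1 : (z : k) = 1 - T ^ 2 := by
    rw [hz]
    simp
  refine ⟨O, hO, ?_⟩
  rw [← h1]
  refine EVV0_unit z fun h0 => ?_
  have h2 := hz2.1 h0
  simp at h2

private theorem EVV0_pos [CharZero k] {O : ValuationSubring k} (hO : (3 : k)⁻¹ ∉ O) {q : ℚ}
    (hq : 0 < padicValRat 3 q) : ∃ z : O, (z : k) = (q : k) ∧ rs O z = 0 := by
  have : Fact (Nat.Prime 3) := ⟨Nat.prime_three⟩
  have h3 : (3 : ℤ) ∣ q.num := by
    by_contra h0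
    unfold padicValRat at hq
    rw [padicValInt.eq_zero_of_not_dvd (by exact_mod_cast h0)] at hq
    omega
  have hd : ¬ 3 ∣ q.den := by
    intro h0
    have h1 : 3 ∣ q.num.natAbs := by
      have := Int.natAbs_dvd_natAbs.2 h3
      simpa using this
    have h2 := Nat.dvd_gcd h1 h0
    rw [q.reduced.gcd_eq_one] at h2
    omega
  obtain ⟨n', hn'⟩ := h3
  have hcop : IsCoprime (q.den : ℤ) 3 := by
    rw [Int.isCoprime_iff_gcd_eq_one]
    have : Nat.Coprime q.den 3 := (Nat.prime_three.coprime_iff_not_dvd.2 hd).symm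
    exact this
  obtain ⟨a, b, hab⟩ := hcop
  have e3 := rs3 hO
  have hden : rs O (q.den : O) ≠ 0 := by
    intro h0
    have h1 : ((a : ℤ) : O) * (q.den : O) + ((b : ℤ) : O) * 3 = 1 := by
      have := congrArg (fun z : ℤ => (z : O)) hab
      push_cast at this
      exact this
    have h2 := congrArg (rs O) h1
    rw [map_add, map_mul, map_mul, h0, e3, map_one] at h2
    simp at h2
  have hinv := EVV0_unit _ hden
  have hdk : ((q.den : O) : k) = (q.den : k) := by
    exact map_natCast O.subtype q.den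
  refine ⟨3 * ((n' : ℤ) : O) * ⟨_, hinv⟩, ?_, ?_⟩
  · have h1 : ((3 * ((n' : ℤ) : O) * ⟨_, hinv⟩ : O) : k) = 3 * (((n' : ℤ) : O) : k) * ((q.den : O) : k)⁻¹ := rfl
    have h2 : (((n' : ℤ) : O) : k) = (n' : k) := map_intCast O.subtype n'
    rw [h1, h2, hdk]
    conv_rhs => rw [← Rat.num_div_den q]
    rw [hn']
    push_cast
    rw [div_eq_mul_inv]
  · rw [map_mul, map_mul, e3, zero_mul, zero_mul]

theorem val_rat [CharZero k] {q : ℚ} (hq : padicValRat 3 q ≠ 0) :
    ∃ O : ValuationSubring k, (3 : k)⁻¹ ∉ O ∧ (1 - (q : k) ^ 2)⁻¹ ∈ O := by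
  obtain ⟨O, hO⟩ := exists_three (k := k)
  refine ⟨O, hO, ?_⟩
  rcases lt_or_gt_of_ne hq with h | h
  · have hq0 : q ≠ 0 := by
      rintro rfl
      simp at h
    have h1 : 0 < padicValRat 3 q⁻¹ := by
      rw [padicValRat.inv]
      omega
    obtain ⟨z, hz, hz0⟩ := EVV0_pos hO h1
    have h2 : ((1 - z ^ 2 : O) : k)⁻¹ ∈ O := EVV0_unit _ (by
      rw [map_sub, map_pow, hz0, map_one]
      simp)
    have h3 : ((1 - z ^ 2 : O) : k) = 1 - ((q⁻¹ : ℚ) : k) ^ 2 := by
      rw [← hz]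
      rfl
    have hqk : (q : k) ≠ 0 := by exact_mod_cast hq0
    have h4 : (1 - (q : k) ^ 2)⁻¹ = -((z : k) ^ 2 * ((1 - z ^ 2 : O) : k)⁻¹) := by
      have h5 : (1 - (q : k) ^ 2) = -((q : k) ^ 2) * ((1 - z ^ 2 : O) : k) := by
        rw [h3]
        push_cast
        field_simp
        ring
      rw [h5, mul_inv, hz]
      push_cast
      rw [inv_neg, inv_pow]
      ring
    rw [h4]
    exact O.neg_mem _ (O.mul_mem _ _ (O.toSubring.pow_mem z.2 2) h2)
  · obtain ⟨z, hz, hz0⟩ := EVV0_pos hO h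
    have h2 : ((1 - z ^ 2 : O) : k)⁻¹ ∈ O := EVV0_unit _ (by
      rw [map_sub, map_pow, hz0, map_one]
      simp)
    have h3 : ((1 - z ^ 2 : O) : k) = 1 - (q : k) ^ 2 := by
      rw [← hz]
      rfl
    rw [← h3]
    exact h2

end Pool.Agent.LibCW77
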