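import Pool.Agent.LibEV91.TT
import Pool.Agent.LibEV91.F1
import Pool.Agent.LibEV91.F2
import Pool.Agent.LibEV91.P1
import Pool.Agent.LibEV91.P2
import Pool.Agent.LibEV91.V0
import Pool.Agent.LibEV91.G3
import Pool.Agent.LibEV91.G5

/-!
The assembly.
-/

open scoped Classical
open Polynomial

namespace Pool.Agent.LibCW77

open Pool.Agent.LibBH2
open Pool.Agent.LibCHd (VR RF Red FunF)

variable {k : Type} [Field k]

private theorem Z_prod {ω : k} (hω : IsPrimitiveRoot ω 3) (α : k) :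
    ∏ i, (![α, ω * α, ω ^ 2 * α] : Fin 3 → k) i = α ^ 3 := by
  have h3 := hω.pow_eq_one
  simp only [Fin.prod_univ_three, Matrix.cons_val_zero, Matrix.cons_val_one, Matrix.cons_val]
  linear_combination α ^ 3 * h3

private theorem Z_on {ω : k} (hω : IsPrimitiveRoot ω 3) {n : ℕ} {α e s : k} (h0 : α ≠ 0) (he : e ^ 2 = 1)
    (hs : s ^ n = -e * α ^ 3) : OnC (cov n ω α) (some e) (some s) := by
  have h1 := cov_a hω n α k e
  have h2 := cov_b hω n α k e
  have e1 : (cov n ω α).over k = cov n ω α := rfl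
  rw [e1] at h1 h2
  change s ^ n * ∏ i, (e - (cov n ω α).b i) = ∏ i, (e - (cov n ω α).a i)
  rw [h1, h2, hs]
  simp only [Algebra.algebraMap_self, RingHom.id_apply]
  have h3 : α ^ 3 ≠ 0 := pow_ne_zero 3 h0
  have h4 : e ^ 3 = e := by linear_combination e * he
  rw [h4]
  field_simp
  linear_combination -(α ^ 3) * he

private theorem Z_binf (n : ℕ) (ω α : k) : OnC (cov n ω α) (binf (cov n ω α) 0) (binf (cov n ω α) 1) :=
  ⟨0, rfl⟩

/-- the class after the push-forward -/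
private theorem Z_push [IsAlgClosed k] [CharZero k] {ω : k} (hω : IsPrimitiveRoot ω 3) {n e m : ℕ} (hm : 2 ≤ m)
    (he : n = e * m) (hn : 2 ≤ n) {α : k} (h0 : α ≠ 0) (h1 : α ^ 6 ≠ 1) {s e₁ e₂ : k} (hs1 : s ^ n = -e₁ * α ^ 3)
    (hs2 : (-s) ^ n = -e₂ * α ^ 3) (hq1 : e₁ ^ 2 = 1) (hq2 : e₂ ^ 2 = 1) {N : Type} [Field N] [Algebra k N]
    {x v : N} (h : GenC (cov n ω α) x v) (ht : IsOfFinAddOrder (GS (cov n ω α) ![some x, some v])) :
    IsOfFinAddOrder (cls (cov m ω α) 0 (pt1 ![some e₁, some (s ^ e)]) +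
      cls (cov m ω α) 0 (pt1 ![some e₂, some ((-s) ^ e)]) - 2 • cls (cov m ω α) 0 (pt1 (binf (cov m ω α)))) := by
  have hc : (cov n ω α).Good := cov_good hω hn h0 h1
  have hp := Z_prod hω α
  have hT : IsOfFinAddOrder (cls (cov n ω α) 0 (pt1 ![some e₁, some s]) +
      cls (cov n ω α) 0 (pt1 ![some e₂, some (-s)]) - 2 • cls (cov n ω α) 0 (pt1 (binf (cov n ω α)))) :=
    theta_tors (n := n) (a := ![α, ω * α, ω ^ 2 * α]) hc hq1 hq2 (by rw [hp]; exact hs1)
    (by rw [hp]; exact hs2) h ht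
  obtain ⟨Φ, hΦ⟩ : ∃ Φ : CH (cov n ω α) 1 0 →+ CH (cov m ω α) 1 0, ∀ P : Fin 2 → Option k,
      OnC (cov n ω α) (P 0) (P 1) →
      Φ (cls (cov n ω α) 0 (pt1 P)) = cls (cov m ω α) 0 (pt1 ![P 0, (P 1).map fun z => z ^ e]) :=
    push_pt (cov n ω α) hc he hm
  have h2 := AddMonoidHom.isOfFinAddOrder Φ hT
  have e1 : Φ (cls (cov n ω α) 0 (pt1 ![some e₁, some s])) = cls (cov m ω α) 0 (pt1 ![some e₁, some (s ^ e)]) :=
    hΦ ![some e₁, some s] (Z_on hω h0 hq1 hs1)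
  have e2 : Φ (cls (cov n ω α) 0 (pt1 ![some e₂, some (-s)])) =
      cls (cov m ω α) 0 (pt1 ![some e₂, some ((-s) ^ e)]) :=
    hΦ ![some e₂, some (-s)] (Z_on hω h0 hq2 hs2)
  have e3 : Φ (cls (cov n ω α) 0 (pt1 (binf (cov n ω α)))) = cls (cov m ω α) 0 (pt1 (binf (cov m ω α))) :=
    hΦ (binf (cov n ω α)) (Z_binf n ω α)
  rw [map_sub, map_add, map_nsmul, e1, e2, e3] at h2
  exact h2

/-- `n` even -/
theorem ev_even [IsAlgClosed k] [CharZero k] {ω : k} (hω : IsPrimitiveRoot ω 3) {n : ℕ} (hn : 4 ≤ n) (hev : Even n)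
    {α : k} (h0 : α ≠ 0) (h1 : α ^ 6 ≠ 1) {N : Type} [Field N] [Algebra k N] {x v : N}
    (h : GenC (cov n ω α) x v) : ¬ IsOfFinAddOrder (GS (cov n ω α) ![some x, some v]) := by
  intro ht
  obtain ⟨O, h3⟩ := exists_three (k := k)
  obtain ⟨n', hn'⟩ := hev
  have hn2 : n = 2 * n' := by omega
  have hq : n'.minFac.Prime := Nat.minFac_prime (by omega)
  obtain ⟨f, hf⟩ := Nat.minFac_dvd n'
  generalize hqq : n'.minFac = q at hq hf
  have hf0 : f ≠ 0 := by
    rintro rfl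
    omega
  have he0 : 2 * f ≠ 0 := by omega
  have hne : n = 2 * f * q := by rw [hn2, hf]; ring
  have heven : Even (2 * f) := even_two_mul f
  have hneven : Even n := by rw [hn2]; exact even_two_mul n'
  have key : ∀ {e₁ s : k}, e₁ ^ 2 = 1 → s ^ n = -e₁ * α ^ 3 →
      IsOfFinAddOrder (cls (cov q ω α) 0 (pt1 ![some e₁, some (s ^ (2 * f))]) -
        cls (cov q ω α) 0 (pt1 (binf (cov q ω α)))) := by
    intro e₁ s hq1 hs
    have h2 := Z_push hω hq.two_le hne (by omega) h0 h1 hs (e₂ := e₁) (by rw [hneven.neg_pow]; exact hs) hq1 hq1 h ht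
    rw [heven.neg_pow] at h2
    have h4 : cls (cov q ω α) 0 (pt1 ![some e₁, some (s ^ (2 * f))]) +
        cls (cov q ω α) 0 (pt1 ![some e₁, some (s ^ (2 * f))]) - 2 • cls (cov q ω α) 0 (pt1 (binf (cov q ω α))) =
        2 • (cls (cov q ω α) 0 (pt1 ![some e₁, some (s ^ (2 * f))]) -
          cls (cov q ω α) 0 (pt1 (binf (cov q ω α)))) := by
      rw [nsmul_sub, two_nsmul (cls (cov q ω α) 0 (pt1 ![some e₁, some (s ^ (2 * f))]))]
    rw [h4] at h2
    exact h2.of_nsmul two_ne_zero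
  have hn0 : n ≠ 0 := by omega
  by_cases h33 : q = 3
  · subst h33
    obtain ⟨s, hs⟩ := IsAlgClosed.exists_pow_nat_eq α (Nat.pos_of_ne_zero he0)
    have hs' : s ^ n = -(-1) * α ^ 3 := by
      rw [hne, pow_mul, hs]
      ring
    have h5 := key (e₁ := -1) (by ring) hs'
    rw [hs] at h5
    obtain ⟨t1, t2⟩ := one_torsB hω h0 h1 h5
    have h6 := torsB_three t1 h3
    have h7 := torsB_three t2 h3
    rw [inv_inv] at h6
    rcases O.mem_or_inv_mem (α ^ 3) with h8 | h8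
    · exact h6 h8
    · exact h7 h8
  · have hq3 : ¬ 3 ∣ q := by
      intro hd
      exact h33 ((Nat.prime_dvd_prime_iff_eq Nat.prime_three hq).1 hd).symm
    apply three_two h3 (T := α ^ 3)
    · intro hT
      obtain ⟨s, hs⟩ := IsAlgClosed.exists_pow_nat_eq (α ^ 3) (Nat.pos_of_ne_zero hn0)
      have hs' : s ^ n = -(-1) * α ^ 3 := by
        rw [hs]
        ring
      have h5 := key (e₁ := -1) (by ring) hs'
      refine cov_one hω hq.two_le hq3 h0 h1 ?_ h3 hT h5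
      rw [← pow_mul, ← hne, hs]
    · intro hT
      obtain ⟨s, hs⟩ := IsAlgClosed.exists_pow_nat_eq (-α ^ 3) (Nat.pos_of_ne_zero hn0)
      have hs' : s ^ n = -1 * α ^ 3 := by
        rw [hs]
        ring
      have h5 := key (e₁ := 1) (by ring) hs'
      obtain ⟨Φ, hΦ⟩ := push_neg_pt hω hq.two_le h0 h1
      have h6 := AddMonoidHom.isOfFinAddOrder Φ h5
      have hon : OnC (cov q ω α) (some 1) (some (s ^ (2 * f))) := by
        apply Z_on hω h0 (by ring)
        rw [← pow_mul, ← hne, hs]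
        ring
      have e1 : Φ (cls (cov q ω α) 0 (pt1 ![some 1, some (s ^ (2 * f))])) =
          cls (cov q ω (-α)) 0 (pt1 ![some (-1), some (s ^ (2 * f))]) := hΦ ![some 1, some (s ^ (2 * f))] hon
      have e2 : Φ (cls (cov q ω α) 0 (pt1 (binf (cov q ω α)))) =
          cls (cov q ω (-α)) 0 (pt1 (binf (cov q ω (-α)))) := by
        rw [hΦ (binf (cov q ω α)) (Z_binf q ω α)]
        congr 2
        funext i
        fin_cases i
        · change some (-(α)⁻¹) = some (-α)⁻¹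
          rw [inv_neg]
        · rfl
      rw [map_sub, e1, e2] at h6
      have h16 : (-α) ^ 6 ≠ 1 := by
        rw [Even.neg_pow (by decide)]
        exact h1
      refine cov_one hω hq.two_le hq3 (neg_ne_zero.2 h0) h16 ?_ h3 ?_ h6
      · rw [← pow_mul, ← hne, hs]
        ring
      · have e3 : 1 + (-α) ^ 3 = 1 - α ^ 3 := by ring
        rw [e3]
        exact hT

/-- `n` odd -/
theorem ev_odd [IsAlgClosed k] [CharZero k] {ω : k} (hω : IsPrimitiveRoot ω 3) {n : ℕ} (hodd : Odd n)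
    (hn : ∀ j, n ≠ 3 ^ j) {α : k} (h0 : α ≠ 0) (h1 : α ^ 6 ≠ 1)
    (hO : ∃ O : ValuationSubring k, (3 : k)⁻¹ ∉ O ∧ (1 - α ^ 6)⁻¹ ∈ O) {N : Type} [Field N] [Algebra k N] {x v : N}
    (h : GenC (cov n ω α) x v) : ¬ IsOfFinAddOrder (GS (cov n ω α) ![some x, some v]) := by
  intro ht
  obtain ⟨O, h3, hT⟩ := hO
  have hn0 : n ≠ 0 := by
    rintro rfl
    exact absurd hodd (by decide)
  obtain ⟨q, hq, hqn, hq3⟩ : ∃ q, q.Prime ∧ q ∣ n ∧ q ≠ 3 := by
    by_contra hcon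
    push Not at hcon
    exact hn _ (Nat.eq_prime_pow_of_unique_prime_dvd hn0 fun {d} hd hdn => hcon d hd hdn)
  obtain ⟨f, hf⟩ := hqn
  have hne : n = f * q := by rw [hf]; ring
  have hfo : Odd f := (Nat.odd_mul.1 (hne ▸ hodd)).1
  have hqo : Odd q := (Nat.odd_mul.1 (hne ▸ hodd)).2
  have hq33 : ¬ 3 ∣ q := by
    intro hd
    exact hq3 ((Nat.prime_dvd_prime_iff_eq Nat.prime_three hq).1 hd).symm
  have hq2 : 3 ≤ q := by
    have h2 := hq.two_le
    have h4 : q ≠ 2 := by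
      rintro rfl
      exact absurd hqo (by decide)
    omega
  have hnq : q ≤ n := Nat.le_of_dvd (Nat.pos_of_ne_zero hn0) ⟨f, hf⟩
  obtain ⟨s, hs⟩ := IsAlgClosed.exists_pow_nat_eq (α ^ 3) (Nat.pos_of_ne_zero hn0)
  have hs' : s ^ n = -(-1) * α ^ 3 := by
    rw [hs]
    ring
  have hs2 : (-s) ^ n = -1 * α ^ 3 := by
    rw [hodd.neg_pow, hs]
    ring
  have h2 := Z_push hω hq.two_le hne (by omega) h0 h1 hs' hs2 (by ring) (by ring) h ht
  rw [hfo.neg_pow] at h2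
  refine cov_two hω hq2 hqo hq33 h0 h1 ?_ h3 hT h2
  rw [← pow_mul, ← hne, hs]

end Pool.Agent.LibCW77
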