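import Pool.Agent.LibEV91.B0
import Pool.Agent.LibCW77.C1
import Pool.Agent.LibCW77.V0

/-!
[EV91 E1] MEDIUM: the function field as a space over k(y), `v = κ y + δ`

Model: CW77 NE1.lean (the same for `k(x)` and `v`). `v` is transcendental (otherwise `x` is algebraic over `k`: `x ^ 3 (v ^ m - 1) = α ^ (-3) v ^ m - α ^ 3` (`cov_eq`) and
`v ^ m ≠ 1`, because `v ^ m = 1` gives `α ^ (-3) = α ^ 3`), so `y` is. `k(y) = k(v)` and `[N : k(v)] = 3`: `deg_zero` (V0.lean) for `v`, `a = 0`: the places where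
`0 < w.ord v` are the three places of the points `(a_i, 0)` (`place_pt`, `placeC`: `w.ord v = 1`), so `dg k v = 3` (`dg` = `finrank` over `adjoin k {v}`, Defs5).
Then as NE1 with `x` in place of `v` (`h.gen : adjoin k {x, v} = ⊤`, `Set.pair_comm`).
-/

open scoped Classical
open Polynomial

namespace Pool.Agent.LibCW77

open Pool.Agent.LibBH2
open Pool.Agent.LibCHd (VR RF Red FunF)

variable {k : Type} [Field k]

/-- `(P ^ m α ^ (-3) - α ^ 3) / (P ^ m - 1)` is not a cube, `P = κ X + δ` -/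
private theorem EVE1_cube [CharZero k] {m : ℕ} (hm : 2 ≤ m) {α : k} (h0 : α ≠ 0) (h1 : α ^ 6 ≠ 1) {κ δ : k}
    (hκ : κ ≠ 0) (A B : k[X]) (hAB : IsCoprime A B)
    (h : A ^ 3 * ((C κ * X + C δ) ^ m - 1) =
      B ^ 3 * ((C κ * X + C δ) ^ m * C ((α ^ 3)⁻¹) - C (α ^ 3))) : False := by
  obtain ⟨y0, hy0⟩ : ∃ y0 : k, κ * y0 + δ = 1 := ⟨(1 - δ) / κ, by field_simp; ring⟩
  set P : k[X] := C κ * X + C δ with hP
  have hP0 : P.eval y0 = 1 := by
    rw [hP]
    simp only [eval_add, eval_mul, eval_C, eval_X]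
    exact hy0
  have hα : (α ^ 3)⁻¹ - α ^ 3 ≠ 0 := by
    intro h2
    apply h1
    have h3 : (α ^ 3)⁻¹ = α ^ 3 := sub_eq_zero.1 h2
    have h4 : α ^ 3 ≠ 0 := pow_ne_zero 3 h0
    have h5 : (α ^ 3)⁻¹ * α ^ 3 = 1 := inv_mul_cancel₀ h4
    rw [h3] at h5
    calc α ^ 6 = α ^ 3 * α ^ 3 := by ring
      _ = 1 := h5
  have hB : B.eval y0 = 0 := by
    have h2 := congrArg (fun q : k[X] => q.eval y0) h
    simp only [eval_mul, eval_pow, eval_sub, eval_C, eval_one, hP0, one_pow, sub_self, mul_zero,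
      one_mul] at h2
    rcases mul_eq_zero.1 h2.symm with h3 | h3
    · exact pow_eq_zero_iff (n := 3) (by norm_num) |>.1 h3
    · exact absurd h3 hα
  have hA : A.eval y0 ≠ 0 := by
    intro hA0
    obtain ⟨u, w, huw⟩ := hAB
    have h2 := congrArg (fun q : k[X] => q.eval y0) huw
    simp only [eval_add, eval_mul, hA0, hB, mul_zero, add_zero, eval_one] at h2
    exact zero_ne_one h2
  obtain ⟨B1, hB1⟩ : X - C y0 ∣ B := dvd_iff_isRoot.2 hB
  have hP1 : P - 1 = C κ * (X - C y0) := by
    have h2 : δ - 1 = -(κ * y0) := by linear_combination hy0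
    have h3 : (C (δ - 1) : k[X]) = C (-(κ * y0)) := by rw [h2]
    rw [C_sub, C_neg, C_mul, C_1] at h3
    rw [hP]
    linear_combination h3
  have hgeom : P ^ m - 1 = (∑ i ∈ Finset.range m, P ^ i) * (C κ * (X - C y0)) := by
    rw [← hP1]
    exact (geom_sum_mul P m).symm
  have hG : (∑ i ∈ Finset.range m, P ^ i).eval y0 = m := by
    rw [eval_finsetSum]
    simp only [eval_pow, hP0, one_pow, Finset.sum_const, Finset.card_range, nsmul_eq_mul, mul_one]
  have hX : (X - C y0 : k[X]) ≠ 0 := X_sub_C_ne_zero y0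
  have h2 : A ^ 3 * ((∑ i ∈ Finset.range m, P ^ i) * C κ) =
      (X - C y0) ^ 2 * B1 ^ 3 * (P ^ m * C ((α ^ 3)⁻¹) - C (α ^ 3)) := by
    apply mul_left_cancel₀ hX
    rw [hgeom, hB1] at h
    linear_combination h
  have h3 := congrArg (fun q : k[X] => q.eval y0) h2
  simp only [eval_mul, eval_pow, eval_sub, eval_C, eval_X, sub_self, hG] at h3
  rw [zero_pow (by norm_num), zero_mul, zero_mul] at h3
  have h4 : (m : k) ≠ 0 := Nat.cast_ne_zero.2 (by omega)
  exact (mul_ne_zero (pow_ne_zero 3 hA) (mul_ne_zero h4 hκ)) h3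

theorem ev_rep [IsAlgClosed k] [CharZero k] {ω : k} (hω : IsPrimitiveRoot ω 3) {m : ℕ} (hm : 2 ≤ m) {α : k} (h0 : α ≠ 0)
    (h1 : α ^ 6 ≠ 1) {N : Type} [Field N] [Algebra k N] {x v y : N} (h : GenC (cov m ω α) x v) {κ δ : k} (hκ : κ ≠ 0)
    (hy : v = algebraMap k N κ * y + algebraMap k N δ) :
    ∃ j : RatFunc k →+* N, (∀ p : k[X], j (algebraMap k[X] (RatFunc k) p) = aeval y p) ∧
      (∀ z : N, ∃ r0 r1 r2 : RatFunc k, z = j r0 + j r1 * x + j r2 * x ^ 2) ∧
      ∀ r0 r1 r2 : RatFunc k, j r0 + j r1 * x + j r2 * x ^ 2 = 0 → r0 = 0 ∧ r1 = 0 ∧ r2 = 0 := by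
  have heq := cov_eq hω h
  have hα3 : α ^ 3 ≠ 0 := pow_ne_zero 3 h0
  have heq' : x ^ 3 * (v ^ m - 1) = v ^ m * algebraMap k N ((α ^ 3)⁻¹) - algebraMap k N (α ^ 3) := by
    linear_combination heq
  have hvm : v ^ m ≠ 1 := by
    intro h2
    rw [h2, sub_self, mul_zero, one_mul] at heq'
    have h3 : algebraMap k N ((α ^ 3)⁻¹) = algebraMap k N (α ^ 3) := (sub_eq_zero.1 heq'.symm)
    have h4 := (algebraMap k N).injective h3
    apply h1
    have h5 : (α ^ 3)⁻¹ * α ^ 3 = 1 := inv_mul_cancel₀ hα3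
    rw [h4] at h5
    calc α ^ 6 = α ^ 3 * α ^ 3 := by ring
      _ = 1 := h5
  have hvm' : v ^ m - 1 ≠ 0 := sub_ne_zero.2 hvm
  have hx3 : x ^ 3 = (v ^ m * algebraMap k N ((α ^ 3)⁻¹) - algebraMap k N (α ^ 3)) / (v ^ m - 1) := by
    rw [eq_div_iff hvm']
    exact heq'
  have hvtr : Transcendental k v := by
    intro hv
    apply h.tr
    have h2 : IsAlgebraic k (x ^ 3) := by
      rw [hx3, div_eq_mul_inv]
      refine IsAlgebraic.mul (IsAlgebraic.sub (IsAlgebraic.mul (hv.pow m) (isAlgebraic_algebraMap _))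
        (isAlgebraic_algebraMap _)) (IsAlgebraic.inv (IsAlgebraic.sub (hv.pow m) isAlgebraic_one))
    exact IsAlgebraic.of_pow (by norm_num) h2
  have hytr : Transcendental k y := by
    intro hy0
    apply hvtr
    rw [hy]
    exact IsAlgebraic.add (IsAlgebraic.mul (isAlgebraic_algebraMap _) hy0) (isAlgebraic_algebraMap _)
  set F := IntermediateField.adjoin k {y} with hF
  let e : RatFunc k ≃ₐ[k] F := RatFunc.algEquivOfTranscendental y hytr
  have he : ∀ p : k[X], e (algebraMap k[X] (RatFunc k) p) = aeval (IntermediateField.AdjoinSimple.gen k y) p :=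
    fun p => RatFunc.algEquivOfTranscendental_algebraMap y hytr p
  -- the generator
  let vF : F := algebraMap k F κ * IntermediateField.AdjoinSimple.gen k y + algebraMap k F δ
  have hvF : algebraMap F N vF = v := by
    rw [hy, map_add, map_mul]
    rfl
  have hvF1 : vF ^ m - 1 ≠ 0 := by
    intro h2
    apply hvm'
    rw [← hvF, ← map_pow, ← map_one (algebraMap F N), ← map_sub, h2, map_zero]
  set ρ : F := (vF ^ m * algebraMap k F ((α ^ 3)⁻¹) - algebraMap k F (α ^ 3)) / (vF ^ m - 1) with hρ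
  have hmapρ : algebraMap F N ρ = x ^ 3 := by
    rw [hx3, hρ, map_div₀, map_sub, map_sub, map_mul, map_pow, hvF, map_one]
    rfl
  have hirr : Irreducible (X ^ 3 - C ρ : F[X]) := by
    refine X_pow_sub_C_irreducible_of_prime Nat.prime_three (fun b hb => ?_)
    obtain ⟨r, hr⟩ : ∃ r, e r = b := ⟨e.symm b, e.apply_symm_apply b⟩
    have hePv : e (algebraMap k[X] (RatFunc k) (C κ * X + C δ)) = vF := by
      rw [he]
      simp only [map_add, map_mul, aeval_C, aeval_X]
      rfl
    have h2 : b ^ 3 * (vF ^ m - 1) = vF ^ m * algebraMap k F ((α ^ 3)⁻¹) - algebraMap k F (α ^ 3) := by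
      rw [hb, hρ, div_mul_cancel₀ _ hvF1]
    have h3 : r ^ 3 * ((algebraMap k[X] (RatFunc k) (C κ * X + C δ)) ^ m - 1) =
        (algebraMap k[X] (RatFunc k) (C κ * X + C δ)) ^ m *
          algebraMap k[X] (RatFunc k) (C ((α ^ 3)⁻¹)) - algebraMap k[X] (RatFunc k) (C (α ^ 3)) := by
      apply e.injective
      rw [map_mul, map_sub, map_sub, map_mul, map_pow, map_pow, map_one, hr, hePv, he, he, aeval_C,
        aeval_C]
      exact h2
    have hd : algebraMap k[X] (RatFunc k) r.denom ≠ 0 := by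
      intro h4
      have h5 : r.denom = 0 := by
        apply IsFractionRing.injective k[X] (RatFunc k)
        rw [h4, map_zero]
      exact r.denom_ne_zero h5
    have h4 : r * algebraMap k[X] (RatFunc k) r.denom = algebraMap k[X] (RatFunc k) r.num := by
      have h5 := RatFunc.num_div_denom r
      rw [div_eq_iff hd] at h5
      exact h5.symm
    refine EVE1_cube (δ := δ) hm h0 h1 hκ r.num r.denom r.isCoprime_num_denom ?_
    apply IsFractionRing.injective k[X] (RatFunc k)
    rw [map_mul, map_mul, map_pow, map_pow, map_sub, map_sub, map_mul, map_pow, map_one, ← h4]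
    linear_combination (algebraMap k[X] (RatFunc k) r.denom) ^ 3 * h3
  have hmonic : (X ^ 3 - C ρ : F[X]).Monic := monic_X_pow_sub_C ρ (by norm_num)
  have hroot : aeval x (X ^ 3 - C ρ : F[X]) = 0 := by
    simp only [map_sub, map_pow, aeval_X, aeval_C]
    rw [hmapρ, sub_self]
  have hint : IsIntegral F x := ⟨X ^ 3 - C ρ, hmonic, hroot⟩
  have hmin : X ^ 3 - C ρ = minpoly F x := minpoly.eq_of_irreducible_of_monic hirr hroot hmonic
  have hdeg : (minpoly F x).natDegree = 3 := by
    rw [← hmin, natDegree_X_pow_sub_C]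
  have htop : IntermediateField.adjoin F {x} = ⊤ := by
    apply IntermediateField.restrictScalars_injective k
    rw [IntermediateField.restrictScalars_top]
    refine (IntermediateField.adjoin_simple_adjoin_simple k y x).trans ?_
    rw [eq_top_iff, ← h.gen, IntermediateField.adjoin_le_iff]
    intro z hz
    have hym : y ∈ IntermediateField.adjoin k {y, x} := IntermediateField.subset_adjoin k _ (by simp)
    have hxm : x ∈ IntermediateField.adjoin k {y, x} := IntermediateField.subset_adjoin k _ (by simp)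
    rcases hz with hz | hz
    · rw [hz]
      exact hxm
    · rw [Set.mem_singleton_iff.1 hz, hy]
      exact add_mem (mul_mem (IntermediateField.algebraMap_mem _ κ) hym)
        (IntermediateField.algebraMap_mem _ δ)
  have hmon : (minpoly F x).Monic := minpoly.monic hint
  let j : RatFunc k →+* N := (algebraMap F N).comp (e : RatFunc k →+* F)
  have hj : ∀ r, j r = algebraMap F N (e r) := fun _ => rfl
  refine ⟨j, ?_, ?_, ?_⟩
  · intro p
    rw [hj, he]
    have h2 := Polynomial.aeval_algHom_apply F.val (IntermediateField.AdjoinSimple.gen k y) p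
    exact h2.symm
  · intro z
    have hz : z ∈ (IntermediateField.adjoin F {x}).toSubalgebra := by
      rw [htop]
      trivial
    rw [IntermediateField.adjoin_simple_toSubalgebra_of_isAlgebraic hint.isAlgebraic,
      Algebra.adjoin_singleton_eq_range_aeval] at hz
    obtain ⟨q, hq⟩ := hz
    have hq' : aeval x q = z := hq
    have h1 : aeval x (q %ₘ minpoly F x) = z := by
      rw [← hq']
      exact Polynomial.aeval_modByMonic_eq_self_of_root (minpoly.aeval F x)
    have h2 : (q %ₘ minpoly F x).natDegree < 3 := by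
      rw [← hdeg]
      apply Polynomial.natDegree_modByMonic_lt _ hmon
      intro h5
      rw [h5, natDegree_one] at hdeg
      exact absurd hdeg (by norm_num)
    set q' := q %ₘ minpoly F x with hq'd
    refine ⟨e.symm (q'.coeff 0), e.symm (q'.coeff 1), e.symm (q'.coeff 2), ?_⟩
    rw [hj, hj, hj, e.apply_symm_apply, e.apply_symm_apply, e.apply_symm_apply, ← h1]
    conv_lhs => rw [q'.as_sum_range_C_mul_X_pow' h2]
    rw [Finset.sum_range_succ, Finset.sum_range_succ, Finset.sum_range_one]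
    simp only [map_add, map_mul, map_pow, aeval_X, aeval_C, pow_zero, mul_one, pow_one]
  · intro r0 r1 r2 h0
    rw [hj, hj, hj] at h0
    have h1 : aeval x (C (e r0) + C (e r1) * X + C (e r2) * X ^ 2 : F[X]) = 0 := by
      simpa only [map_add, map_mul, map_pow, aeval_X, aeval_C] using h0
    have h2 := minpoly.dvd F x h1
    have h4 : (C (e r0) + C (e r1) * X + C (e r2) * X ^ 2 : F[X]) = 0 := by
      by_contra hne
      have h5 := natDegree_le_of_dvd h2 hne
      have h6 : (C (e r0) + C (e r1) * X + C (e r2) * X ^ 2 : F[X]).natDegree ≤ 2 := by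
        compute_degree
      omega
    have c0 := congrArg (fun P : F[X] => P.coeff 0) h4
    have c1 := congrArg (fun P : F[X] => P.coeff 1) h4
    have c2 := congrArg (fun P : F[X] => P.coeff 2) h4
    simp [coeff_X, coeff_C, coeff_X_pow] at c0 c1 c2
    exact ⟨c0, c1, c2⟩

end Pool.Agent.LibCW77
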