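import Pool.Agent.LibEV91.B0
import Pool.Agent.LibCW77.C1

/-!
[EV91 E2] STRONG: local coordinates (model: CW77 NE2.lean)

Put `v₀ = κ a + δ`, `t = α ^ 3`. By `h1`, `h2` and `cov_eq` there are exactly three `x₀` with `v₀ ^ m (x₀ ^ 3 - t⁻¹) = x₀ ^ 3 - t`, namely `x₀ ^ 3 = c₀ := (t - t⁻¹ v₀ ^ m) / (1 - v₀ ^ m) ≠ 0`:
`x₀ = ω ^ i z` (`IsAlgClosed.exists_pow_nat_eq`). The points `(x₀, v₀)` are on the curve (`OnC`, `cov_a`, `cov_b` for `M = k`); `w` the place of such a point (`placeC`).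
`w.ord (y - a) = 1`: `v - v₀ = κ (y - a)`. If `v₀ ≠ 0`: `(x ^ 3 - x₀ ^ 3) (1 - v ^ m) (1 - v₀ ^ m) = (t - t⁻¹ v ^ m)(1 - v₀ ^ m) - (t - t⁻¹ v₀ ^ m)(1 - v ^ m) = (t - t⁻¹)(v ^ m - v₀ ^ m)`
is `(v - v₀) U`, `U` with the value `(t - t⁻¹) m v₀ ^ (m-1) ≠ 0`, and `w.ord (x ^ 3 - x₀ ^ 3) = w.ord (x - x₀) = 1` (`x ^ 2 + x x₀ + x₀ ^ 2` has the value `3 x₀ ^ 2 ≠ 0`); `1 - v ^ m` has the value
`1 - v₀ ^ m ≠ 0`. If `v₀ = 0` then `x₀` is an `a_i` and `w.ord v = 1` (`placeC`). Now as in NE2: suppose some `r_l` has a pole at `a`, `s > 0` the largest multiplicity of `a` in the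
denominators; `r_l = (y - a) ^ (-s) u_l`, `u_l` regular at `a`, not all `u_l(a) = 0`; the polynomial `u_0(a) + u_1(a) T + u_2(a) T ^ 2` does not vanish at one of the three `x₀`; at its place
`j r0 + j r1 x + j r2 x ^ 2` has the order `- s < 0`: contradiction to `hz`.
-/

open scoped Classical
open Polynomial

namespace Pool.Agent.LibCW77

open Pool.Agent.LibBH2
open Pool.Agent.LibCHd (VR RF Red FunF)

variable {k : Type} [Field k]

/-- the value of a polynomial in `x` at a place -/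
private theorem EVE2_poly {N : Type} [Field N] [Algebra k N] {x : N} {w : Place k N} {a : k}
    (h : Red w x (algebraMap k (RF w) a)) (p : k[X]) :
    Red w (aeval x p) (algebraMap k (RF w) (p.eval a)) := by
  induction p using Polynomial.induction_on' with
  | add p q hp hq =>
    rw [map_add, eval_add, map_add]
    exact hp.add hq
  | monomial n c =>
    rw [aeval_monomial, eval_monomial, map_mul, map_pow]
    exact (LibCHd.red_const w c).mul (h.pow n)

private theorem EVE2_aeval_ne {N : Type} [Field N] [Algebra k N] {x : N} (hx : Transcendental k x)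
    {p : k[X]} (hp : p ≠ 0) : aeval x p ≠ 0 := fun h => hx ⟨p, hp, h⟩

/-- clearing the pole of a rational function -/
private theorem EVE2_clear {N : Type} [Field N] [Algebra k N] {x : N} (hx : Transcendental k x)
    (j : RatFunc k →+* N) (hj : ∀ p : k[X], j (algebraMap k[X] (RatFunc k) p) = aeval x p)
    (r : RatFunc k) (a : k) (s : ℕ) (hs : r.denom.rootMultiplicity a ≤ s) :
    ∃ u : k, (∀ w : Place k N, Red w x (algebraMap k (RF w) a) →
      Red w (j r * (x - algebraMap k N a) ^ s) (algebraMap k (RF w) u)) ∧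
      (0 < s → s = r.denom.rootMultiplicity a → u ≠ 0) := by
  set n := r.denom.rootMultiplicity a with hn
  set q := r.denom /ₘ (X - C a) ^ n with hq
  have h1 : (X - C a) ^ n * q = r.denom :=
    Polynomial.pow_mul_divByMonic_rootMultiplicity_eq r.denom a
  have h2 : q.eval a ≠ 0 :=
    Polynomial.eval_divByMonic_pow_rootMultiplicity_ne_zero a r.denom_ne_zero
  have hq0 : q ≠ 0 := by
    intro h
    rw [h, eval_zero] at h2
    exact h2 rfl
  have hd0 := EVE2_aeval_ne hx r.denom_ne_zero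
  have hq1 := EVE2_aeval_ne hx hq0
  have ht : aeval x (X - C a : k[X]) = x - algebraMap k N a := by
    rw [map_sub, aeval_X, aeval_C]
  have h3 : j r = aeval x r.num / aeval x r.denom := by
    have e := RatFunc.num_div_denom r
    rw [← hj, ← hj, ← map_div₀, e]
  have hd1 : aeval x r.denom = (x - algebraMap k N a) ^ n * aeval x q := by
    rw [← h1, map_mul, map_pow, ht]
  have h4 : j r * (x - algebraMap k N a) ^ s =
      aeval x (r.num * (X - C a) ^ (s - n)) / aeval x q := by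
    have e : (x - algebraMap k N a) ^ s =
        (x - algebraMap k N a) ^ n * (x - algebraMap k N a) ^ (s - n) := by
      rw [← pow_add]
      congr 1
      omega
    rw [h3, map_mul, map_pow, ht, e, div_mul_eq_mul_div, div_eq_div_iff hd0 hq1, hd1]
    ring
  refine ⟨(r.num * (X - C a) ^ (s - n)).eval a / q.eval a, ?_, ?_⟩
  · intro w hw
    rw [h4, map_div₀]
    refine (EVE2_poly hw _).div (EVE2_poly hw _) ?_
    intro h0
    exact h2 ((algebraMap k (RF w)).injective (by rw [h0, map_zero]))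
  · intro hs0 hsn
    have e : s - n = 0 := by omega
    rw [e, pow_zero, mul_one]
    refine div_ne_zero ?_ h2
    intro h5
    have hn0 : 0 < n := by omega
    have h6 : r.denom.eval a = 0 := by
      rw [← h1, eval_mul, eval_pow, eval_sub, eval_X, eval_C, sub_self, zero_pow hn0.ne', zero_mul]
    obtain ⟨A, B, hAB⟩ := r.isCoprime_num_denom
    have h7 := congrArg (Polynomial.eval a) hAB
    rw [eval_add, eval_mul, eval_mul, h5, h6, mul_zero, mul_zero, add_zero, eval_one] at h7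
    exact zero_ne_one h7

private theorem EVE2_prim (k : Type) [Field k] [IsAlgClosed k] [CharZero k] {m : ℕ} (hm : 2 ≤ m) :
    ∃ ζ : k, IsPrimitiveRoot ζ m := by
  have : NeZero ((m : ℕ) : k) := ⟨by
    have : m ≠ 0 := by omega
    exact_mod_cast this⟩
  exact HasEnoughRootsOfUnity.exists_primitiveRoot k m

private theorem EVE2_cube [CharZero k] {ζ b u0 u1 u2 : k} (hζ : ζ ^ 2 + ζ + 1 = 0) (hb : b ≠ 0)
    (e0 : u0 + u1 * b + u2 * b ^ 2 = 0)
    (e1 : u0 + u1 * (ζ * b) + u2 * (ζ * b) ^ 2 = 0)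
    (e2 : u0 + u1 * (ζ ^ 2 * b) + u2 * (ζ ^ 2 * b) ^ 2 = 0) : u0 = 0 ∧ u1 = 0 ∧ u2 = 0 := by
  have h3 : (3 : k) ≠ 0 := by norm_num
  have a0 : 3 * u0 = 0 := by
    linear_combination e0 + e1 + e2 - (u1 * b + u2 * b ^ 2 * (ζ ^ 2 - ζ + 1)) * hζ
  have a1 : 3 * (u1 * b) = 0 := by
    linear_combination e0 + ζ ^ 2 * e1 + ζ * e2 -
      (u0 + 2 * (u1 * b) * (ζ - 1) + u2 * b ^ 2 * (ζ ^ 3 - ζ + 1)) * hζ
  have a2 : 3 * (u2 * b ^ 2) = 0 := by
    linear_combination e0 + ζ * e1 + ζ ^ 2 * e2 -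
      (u0 + u1 * b * (ζ ^ 2 - ζ + 1) + u2 * b ^ 2 * ((ζ - 1) * (ζ ^ 3 + 2))) * hζ
  refine ⟨(mul_eq_zero.1 a0).resolve_left h3, ?_, ?_⟩
  · exact (mul_eq_zero.1 ((mul_eq_zero.1 a1).resolve_left h3)).resolve_right hb
  · exact (mul_eq_zero.1 ((mul_eq_zero.1 a2).resolve_left h3)).resolve_right (pow_ne_zero 2 hb)

private theorem EVE2_t {α : k} (h0 : α ≠ 0) (h6 : α ^ 6 ≠ 1) : α ^ 3 - (α ^ 3)⁻¹ ≠ 0 := by
  intro h
  have h3 : α ^ 3 ≠ 0 := pow_ne_zero 3 h0
  apply h6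
  have h1 : α ^ 3 = (α ^ 3)⁻¹ := sub_eq_zero.1 h
  calc α ^ 6 = α ^ 3 * α ^ 3 := by ring
    _ = α ^ 3 * (α ^ 3)⁻¹ := by rw [← h1]
    _ = 1 := mul_inv_cancel₀ h3

/-- `y` is transcendental -/
private theorem EVE2_tr {ω : k} (hω : IsPrimitiveRoot ω 3) {m : ℕ} {α : k} (h0 : α ≠ 0)
    (h6 : α ^ 6 ≠ 1) {N : Type} [Field N] [Algebra k N] {x v y : N} (h : GenC (cov m ω α) x v) {κ δ : k}
    (hy : v = algebraMap k N κ * y + algebraMap k N δ) : Transcendental k y := by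
  intro hyA
  have hvA : IsAlgebraic k v := by
    rw [hy]
    exact ((isAlgebraic_algebraMap κ).mul hyA).add (isAlgebraic_algebraMap δ)
  have he := cov_eq hω h
  have hT : algebraMap k N (α ^ 3) - algebraMap k N ((α ^ 3)⁻¹) ≠ 0 := by
    rw [← map_sub]
    intro hh
    exact EVE2_t h0 h6 ((algebraMap k N).injective (by rw [hh, map_zero]))
  have h1 : v ^ m - 1 ≠ 0 := by
    intro hh
    have h2 : v ^ m = 1 := sub_eq_zero.1 hh
    rw [h2, one_mul] at he
    apply hT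
    linear_combination he
  have h3 : x ^ 3 = (v ^ m * algebraMap k N ((α ^ 3)⁻¹) - algebraMap k N (α ^ 3)) * (v ^ m - 1)⁻¹ := by
    rw [eq_mul_inv_iff_mul_eq₀ h1]
    linear_combination he
  have h4 : IsAlgebraic k (x ^ 3) := by
    rw [h3]
    refine (((hvA.pow m).mul (isAlgebraic_algebraMap _)).sub (isAlgebraic_algebraMap _)).mul ?_
    exact ((hvA.pow m).sub isAlgebraic_one).inv
  exact h.tr (IsAlgebraic.of_pow (by norm_num) h4)

/-- `v - v₀` is a local parameter -/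
private theorem EVE2_ord [CharZero k] {ω : k} (hω : IsPrimitiveRoot ω 3) {m : ℕ} (hm : 2 ≤ m) {α : k} (h0 : α ≠ 0)
    (h6 : α ^ 6 ≠ 1) {N : Type} [Field N] [Algebra k N] {x v : N} (h : GenC (cov m ω α) x v) {v₀ x₀ : k}
    (hv₀ : v₀ ≠ 0) (hx₀ : x₀ ≠ 0) (h1 : v₀ ^ m ≠ 1) (he : v₀ ^ m * (x₀ ^ 3 - (α ^ 3)⁻¹) = x₀ ^ 3 - α ^ 3)
    (w : Place k N) (hx : Red w x (algebraMap k (RF w) x₀)) (hv : Red w v (algebraMap k (RF w) v₀))
    (ho : w.ord (x - algebraMap k N x₀) = 1) : w.ord (v - algebraMap k N v₀) = 1 := by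
  have hin : ∀ c : k, c ≠ 0 → algebraMap k (RF w) c ≠ 0 := by
    intro c hc hh
    exact hc ((algebraMap k (RF w)).injective (by rw [hh, map_zero]))
  have e1 := cov_eq hω h
  have e2 := congrArg (algebraMap k N) he
  simp only [map_mul, map_sub, map_pow, map_inv₀] at e1 e2
  -- the factors
  have hG : Red w (aeval x (X ^ 2 + X * C x₀ + C x₀ ^ 2 : k[X])) (algebraMap k (RF w) (3 * x₀ ^ 2)) := by
    have h2 := EVE2_poly hx (X ^ 2 + X * C x₀ + C x₀ ^ 2 : k[X])
    have h3 : (X ^ 2 + X * C x₀ + C x₀ ^ 2 : k[X]).eval x₀ = 3 * x₀ ^ 2 := by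
      simp only [eval_add, eval_mul, eval_pow, eval_X, eval_C]
      ring
    rwa [h3] at h2
  have hG' : aeval x (X ^ 2 + X * C x₀ + C x₀ ^ 2 : k[X]) =
      x ^ 2 + x * algebraMap k N x₀ + algebraMap k N x₀ ^ 2 := by
    simp only [map_add, map_mul, map_pow, aeval_X, aeval_C]
  rw [hG'] at hG
  have hA : Red w (aeval v (1 - X ^ m : k[X])) (algebraMap k (RF w) (1 - v₀ ^ m)) := by
    have h2 := EVE2_poly hv (1 - X ^ m : k[X])
    have h3 : (1 - X ^ m : k[X]).eval v₀ = 1 - v₀ ^ m := by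
      simp only [eval_sub, eval_one, eval_pow, eval_X]
    rwa [h3] at h2
  have hA' : aeval v (1 - X ^ m : k[X]) = 1 - v ^ m := by
    simp only [map_sub, map_one, map_pow, aeval_X]
  rw [hA'] at hA
  have hU : Red w (aeval v (∑ i ∈ Finset.range m, X ^ i * (C v₀) ^ (m - 1 - i) : k[X]))
      (algebraMap k (RF w) (m * v₀ ^ (m - 1))) := by
    have h2 := EVE2_poly hv (∑ i ∈ Finset.range m, X ^ i * (C v₀) ^ (m - 1 - i) : k[X])
    have h3 : (∑ i ∈ Finset.range m, X ^ i * (C v₀) ^ (m - 1 - i) : k[X]).eval v₀ = m * v₀ ^ (m - 1) := by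
      rw [eval_finset_sum, ← geom_sum₂_self]
      refine Finset.sum_congr rfl fun i _ => ?_
      simp only [eval_mul, eval_pow, eval_X, eval_C]
    rwa [h3] at h2
  have hU' : aeval v (∑ i ∈ Finset.range m, X ^ i * (C v₀) ^ (m - 1 - i) : k[X]) *
      (v - algebraMap k N v₀) = v ^ m - algebraMap k N v₀ ^ m := by
    rw [← geom_sum₂_mul, map_sum]
    congr 1
    refine Finset.sum_congr rfl fun i _ => ?_
    simp only [map_mul, map_pow, aeval_X, aeval_C]
  obtain ⟨U, hUe⟩ : ∃ U, U = aeval v (∑ i ∈ Finset.range m, X ^ i * (C v₀) ^ (m - 1 - i) : k[X]) := ⟨_, rfl⟩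
  rw [← hUe] at hU hU'
  have hm0 : (m : k) ≠ 0 := by
    have : m ≠ 0 := by omega
    exact_mod_cast this
  have hP0 : x - algebraMap k N x₀ ≠ 0 := by
    intro hh
    rw [hh, w.ord_zero] at ho
    exact zero_ne_one ho
  have hGr := hin (3 * x₀ ^ 2) (mul_ne_zero (by norm_num) (pow_ne_zero 2 hx₀))
  have hAr := hin (1 - v₀ ^ m) (sub_ne_zero.2 (Ne.symm h1))
  have hUr := hin (m * v₀ ^ (m - 1)) (mul_ne_zero hm0 (pow_ne_zero _ hv₀))
  have hBn : algebraMap k N (1 - v₀ ^ m) ≠ 0 := by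
    intro hh
    exact h1 (sub_eq_zero.1 ((algebraMap k N).injective (by rw [hh, map_zero]))).symm
  have hTn : algebraMap k N (α ^ 3 - (α ^ 3)⁻¹) ≠ 0 := by
    intro hh
    exact EVE2_t h0 h6 ((algebraMap k N).injective (by rw [hh, map_zero]))
  have key : (x - algebraMap k N x₀) * ((x ^ 2 + x * algebraMap k N x₀ + algebraMap k N x₀ ^ 2) *
      ((1 - v ^ m) * algebraMap k N (1 - v₀ ^ m))) =
      algebraMap k N (α ^ 3 - (α ^ 3)⁻¹) * (U * (v - algebraMap k N v₀)) := by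
    rw [hU']
    simp only [map_sub, map_one, map_pow, map_inv₀]
    linear_combination (-(1 - algebraMap k N v₀ ^ m)) * e1 + (1 - v ^ m) * e2
  have hL0 : (x - algebraMap k N x₀) * ((x ^ 2 + x * algebraMap k N x₀ + algebraMap k N x₀ ^ 2) *
      ((1 - v ^ m) * algebraMap k N (1 - v₀ ^ m))) ≠ 0 :=
    mul_ne_zero hP0 (mul_ne_zero (hG.ne_zero hGr) (mul_ne_zero (hA.ne_zero hAr) hBn))
  have hV0 : v - algebraMap k N v₀ ≠ 0 := by
    intro hh
    rw [key, hh, mul_zero, mul_zero] at hL0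
    exact hL0 rfl
  have h2 := congrArg w.ord key
  rw [w.ord_mul _ _ hP0 (mul_ne_zero (hG.ne_zero hGr) (mul_ne_zero (hA.ne_zero hAr) hBn)),
    w.ord_mul _ _ (hG.ne_zero hGr) (mul_ne_zero (hA.ne_zero hAr) hBn),
    w.ord_mul _ _ (hA.ne_zero hAr) hBn, w.ord_mul _ _ hTn (mul_ne_zero (hU.ne_zero hUr) hV0),
    w.ord_mul _ _ (hU.ne_zero hUr) hV0, ho, hG.ord_eq_zero hGr, hA.ord_eq_zero hAr,
    hU.ord_eq_zero hUr, w.ord_const _ (sub_ne_zero.2 (Ne.symm h1)), w.ord_const _ (EVE2_t h0 h6)] at h2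
  linarith

theorem ev_loc [IsAlgClosed k] [CharZero k] {ω : k} (hω : IsPrimitiveRoot ω 3) {m : ℕ} (hm : 2 ≤ m) {α : k} (h0 : α ≠ 0)
    (h6 : α ^ 6 ≠ 1) {N : Type} [Field N] [Algebra k N] {x v y : N} (h : GenC (cov m ω α) x v) {κ δ : k} (hκ : κ ≠ 0)
    (hy : v = algebraMap k N κ * y + algebraMap k N δ) (j : RatFunc k →+* N)
    (hj : ∀ p : k[X], j (algebraMap k[X] (RatFunc k) p) = aeval y p) {r0 r1 r2 : RatFunc k} {a : k}
    (h1 : (κ * a + δ) ^ m ≠ 1) (h2 : (κ * a + δ) ^ m ≠ α ^ 6)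
    (hz : ∀ w : Place k N, Red w y (algebraMap k (RF w) a) → w.Reg (j r0 + j r1 * x + j r2 * x ^ 2)) :
    r0.denom.eval a ≠ 0 ∧ r1.denom.eval a ≠ 0 ∧ r2.denom.eval a ≠ 0 := by
  by_contra hcon
  obtain ⟨ζ, hζ⟩ := EVE2_prim k hm
  have hω2 : ω ^ 2 + ω + 1 = 0 := by
    have h1 := hω.geom_sum_eq_zero (by norm_num)
    rw [Finset.sum_range_succ, Finset.sum_range_succ, Finset.sum_range_one, pow_zero, pow_one] at h1
    linear_combination h1
  have hω3 : ω ^ 3 = 1 := hω.pow_eq_one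
  have hgood := cov_good hω hm h0 h6
  have hyt := EVE2_tr hω h0 h6 h hy
  have ht0 : α ^ 3 ≠ 0 := pow_ne_zero 3 h0
  have hroot : ∀ r : RatFunc k, r.denom.eval a = 0 → 0 < r.denom.rootMultiplicity a := fun r hr =>
    (Polynomial.rootMultiplicity_pos r.denom_ne_zero).2 hr
  set s := max (max (r0.denom.rootMultiplicity a) (r1.denom.rootMultiplicity a))
    (r2.denom.rootMultiplicity a) with hs
  have hs0 : 0 < s := by
    by_contra h0
    apply hcon
    refine ⟨fun h1 => ?_, fun h1 => ?_, fun h1 => ?_⟩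
    · have := hroot r0 h1
      omega
    · have := hroot r1 h1
      omega
    · have := hroot r2 h1
      omega
  obtain ⟨u0, hu0, hv0⟩ := EVE2_clear hyt j hj r0 a s (by omega)
  obtain ⟨u1, hu1, hv1⟩ := EVE2_clear hyt j hj r1 a s (by omega)
  obtain ⟨u2, hu2, hv2⟩ := EVE2_clear hyt j hj r2 a s (by omega)
  have hne : ¬ (u0 = 0 ∧ u1 = 0 ∧ u2 = 0) := by
    rintro ⟨z0, z1, z2⟩
    have h4 : s = r0.denom.rootMultiplicity a ∨ s = r1.denom.rootMultiplicity a ∨
        s = r2.denom.rootMultiplicity a := by omega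
    rcases h4 with h4 | h4 | h4
    · exact hv0 hs0 h4 z0
    · exact hv1 hs0 h4 z1
    · exact hv2 hs0 h4 z2
  obtain ⟨v₀, hv₀⟩ : ∃ v₀, v₀ = κ * a + δ := ⟨_, rfl⟩
  rw [← hv₀] at h1 h2
  have h1' : 1 - v₀ ^ m ≠ 0 := sub_ne_zero.2 (Ne.symm h1)
  -- a cube root
  obtain ⟨b0, hb0⟩ := IsAlgClosed.exists_pow_nat_eq ((α ^ 3 - (α ^ 3)⁻¹ * v₀ ^ m) / (1 - v₀ ^ m))
    (n := 3) (by norm_num)
  have hb0' : b0 ^ 3 * (1 - v₀ ^ m) = α ^ 3 - (α ^ 3)⁻¹ * v₀ ^ m := by
    rw [hb0, div_mul_cancel₀ _ h1']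
  have hcz : α ^ 3 - (α ^ 3)⁻¹ * v₀ ^ m ≠ 0 := by
    intro hh
    apply h2
    have h3 : α ^ 3 * (α ^ 3 - (α ^ 3)⁻¹ * v₀ ^ m) = 0 := by rw [hh, mul_zero]
    have h4 : α ^ 3 * (α ^ 3)⁻¹ = 1 := mul_inv_cancel₀ ht0
    linear_combination (-v₀ ^ m) * h4 - h3
  have hnz : ∀ b : k, b ^ 3 * (1 - v₀ ^ m) = α ^ 3 - (α ^ 3)⁻¹ * v₀ ^ m → b ≠ 0 := by
    rintro b hb rfl
    rw [zero_pow (by norm_num), zero_mul] at hb
    exact hcz hb.symm
  have hya : ∀ w : Place k N, Red w v (algebraMap k (RF w) v₀) → Red w y (algebraMap k (RF w) a) := by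
    intro w hw
    have h3 : y = algebraMap k N κ⁻¹ * (v - algebraMap k N δ) := by
      rw [hy, add_sub_cancel_right, ← mul_assoc, ← map_mul, inv_mul_cancel₀ hκ, map_one, one_mul]
    have h4 : a = κ⁻¹ * (v₀ - δ) := by
      rw [hv₀, add_sub_cancel_right, ← mul_assoc, inv_mul_cancel₀ hκ, one_mul]
    rw [h3, h4, map_mul (algebraMap k (RF w)), map_sub (algebraMap k (RF w))]
    exact (LibCHd.red_const w _).mul (hw.sub (LibCHd.red_const w _))
  -- the contradiction at a point where the polynomial does not vanish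
  have key : ∀ b : k, b ^ 3 * (1 - v₀ ^ m) = α ^ 3 - (α ^ 3)⁻¹ * v₀ ^ m → u0 + u1 * b + u2 * b ^ 2 = 0 := by
    intro b hb
    by_contra hne'
    have hb1 : b ≠ 0 := hnz b hb
    have hbe : v₀ ^ m * (b ^ 3 - (α ^ 3)⁻¹) = b ^ 3 - α ^ 3 := by
      linear_combination -hb
    have hca : ∏ i, (b - (cov m ω α).a i) = b ^ 3 - α ^ 3 := cov_a hω m α k b
    have hcb : ∏ i, (b - (cov m ω α).b i) = b ^ 3 - (α ^ 3)⁻¹ := cov_b hω m α k b
    have hQ : OnC (cov m ω α) ((![some b, some v₀] : Fin 2 → Option k) 0)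
        ((![some b, some v₀] : Fin 2 → Option k) 1) := by
      show v₀ ^ m * ∏ i, (b - (cov m ω α).b i) = ∏ i, (b - (cov m ω α).a i)
      rw [hca, hcb]
      exact hbe
    obtain ⟨w, ⟨hw1, hw2⟩, -, hw3, -, hw4, -⟩ := placeC hgood (ζ := ζ) hζ h
      ![some b, some v₀] hQ
    have hx : Red w x (algebraMap k (RF w) b) := hw1
    have hv : Red w v (algebraMap k (RF w) v₀) := hw2
    have hvo : w.ord (v - algebraMap k N v₀) = 1 := by
      by_cases hv0 : v₀ = 0
      · have h5 : ∏ i, (b - (cov m ω α).a i) = 0 := by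
          rw [hca, ← hbe, hv0, zero_pow (by omega), zero_mul]
        obtain ⟨i, -, hi⟩ := Finset.prod_eq_zero_iff.1 h5
        have h6 := (hw4 i (congrArg some (sub_eq_zero.1 hi))).2
        rw [hv0, map_zero, sub_zero]
        exact h6
      · exact EVE2_ord hω hm h0 h6 h hv0 hb1 h1 hbe w hx hv (hw3 b v₀ rfl rfl hv0)
    have hV0 : v - algebraMap k N v₀ ≠ 0 := by
      intro hh
      rw [hh, w.ord_zero] at hvo
      exact zero_ne_one hvo
    have hyr := hya w hv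
    have ht : w.ord (y - algebraMap k N a) = 1 := by
      have h5 : v - algebraMap k N v₀ = algebraMap k N κ * (y - algebraMap k N a) := by
        rw [hy, hv₀, map_add, map_mul]
        ring
      have hY0 : y - algebraMap k N a ≠ 0 := by
        intro hh
        rw [h5, hh, mul_zero] at hV0
        exact hV0 rfl
      have hκ0 : algebraMap k N κ ≠ 0 := by
        intro hh
        exact hκ ((algebraMap k N).injective (by rw [hh, map_zero]))
      rw [h5, w.ord_mul _ _ hκ0 hY0, w.ord_const _ hκ, zero_add] at hvo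
      exact hvo
    have hreg := hz w hyr
    have hR : Red w ((j r0 + j r1 * x + j r2 * x ^ 2) * (y - algebraMap k N a) ^ s)
        (algebraMap k (RF w) (u0 + u1 * b + u2 * b ^ 2)) := by
      have e : (j r0 + j r1 * x + j r2 * x ^ 2) * (y - algebraMap k N a) ^ s =
          j r0 * (y - algebraMap k N a) ^ s + j r1 * (y - algebraMap k N a) ^ s * x +
            j r2 * (y - algebraMap k N a) ^ s * x ^ 2 := by ring
      rw [e, map_add, map_add, map_mul, map_mul, map_pow]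
      exact ((hu0 w hyr).add ((hu1 w hyr).mul hx)).add ((hu2 w hyr).mul (hx.pow 2))
    have hne2 : algebraMap k (RF w) (u0 + u1 * b + u2 * b ^ 2) ≠ 0 := by
      intro h0
      exact hne' ((algebraMap k (RF w)).injective (by rw [h0, map_zero]))
    have ho := hR.ord_eq_zero hne2
    have hn0 := hR.ne_zero hne2
    have hz0 : (j r0 + j r1 * x + j r2 * x ^ 2) ≠ 0 := left_ne_zero_of_mul hn0
    have ht0 : (y - algebraMap k N a) ^ s ≠ 0 := right_ne_zero_of_mul hn0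
    rw [w.ord_mul _ _ hz0 ht0, w.ord_pow, ht] at ho
    have h5 := hreg.resolve_left hz0
    have h6 : (0 : ℤ) < s := by exact_mod_cast hs0
    linarith
  refine hne (EVE2_cube hω2 (hnz b0 hb0') (key b0 hb0') (key (ω * b0) ?_) (key (ω ^ 2 * b0) ?_))
  · rw [mul_pow, hω3, one_mul]
    exact hb0'
  · rw [mul_pow, ← pow_mul, mul_comm 2 3, pow_mul, hω3, one_pow, one_mul]
    exact hb0'

end Pool.Agent.LibCW77
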