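import Pool.Agent.LibEV91.E1
import Pool.Agent.LibEV91.E2

/-!
[EV91 E3] STRONG: global coordinates (model: CW77 NE3.lean)

`z = j r0 + j r1 x + j r2 x ^ 2` (`ev_rep`). (1) `a` with `(κ a + δ) ^ m ≠ 1, α ^ 6`: `ev_loc` (a place with `Red w y a` has `0 ≤ w.ord v`, so `z` is regular). (2) `v₀ = κ a + δ`,
`v₀ ^ m = α ^ 6`: the point `(0, v₀)` is on the curve; its place `w`: `w.ord x = 1` (`placeC`, `v₀ ≠ 0`), `w.ord (y - a) = 3`: by `cov_eq`
`(v ^ m - α ^ 6)(x ^ 3 - α ^ (-3)) = x ^ 3 (1 - α ^ 6)`, `w.ord (v ^ m - v₀ ^ m) = w.ord (v - v₀)` (`m v₀ ^ (m - 1) ≠ 0`). So the orders of the three summands are `3 o0`, `3 o1 + 1`,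
`3 o2 + 2`, different modulo `3`, the order of `z` is the smallest one and all are `≥ 0`: `o_l ≥ 0`. (3) `v₀ ^ m = 1`: the point `(∞, v₀)`: `w.ord x = -1`, and
`(v ^ m - 1)(x ^ 3 - α ^ (-3)) = α ^ (-3) - α ^ 3`, so `w.ord (y - a) = 3`: orders `3 o0`, `3 o1 - 1`, `3 o2 - 2`: `o0 ≥ 0`, `o1, o2 ≥ 1`. The polynomial
`Bq = 1 - (κ X + δ) ^ m` of degree `m` has exactly these `a` as roots, all simple. So `r0`, `r1 / Bq`, `r2 / Bq` have no poles in `k` and are polynomials
(a denominator without roots is constant). (4) Infinity: the places of `(b_i, ∞)`: `w.ord v = -1 = w.ord y`, `x` has the value `b_i` (three different numbers, `b_i ^ 3 = α ^ (-3)`).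
Let `s` be the largest `RatFunc.intDegree` of the `r_l` which are not `0`; the leading coefficients give a polynomial in `b` of degree `≤ 2`, not zero at one of the three `b_i`, so
`w.ord z = - s`, so `s ≤ D`; `natDegree (Bq * g) = m + natDegree g`.
-/

open scoped Classical
open Polynomial

namespace Pool.Agent.LibCW77

open Pool.Agent.LibBH2
open Pool.Agent.LibCHd (VR RF Red FunF)

variable {k : Type} [Field k]

section aux

variable {N : Type} [Field N] [Algebra k N]

private def EVE3_ge (w : Place k N) (m : ℤ) (f : N) : Prop := f = 0 ∨ m ≤ w.ord f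

private theorem EVE3_ge_add {w : Place k N} {m : ℤ} {f g : N} (hf : EVE3_ge w m f)
    (hg : EVE3_ge w m g) : EVE3_ge w m (f + g) := by
  by_cases h0 : f + g = 0
  · exact Or.inl h0
  rcases hf with rfl | hf
  · simpa [EVE3_ge] using hg
  rcases hg with rfl | hg
  · right
    simpa using hf
  by_cases hf0 : f = 0
  · subst hf0
    right
    simpa using hg
  by_cases hg0 : g = 0
  · subst hg0
    right
    simpa using hf
  exact Or.inr ((le_min hf hg).trans (w.ord_add f g hf0 hg0 h0))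

private theorem EVE3_ge_neg {w : Place k N} {m : ℤ} {f : N} (hf : EVE3_ge w m f) :
    EVE3_ge w m (-f) := by
  rcases hf with rfl | hf
  · left; simp
  · right; rwa [w.ord_neg]

private theorem EVE3_ge_mono {w : Place k N} {m m' : ℤ} (h : m' ≤ m) {f : N} (hf : EVE3_ge w m f) :
    EVE3_ge w m' f := hf.imp id (h.trans)

private theorem EVE3_ge_sum {w : Place k N} {m : ℤ} {ι : Type} (S : Finset ι) (t : ι → N)
    (h : ∀ i ∈ S, EVE3_ge w m (t i)) : EVE3_ge w m (∑ i ∈ S, t i) := by
  induction S using Finset.induction_on with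
  | empty => left; simp
  | insert a S ha ih =>
    rw [Finset.sum_insert ha]
    exact EVE3_ge_add (h a (Finset.mem_insert_self _ _))
      (ih fun i hi => h i (Finset.mem_insert_of_mem hi))

/-- terms with different orders do not cancel -/
private theorem EVE3_sep {w : Place k N} (t : Fin 3 → N) (m : ℤ) (h : EVE3_ge w m (∑ i, t i))
    (hd : ∀ i j, i ≠ j → t i ≠ 0 → t j ≠ 0 → w.ord (t i) ≠ w.ord (t j)) (l : Fin 3)
    (hl : t l ≠ 0) : m ≤ w.ord (t l) := by
  by_contra hcon
  push Not at hcon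
  obtain ⟨i₀, hi₀, hmin⟩ := Finset.exists_min_image (Finset.univ.filter fun i => t i ≠ 0)
    (fun i => w.ord (t i)) ⟨l, by simp [hl]⟩
  have hti₀ : t i₀ ≠ 0 := by simpa using hi₀
  have hlt : w.ord (t i₀) < m := (hmin l (by simp [hl])).trans_lt hcon
  have h1 : EVE3_ge w (w.ord (t i₀) + 1) (∑ i ∈ Finset.univ.erase i₀, t i) := by
    refine EVE3_ge_sum _ _ fun i hi => ?_
    by_cases h0 : t i = 0
    · exact Or.inl h0
    · right
      have h2 := hmin i (by simp [h0])
      have h3 := hd i₀ i (Finset.ne_of_mem_erase hi).symm hti₀ h0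
      omega
  have h2 : EVE3_ge w (w.ord (t i₀) + 1) (t i₀) := by
    have h3 : t i₀ = ∑ i, t i + -(∑ i ∈ Finset.univ.erase i₀, t i) := by
      rw [← Finset.add_sum_erase Finset.univ t (Finset.mem_univ i₀)]
      ring
    have h4 := EVE3_ge_add (EVE3_ge_mono (show w.ord (t i₀) + 1 ≤ m by omega) h) (EVE3_ge_neg h1)
    rwa [← h3] at h4
  rcases h2 with h2 | h2
  · exact hti₀ h2
  · omega

private theorem EVE3_poly {w : Place k N} {x : N} {a : k} (he : 0 < w.ord (x - algebraMap k N a))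
    {p : k[X]} (hp : p ≠ 0) : aeval x p ≠ 0 ∧
      w.ord (aeval x p) = w.ord (x - algebraMap k N a) * (rootMultiplicity a p : ℤ) := by
  obtain ⟨q, hq, hq'⟩ := exists_eq_pow_rootMultiplicity_mul_and_not_dvd p hp a
  have hqa : q.eval a ≠ 0 := fun h0 => hq' (dvd_iff_isRoot.2 h0)
  have hxa : x - algebraMap k N a ≠ 0 := by
    intro h0
    rw [h0, w.ord_zero] at he
    exact lt_irrefl _ he
  have hval := Place.val_aeval (v := w) (Or.inr he : w.Zer (x - algebraMap k N a)) q
  have hq0 := Place.ne_zero_of_val hval hqa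
  have hqo := Place.ord_eq_zero_of_val hval hqa
  have h1 : aeval x p = (x - algebraMap k N a) ^ rootMultiplicity a p * aeval x q := by
    conv_lhs => rw [hq]
    simp
  rw [h1]
  refine ⟨mul_ne_zero (pow_ne_zero _ hxa) hq0, ?_⟩
  rw [w.ord_mul _ _ (pow_ne_zero _ hxa) hq0, w.ord_pow, hqo]
  ring

private theorem EVE3_rat {w : Place k N} {x : N} {a : k} (he : 0 < w.ord (x - algebraMap k N a))
    (j : RatFunc k →+* N) (hj : ∀ p : k[X], j (algebraMap k[X] (RatFunc k) p) = aeval x p)
    {r : RatFunc k} (hr : r ≠ 0) : j r ≠ 0 ∧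
      w.ord (j r) = w.ord (x - algebraMap k N a) *
        ((rootMultiplicity a r.num : ℤ) - rootMultiplicity a r.denom) := by
  have hn : r.num ≠ 0 := RatFunc.num_ne_zero hr
  have hd : r.denom ≠ 0 := RatFunc.denom_ne_zero r
  obtain ⟨h1, h2⟩ := EVE3_poly he hn
  obtain ⟨h3, h4⟩ := EVE3_poly he hd
  have h5 : j r = aeval x r.num / aeval x r.denom := by
    conv_lhs => rw [← RatFunc.num_div_denom r]
    rw [map_div₀, hj, hj]
  rw [h5]
  refine ⟨div_ne_zero h1 h3, ?_⟩
  rw [w.ord_div _ _ h1 h3, h2, h4]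
  ring

private theorem EVE3_den {r : RatFunc k} {a : k}
    (h : 0 ≤ (rootMultiplicity a r.num : ℤ) - rootMultiplicity a r.denom) : r.denom.eval a ≠ 0 := by
  intro h0
  have hd : r.denom ≠ 0 := RatFunc.denom_ne_zero r
  have h1 : 0 < rootMultiplicity a r.denom := (rootMultiplicity_pos hd).2 h0
  have h2 : r.num.eval a ≠ 0 := by
    intro h2
    obtain ⟨u, v, huv⟩ := RatFunc.isCoprime_num_denom r
    have h3 := congrArg (Polynomial.eval a) huv
    rw [eval_add, eval_mul, eval_mul, h0, h2, mul_zero, mul_zero, add_zero, eval_one] at h3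
    exact zero_ne_one h3
  have h3 : rootMultiplicity a r.num = 0 := rootMultiplicity_eq_zero h2
  omega

private theorem EVE3_cop {r : RatFunc k} {a : k}
    (h : 1 ≤ (rootMultiplicity a r.num : ℤ) - rootMultiplicity a r.denom) : r.num.eval a = 0 := by
  by_contra h2
  have h3 : rootMultiplicity a r.num = 0 := rootMultiplicity_eq_zero h2
  omega

/-- a ramified point -/
private theorem EVE3_ram {w : Place k N} {x v : N} {a : k} (j : RatFunc k →+* N)
    (hj : ∀ p : k[X], j (algebraMap k[X] (RatFunc k) p) = aeval x p) (r : Fin 3 → RatFunc k)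
    (he : w.ord (x - algebraMap k N a) = 3) {ε : ℤ} (hε : ε = 1 ∨ ε = -1) (hv : w.ord v = ε)
    (hz : EVE3_ge w 0 (∑ l : Fin 3, j (r l) * v ^ (l : ℕ))) (l : Fin 3) (hl : r l ≠ 0) :
    0 ≤ 3 * ((rootMultiplicity a (r l).num : ℤ) - rootMultiplicity a (r l).denom) + (l : ℕ) * ε := by
  have hv0 : v ≠ 0 := by
    rintro rfl
    rw [w.ord_zero] at hv
    rcases hε with h | h <;> omega
  have hord : ∀ i : Fin 3, r i ≠ 0 → j (r i) * v ^ (i : ℕ) ≠ 0 ∧ w.ord (j (r i) * v ^ (i : ℕ)) =
      3 * ((rootMultiplicity a (r i).num : ℤ) - rootMultiplicity a (r i).denom) + (i : ℕ) * ε := by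
    intro i hi
    obtain ⟨h1, h2⟩ := EVE3_rat (w := w) (x := x) (a := a) (by rw [he]; norm_num) j hj hi
    refine ⟨mul_ne_zero h1 (pow_ne_zero _ hv0), ?_⟩
    rw [w.ord_mul _ _ h1 (pow_ne_zero _ hv0), w.ord_pow, h2, he, hv]
  have hne : ∀ i : Fin 3, j (r i) * v ^ (i : ℕ) ≠ 0 → r i ≠ 0 := by
    intro i hi h0
    rw [h0, map_zero, zero_mul] at hi
    exact hi rfl
  have h3 := EVE3_sep (w := w) (fun l : Fin 3 => j (r l) * v ^ (l : ℕ)) 0 hz (by
    intro i i' hii hi hi'
    rw [(hord i (hne i hi)).2, (hord i' (hne i' hi')).2]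
    have h5 : (i : ℕ) ≠ (i' : ℕ) := fun h => hii (Fin.ext h)
    have h6 := i.2
    have h7 := i'.2
    rcases hε with rfl | rfl <;> omega) l (hord l hl).1
  rwa [(hord l hl).2] at h3

/-- points at infinity -/
private theorem EVE3_inf {w : Place k N} {x v : N} {b : k} (hx : w.ord x = -1)
    (hv : w.Zer (v - algebraMap k N b)) (P : Fin 3 → k[X]) (s : ℕ)
    (hP : ∀ l, (P l).natDegree ≤ s) (hb : ∑ l : Fin 3, (P l).coeff s * b ^ (l : ℕ) ≠ 0) :
    w.ord (∑ l : Fin 3, aeval x (P l) * v ^ (l : ℕ)) = - (s : ℤ) := by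
  have hx0 : x ≠ 0 := by
    rintro rfl
    rw [w.ord_zero] at hx
    omega
  have hy : w.Zer (x⁻¹ - algebraMap k N 0) := by
    right
    rw [map_zero, sub_zero, w.ord_inv, hx]
    norm_num
  have hval : ∀ l : Fin 3, w.Zer (aeval x⁻¹ (reflect s (P l)) * v ^ (l : ℕ) -
      algebraMap k N ((P l).coeff s * b ^ (l : ℕ))) := by
    intro l
    have h1 := Place.val_aeval hy (reflect s (P l))
    have h2 : (reflect s (P l)).eval 0 = (P l).coeff s := by
      rw [← coeff_zero_eq_eval_zero, coeff_reflect, revAt_le (Nat.zero_le s), Nat.sub_zero]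
    rw [h2] at h1
    exact Place.val_mul h1 (Place.val_pow hv l)
  have hrefl : ∀ l : Fin 3, aeval x (P l) = x ^ s * aeval x⁻¹ (reflect s (P l)) := by
    intro l
    let _ : Invertible x := invertibleOfNonzero hx0
    have h1 := eval₂_reflect_mul_pow (algebraMap k N) x s (P l) (hP l)
    rw [aeval_def, aeval_def, ← h1, mul_comm, invOf_eq_inv]
  have hsum : ∑ l : Fin 3, aeval x (P l) * v ^ (l : ℕ) =
      x ^ s * ∑ l : Fin 3, aeval x⁻¹ (reflect s (P l)) * v ^ (l : ℕ) := by
    rw [Finset.mul_sum]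
    refine Finset.sum_congr rfl fun l _ => ?_
    rw [hrefl l, mul_assoc]
  have hZ : w.Zer (∑ l : Fin 3, aeval x⁻¹ (reflect s (P l)) * v ^ (l : ℕ) -
      algebraMap k N (∑ l : Fin 3, (P l).coeff s * b ^ (l : ℕ))) := by
    rw [Fin.sum_univ_three, Fin.sum_univ_three]
    exact Place.val_add (Place.val_add (hval 0) (hval 1)) (hval 2)
  have hne := Place.ne_zero_of_val hZ hb
  have ho := Place.ord_eq_zero_of_val hZ hb
  rw [hsum, w.ord_mul _ _ (pow_ne_zero _ hx0) hne, w.ord_pow, hx, ho]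
  ring

private theorem EVE3_const [IsAlgClosed k] {r : RatFunc k} (h : ∀ a : k, r.denom.eval a ≠ 0) :
    r = algebraMap k[X] (RatFunc k) r.num := by
  have h1 : r.denom.degree = 0 := by
    by_contra hne
    obtain ⟨a, ha⟩ := IsAlgClosed.exists_root r.denom hne
    exact h a ha
  have h2 : r.denom = 1 := by
    have h3 := (RatFunc.monic_denom r)
    exact (Monic.degree_le_zero_iff_eq_one h3).1 h1.le
  conv_lhs => rw [← RatFunc.num_div_denom r, h2, map_one, div_one]

end aux
section aux2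

variable {N : Type} [Field N] [Algebra k N]

/-- `v ^ m - v₀ ^ m` has the order of `v - v₀` -/
private theorem EVE3_pow [CharZero k] {w : Place k N} {v : N} {v₀ : k} (h0 : v₀ ≠ 0) {m : ℕ} (hm : m ≠ 0)
    (hv : w.Zer (v - algebraMap k N v₀)) (hne : v - algebraMap k N v₀ ≠ 0) :
    w.ord (v ^ m - algebraMap k N (v₀ ^ m)) = w.ord (v - algebraMap k N v₀) := by
  obtain ⟨q, hq⟩ : ∃ q : k[X], X ^ m - C (v₀ ^ m) = (X - C v₀) * q := by
    refine dvd_iff_isRoot.2 ?_
    simp [IsRoot.def]
  have hqe : q.eval v₀ = m * v₀ ^ (m - 1) := by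
    have h1 := congrArg (fun p : k[X] => (derivative p).eval v₀) hq
    simp only [derivative_sub, derivative_X_pow, derivative_C, derivative_mul, derivative_X, sub_zero, eval_add,
      eval_mul, eval_sub, eval_X, eval_C, sub_self, zero_mul, add_zero, one_mul, eval_pow, map_natCast,
      eval_natCast] at h1
    exact h1.symm
  have hq0 : q.eval v₀ ≠ 0 := by
    rw [hqe]
    exact mul_ne_zero (Nat.cast_ne_zero.2 hm) (pow_ne_zero _ h0)
  have h2 := Place.val_aeval hv q
  have h3 : v ^ m - algebraMap k N (v₀ ^ m) = (v - algebraMap k N v₀) * aeval v q := by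
    have h4 := congrArg (aeval v) hq
    simpa using h4
  rw [h3, w.ord_mul _ _ hne (Place.ne_zero_of_val h2 hq0), Place.ord_eq_zero_of_val h2 hq0, add_zero]

private theorem EVE3_not_neg {w : Place k N} {v : N} {v₀ : k} (hv : w.Zer (v - algebraMap k N v₀)) :
    ¬ w.ord v < 0 := by
  intro h1
  by_cases h0 : v₀ = 0
  · rw [h0, map_zero, sub_zero] at hv
    rcases hv with hv | hv
    · rw [hv, w.ord_zero] at h1
      exact lt_irrefl _ h1
    · omega
  · rw [Place.ord_eq_zero_of_val hv h0] at h1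
    exact lt_irrefl _ h1

/-- a pole: `v` and `v - δ` have the same order -/
private theorem EVE3_pole {w : Place k N} {v : N} (hv : w.ord v = -1) (d : k) :
    v - algebraMap k N d ≠ 0 ∧ w.ord (v - algebraMap k N d) = -1 := by
  have hv0 : v ≠ 0 := by
    rintro rfl
    rw [w.ord_zero] at hv
    omega
  by_cases hd : d = 0
  · rw [hd, map_zero, sub_zero]
    exact ⟨hv0, hv⟩
  have hd' : -algebraMap k N d ≠ 0 := neg_ne_zero.2 ((_root_.map_ne_zero _).2 hd)
  have ho : w.ord (-algebraMap k N d) = 0 := by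
    rw [w.ord_neg]
    exact Place.ord_eq_zero_of_val (Place.val_const d) hd
  have h1 := Place.ord_add_of_lt (v := w) hv0 hd' (by rw [hv, ho]; norm_num)
  rwa [← sub_eq_add_neg, hv] at h1

end aux2

theorem ev_glob [IsAlgClosed k] [CharZero k] {ω : k} (hω : IsPrimitiveRoot ω 3) {m : ℕ} (hm : 2 ≤ m) {α : k} (h0 : α ≠ 0)
    (h1 : α ^ 6 ≠ 1) {N : Type} [Field N] [Algebra k N] {x v y : N} (h : GenC (cov m ω α) x v) {κ δ : k} (hκ : κ ≠ 0)
    (hy : v = algebraMap k N κ * y + algebraMap k N δ) {z : N} (D : ℕ)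
    (hz : ∀ w : Place k N, (if w.ord v < 0 then -(D : ℤ) else 0) ≤ w.ord z) :
    ∃ g0 g1 g2 : k[X], g0.natDegree ≤ D ∧ (g1 = 0 ∨ g1.natDegree + m ≤ D) ∧ (g2 = 0 ∨ g2.natDegree + m ≤ D) ∧
      z = aeval y g0 + aeval y ((1 - (C κ * X + C δ) ^ m) * g1) * x +
        aeval y ((1 - (C κ * X + C δ) ^ m) * g2) * x ^ 2 := by

  have hc : (cov m ω α).Good := cov_good hω hm h0 h1
  have hcn : (cov m ω α).n = m := rfl
  have hm0 : m ≠ 0 := by omega
  have ht0 : α ^ 3 ≠ 0 := pow_ne_zero _ h0
  have ht6 : (α ^ 3) ^ 2 = α ^ 6 := by ring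
  have heq := cov_eq hω h
  obtain ⟨j, hj, hrep, -⟩ := ev_rep hω hm h0 h1 h hκ hy
  obtain ⟨r0, r1, r2, hzr⟩ := hrep z
  obtain ⟨ζ, hζ⟩ : ∃ ζ : k, IsPrimitiveRoot ζ m := by
    have : NeZero m := ⟨hm0⟩
    exact HasEnoughRootsOfUnity.exists_primitiveRoot k m
  have hζ' : IsPrimitiveRoot ζ (cov m ω α).n := hζ
  have hκN : algebraMap k N κ ≠ 0 := (_root_.map_ne_zero _).2 hκ
  let r : Fin 3 → RatFunc k := ![r0, r1, r2]
  have hsum : z = ∑ l : Fin 3, j (r l) * x ^ (l : ℕ) := by
    rw [Fin.sum_univ_three, hzr]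
    simp [r]
  -- `v - v₀ = κ (y - a)`
  have hvy : ∀ a : k, v - algebraMap k N (κ * a + δ) = algebraMap k N κ * (y - algebraMap k N a) := by
    intro a
    rw [hy, map_add, map_mul]
    ring
  have hordκ : ∀ w : Place k N, w.ord (algebraMap k N κ) = 0 := fun w =>
    Place.ord_eq_zero_of_val (Place.val_const κ) hκ
  have hordy : ∀ (w : Place k N) (a : k), y - algebraMap k N a ≠ 0 →
      w.ord (v - algebraMap k N (κ * a + δ)) = w.ord (y - algebraMap k N a) := by
    intro w a hne
    rw [hvy a, w.ord_mul _ _ hκN hne, hordκ, zero_add]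
  -- the ramified points
  have hram : ∀ (w : Place k N) (a : k), κ * a + δ ≠ 0 → w.Zer (v - algebraMap k N (κ * a + δ)) →
      w.ord (v ^ m - algebraMap k N ((κ * a + δ) ^ m)) = 3 → w.ord (y - algebraMap k N a) = 3 := by
    intro w a hv0 hz1 h3
    have hne : v - algebraMap k N (κ * a + δ) ≠ 0 := by
      intro h4
      rw [sub_eq_zero] at h4
      rw [h4, map_pow, sub_self, w.ord_zero] at h3
      omega
    have hne' : y - algebraMap k N a ≠ 0 := by
      intro h4
      rw [hvy a, h4, mul_zero] at hne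
      exact hne rfl
    rw [← hordy w a hne', ← EVE3_pow hv0 hm0 hz1 hne, h3]
  have hai : ∀ (a : k), (κ * a + δ) ^ m = α ^ 6 → ∀ l : Fin 3, r l ≠ 0 →
      0 ≤ 3 * ((rootMultiplicity a (r l).num : ℤ) - rootMultiplicity a (r l).denom) +
        (l : ℕ) * 1 := by
    intro a ha l hl
    have hv0 : κ * a + δ ≠ 0 := by
      intro h4
      rw [h4, zero_pow hm0] at ha
      exact pow_ne_zero 6 h0 ha.symm
    have hQ : OnC (cov m ω α) ((![some 0, some (κ * a + δ)] : Fin 2 → Option k) 0)
        ((![some 0, some (κ * a + δ)] : Fin 2 → Option k) 1) := by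
      show (κ * a + δ) ^ m * ∏ i', ((0 : k) - (cov m ω α).b i') = ∏ i', ((0 : k) - (cov m ω α).a i')
      have hA : ∏ i', ((0 : k) - (cov m ω α).a i') = 0 ^ 3 - α ^ 3 := cov_a hω m α k 0
      have hB : ∏ i', ((0 : k) - (cov m ω α).b i') = 0 ^ 3 - (α ^ 3)⁻¹ := cov_b hω m α k 0
      rw [hA, hB, ha]
      field_simp
      ring
    obtain ⟨w, ⟨hw1, hw2⟩, -, hw3, -, -, -, -⟩ := placeC hc hζ' h _ hQ
    have hx1 : w.ord x = 1 := by
      have h5 := hw3 0 (κ * a + δ) rfl rfl hv0
      rwa [map_zero, sub_zero] at h5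
    have hvz : w.Zer (v - algebraMap k N (κ * a + δ)) := LibCHd.red_iff_val.1 hw2
    have hx0 : x ≠ 0 := by
      rintro rfl
      rw [w.ord_zero] at hx1
      omega
    have h6 : w.ord (v ^ m - algebraMap k N ((κ * a + δ) ^ m)) = 3 := by
      have hxz : w.Zer (x - algebraMap k N 0) := by
        right
        rw [map_zero, sub_zero, hx1]
        norm_num
      have hb := Place.val_sub (Place.val_pow hxz 3) (Place.val_const (v := w) ((α ^ 3)⁻¹))
      have hbne : (0 : k) ^ 3 - (α ^ 3)⁻¹ ≠ 0 := by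
        rw [zero_pow (by norm_num), zero_sub]
        exact neg_ne_zero.2 (inv_ne_zero ht0)
      have h7 := Place.ord_eq_zero_of_val hb hbne
      have h8 := Place.ne_zero_of_val hb hbne
      have hc1 : (1 : k) - α ^ 6 ≠ 0 := sub_ne_zero.2 (Ne.symm h1)
      have hc1N : algebraMap k N (1 - α ^ 6) ≠ 0 := (_root_.map_ne_zero _).2 hc1
      have h9 : (v ^ m - algebraMap k N ((κ * a + δ) ^ m)) * (x ^ 3 - algebraMap k N ((α ^ 3)⁻¹)) =
          x ^ 3 * algebraMap k N (1 - α ^ 6) := by
        rw [ha, sub_mul, heq]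
        have h10 : algebraMap k N (α ^ 6) * algebraMap k N ((α ^ 3)⁻¹) = algebraMap k N (α ^ 3) := by
          rw [← map_mul]
          congr 1
          field_simp
        rw [mul_sub, h10, map_sub, map_one]
        ring
      have h10 : v ^ m - algebraMap k N ((κ * a + δ) ^ m) ≠ 0 := by
        intro h11
        rw [h11, zero_mul] at h9
        exact mul_ne_zero (pow_ne_zero _ hx0) hc1N h9.symm
      have h11 := congrArg w.ord h9
      rw [w.ord_mul _ _ h10 h8, w.ord_mul _ _ (pow_ne_zero _ hx0) hc1N, h7, w.ord_pow, hx1,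
        Place.ord_eq_zero_of_val (Place.val_const (v := w) (1 - α ^ 6)) hc1] at h11
      omega
    have hzw := hz w
    rw [if_neg (EVE3_not_neg hvz)] at hzw
    refine EVE3_ram (w := w) (x := y) (v := x) j hj r (hram w a hv0 hvz h6) (Or.inl rfl) hx1 ?_ l hl
    rw [← hsum]
    exact Or.inr hzw
  have hbi : ∀ (a : k), (κ * a + δ) ^ m = 1 → ∀ l : Fin 3, r l ≠ 0 →
      0 ≤ 3 * ((rootMultiplicity a (r l).num : ℤ) - rootMultiplicity a (r l).denom) +
        (l : ℕ) * (-1) := by
    intro a ha l hl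
    have hv0 : κ * a + δ ≠ 0 := by
      intro h4
      rw [h4, zero_pow hm0] at ha
      exact zero_ne_one ha
    have hQ : OnC (cov m ω α) ((![none, some (κ * a + δ)] : Fin 2 → Option k) 0)
        ((![none, some (κ * a + δ)] : Fin 2 → Option k) 1) := ha
    obtain ⟨w, ⟨hw1, hw2⟩, -, -, hw3, -, -, -⟩ := placeC hc hζ' h _ hQ
    have hx1 : w.ord x = -1 := hw3 rfl
    have hvz : w.Zer (v - algebraMap k N (κ * a + δ)) := LibCHd.red_iff_val.1 hw2
    have hx0 : x ≠ 0 := by
      rintro rfl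
      rw [w.ord_zero] at hx1
      omega
    have h6 : w.ord (v ^ m - algebraMap k N ((κ * a + δ) ^ m)) = 3 := by
      have hx3 : w.ord (x ^ 3) = -3 := by
        rw [w.ord_pow, hx1]
        norm_num
      have hcne : -algebraMap k N ((α ^ 3)⁻¹) ≠ 0 := neg_ne_zero.2 ((_root_.map_ne_zero _).2 (inv_ne_zero ht0))
      have hco : w.ord (-algebraMap k N ((α ^ 3)⁻¹)) = 0 := by
        rw [w.ord_neg]
        exact Place.ord_eq_zero_of_val (Place.val_const _) (inv_ne_zero ht0)
      have h7 : w.ord (x ^ 3 - algebraMap k N ((α ^ 3)⁻¹)) = -3 := by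
        have h8 := Place.ord_add_of_lt (v := w) (pow_ne_zero 3 hx0) hcne (by rw [hx3, hco]; norm_num)
        rw [← sub_eq_add_neg, hx3] at h8
        exact h8.2
      have h8 : x ^ 3 - algebraMap k N ((α ^ 3)⁻¹) ≠ 0 := by
        intro h9
        rw [h9, w.ord_zero] at h7
        omega
      have hc1 : (α ^ 3)⁻¹ - α ^ 3 ≠ 0 := by
        intro h9
        rw [sub_eq_zero] at h9
        apply h1
        rw [← ht6, pow_two]
        nth_rewrite 1 [← h9]
        exact inv_mul_cancel₀ ht0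
      have hc1N : algebraMap k N ((α ^ 3)⁻¹ - α ^ 3) ≠ 0 := (_root_.map_ne_zero _).2 hc1
      have h9 : (v ^ m - algebraMap k N ((κ * a + δ) ^ m)) * (x ^ 3 - algebraMap k N ((α ^ 3)⁻¹)) =
          algebraMap k N ((α ^ 3)⁻¹ - α ^ 3) := by
        rw [ha, sub_mul, heq, map_one, one_mul, map_sub]
        ring
      have h10 : v ^ m - algebraMap k N ((κ * a + δ) ^ m) ≠ 0 := by
        intro h11
        rw [h11, zero_mul] at h9
        exact hc1N h9.symm
      have h11 := congrArg w.ord h9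
      rw [w.ord_mul _ _ h10 h8, h7,
        Place.ord_eq_zero_of_val (Place.val_const (v := w) ((α ^ 3)⁻¹ - α ^ 3)) hc1] at h11
      omega
    have hzw := hz w
    rw [if_neg (EVE3_not_neg hvz)] at hzw
    refine EVE3_ram (w := w) (x := y) (v := x) j hj r (hram w a hv0 hvz h6) (Or.inr rfl) hx1 ?_ l hl
    rw [← hsum]
    exact Or.inr hzw
  -- all other points
  have hloc : ∀ (a : k) (l : Fin 3), (κ * a + δ) ^ m ≠ 1 → (κ * a + δ) ^ m ≠ α ^ 6 →
      (r l).denom.eval a ≠ 0 := by
    intro a l hA hB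
    have h4 := ev_loc hω hm h0 h1 h hκ hy j hj (r0 := r0) (r1 := r1) (r2 := r2) hA hB (by
      intro w hw
      have hw' : w.Zer (y - algebraMap k N a) := LibCHd.red_iff_val.1 hw
      have hvz : w.Zer (v - algebraMap k N (κ * a + δ)) := by
        by_cases hne : y - algebraMap k N a = 0
        · left
          rw [hvy a, hne, mul_zero]
        · right
          rw [hordy w a hne]
          rcases hw' with h5 | h5
          · exact absurd h5 hne
          · exact h5
      have hzw := hz w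
      rw [if_neg (EVE3_not_neg hvz)] at hzw
      rw [← hzr]
      exact Or.inr hzw)
    fin_cases l
    · exact h4.1
    · exact h4.2.1
    · exact h4.2.2
  have hden : ∀ (l : Fin 3) (a : k), (r l).denom.eval a ≠ 0 := by
    intro l a
    by_cases hl : r l = 0
    · rw [hl, RatFunc.denom_zero, eval_one]
      exact one_ne_zero
    by_cases hA : (κ * a + δ) ^ m = α ^ 6
    · have h5 := hai a hA l hl
      have h6 := l.2
      exact EVE3_den (by omega)
    by_cases hB : (κ * a + δ) ^ m = 1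
    · have h5 := hbi a hB l hl
      exact EVE3_den (by omega)
    exact hloc a l hB hA
  let P : Fin 3 → k[X] := fun l => (r l).num
  have hP : ∀ l, r l = algebraMap k[X] (RatFunc k) (P l) := fun l => EVE3_const (hden l)
  have hjP : ∀ l, j (r l) = aeval y (P l) := fun l => by rw [hP l, hj]
  have hsumP : z = ∑ l : Fin 3, aeval y (P l) * x ^ (l : ℕ) := by
    rw [hsum]
    exact Finset.sum_congr rfl fun l _ => by rw [hjP l]
  have hbinj : Function.Injective (cov m ω α).b := by
    intro i i' hii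
    have h7 := hc.inj (a₁ := Sum.inr i) (a₂ := Sum.inr i') hii
    exact Sum.inr.inj h7
  -- the degrees
  have hdeg : ∀ l, (P l).natDegree ≤ D := by
    by_contra hcon
    push Not at hcon
    obtain ⟨l₁, hl₁⟩ := hcon
    obtain ⟨l₀, hl₀⟩ := Finite.exists_max fun l => (P l).natDegree
    have hDlt : D < (P l₀).natDegree := hl₁.trans_le (hl₀ l₁)
    obtain ⟨i, hb⟩ : ∃ i : Fin 3,
        ∑ l : Fin 3, (P l).coeff (P l₀).natDegree * (cov m ω α).b i ^ (l : ℕ) ≠ 0 := by
      by_contra hno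
      push Not at hno
      let q : k[X] := ∑ l : Fin 3, C ((P l).coeff (P l₀).natDegree) * X ^ (l : ℕ)
      have hq0 : q = 0 := by
        refine eq_zero_of_natDegree_lt_card_of_eval_eq_zero q
          (f := fun i : Fin 3 => (cov m ω α).b i) hbinj ?_ ?_
        · intro i
          have h6 := hno i
          simpa [q, eval_finsetSum] using h6
        · rw [Fintype.card_fin]
          refine Nat.lt_succ_of_le (natDegree_sum_le_of_forall_le _ _ fun l _ => ?_)
          refine (natDegree_C_mul_X_pow_le _ _).trans ?_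
          have := l.2
          omega
      have h6 : q.coeff (l₀ : ℕ) = (P l₀).coeff (P l₀).natDegree := by
        simp only [q, finsetSum_coeff, coeff_C_mul_X_pow]
        rw [Finset.sum_eq_single l₀]
        · simp
        · intro l _ hl
          rw [if_neg]
          intro h7
          exact hl (Fin.ext h7.symm)
        · simp
      rw [hq0, coeff_zero, coeff_natDegree, eq_comm, leadingCoeff_eq_zero] at h6
      rw [h6, natDegree_zero] at hDlt
      exact absurd hDlt (Nat.not_lt_zero _)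
    have hQ : OnC (cov m ω α) ((![some ((cov m ω α).b i), none] : Fin 2 → Option k) 0)
        ((![some ((cov m ω α).b i), none] : Fin 2 → Option k) 1) := ⟨i, rfl⟩
    obtain ⟨w, ⟨hw1, hw2⟩, -, -, -, -, hw3, -⟩ := placeC hc hζ' h _ hQ
    obtain ⟨-, hv1⟩ := hw3 i rfl
    have hzw := hz w
    rw [if_pos (by rw [hv1]; norm_num)] at hzw
    have hxb : w.Zer (x - algebraMap k N ((cov m ω α).b i)) := LibCHd.red_iff_val.1 hw1
    obtain ⟨hp1, hp2⟩ := EVE3_pole hv1 δ
    have hy1 : w.ord y = -1 := by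
      have h7 : v - algebraMap k N δ = algebraMap k N κ * y := by
        rw [hy]
        ring
      have hy0 : y ≠ 0 := by
        intro h8
        rw [h7, h8, mul_zero] at hp1
        exact hp1 rfl
      rw [h7, w.ord_mul _ _ hκN hy0, hordκ, zero_add] at hp2
      exact hp2
    have h6 := EVE3_inf hy1 hxb P (P l₀).natDegree hl₀ hb
    rw [← hsumP] at h6
    omega
  -- divisibility
  let B : k[X] := 1 - (C κ * X + C δ) ^ m
  have hBeq : B = C (-1) * ((X ^ m - 1 : k[X]).comp (C κ * X + C δ)) := by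
    simp only [B, sub_comp, pow_comp, X_comp, one_comp, C_neg, C_1]
    ring
  have hlin : (C κ * X + C δ : k[X]).natDegree = 1 := natDegree_linear hκ
  have hBd : B.natDegree = m := by
    rw [hBeq, natDegree_C_mul (by norm_num), natDegree_comp, hlin, mul_one, ← C_1, natDegree_X_pow_sub_C]
  have hB0 : B ≠ 0 := by
    intro h6
    rw [h6, natDegree_zero] at hBd
    omega
  have hdvd : ∀ l : Fin 3, 0 < (l : ℕ) → ∃ g : k[X], P l = B * g := by
    intro l hl
    by_cases hr : r l = 0
    · refine ⟨0, ?_⟩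
      show (r l).num = _
      rw [hr, RatFunc.num_zero, mul_zero]
    have hsep : (X ^ m - 1 : k[X]) = ∏ ζ ∈ nthRootsFinset m (1 : k), (X - C ζ) :=
      X_pow_sub_one_eq_prod (by omega) hζ
    have h6 : B ∣ P l := by
      rw [hBeq, hsep, prod_comp]
      refine (isUnit_C.2 (by norm_num : IsUnit (-1 : k))).mul_left_dvd.2 ?_
      refine Finset.prod_dvd_of_coprime ?_ ?_
      · intro a _ b _ hab
        have h7 : IsCoprime (X - C a : k[X]) (X - C b) :=
          pairwise_coprime_X_sub_C (fun _ _ h => h : Function.Injective (id : k → k)) hab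
        exact h7.map (compRingHom (C κ * X + C δ))
      · intro a ha
        have ha1 : a ^ m = 1 := (mem_nthRootsFinset (by omega) 1).1 ha
        have h7 : (X - C a : k[X]).comp (C κ * X + C δ) = C κ * (X - C (κ⁻¹ * (a - δ))) := by
          rw [sub_comp, X_comp, C_comp, mul_sub, ← C_mul, mul_inv_cancel_left₀ hκ, C_sub]
          ring
        rw [h7]
        refine (isUnit_C.2 hκ.isUnit).mul_left_dvd.2 ?_
        rw [dvd_iff_isRoot]
        have h8 := hbi (κ⁻¹ * (a - δ)) (by
          rw [mul_inv_cancel_left₀ hκ, sub_add_cancel, ha1]) l hr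
        exact EVE3_cop (by omega)
    exact h6
  obtain ⟨g1, hg1⟩ := hdvd 1 (by simp)
  obtain ⟨g2, hg2⟩ := hdvd 2 (by simp)
  have hgd : ∀ (l : Fin 3) (g : k[X]), P l = B * g → g = 0 ∨ g.natDegree + m ≤ D := by
    intro l g hg
    by_cases hg0 : g = 0
    · exact Or.inl hg0
    · right
      have h6 := hdeg l
      rw [hg, natDegree_mul hB0 hg0, hBd] at h6
      omega
  refine ⟨P 0, g1, g2, hdeg 0, hgd 1 g1 hg1, hgd 2 g2 hg2, ?_⟩
  rw [hsumP, Fin.sum_univ_three, hg1, hg2]
  simp [B]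

end Pool.Agent.LibCW77
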