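import Pool.Agent.LibEV91.N1
import Pool.Agent.LibEV91.E1
import Pool.Agent.LibEV91.E2
import Pool.Agent.LibEV91.E3

/-!
[EV91 F0] MEDIUM: the core

`ev_rep` gives `j`; `ev_glob` with `D = card ι * M` (`hinf`, `hfin`) gives `g0 g1 g2` with `G = aeval y g0 + aeval y (Bq g1) x + aeval y (Bq g2) x ^ 2`, `Bq = 1 - (κ X + δ) ^ m = C ε * B`.
Apply `nfi` with `v := x`, `g_l := C ε * g_l` (`l = 1, 2`), `L = N`. `hv`: `x ^ 3 (1 - v ^ m) = α ^ 3 - α ^ (-3) v ^ m` (`cov_eq`), i.e. `C ε` times the claim, `ε ≠ 0` (the maps `j`, `aeval y` are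
compatible: `hj`; `aeval y (1 - (C κ * X + C δ) ^ m) = 1 - v ^ m` by `hy`). Degrees: `natDegree + m ≤ card ι * M` and `card ι + 1 ≤ m`. `hα`: for `i` put `z = G * ((x - b_i) ^ (3 M))⁻¹` and write
`z = j α0 + j α1 x + j α2 x ^ 2` (`ev_rep`). Let `c : O`, `rs O c = rs O (a i)`. `ev_loc` at `a := c`: (i) `(κ c + δ) ^ m ≠ 1`: `1 - (κ c + δ) ^ m = ε B(c)` and `rs O (B(c)) = rs O (B(a_i)) ≠ 0`
(evaluation commutes with `rs`: `Polynomial.eval₂_hom` / `eval_map`, `hom_eval₂`). (ii) `(κ c + δ) ^ m ≠ α ^ 6`: `α ^ 3 - α ^ (-3) (κ c + δ) ^ m = ε A(c) ≠ 0`. (iii) `w` with `Red w y c`: then `v` has the value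
`v₀ = κ c + δ` at `w`. `place_pt`: the point of `w` is `(x₀, v₀)` or `(∞, v₀)`. If `x₀ ≠ b_i` or `x₀ = ∞` then `w.ord (x - b_i) ≤ 0` and `0 ≤ w.ord G` (`hfin`). If `x₀ = b_i`:
`b_i ^ 3 (1 - v₀ ^ m) = α ^ 3 - α ^ (-3) v₀ ^ m` gives `b_i ^ 3 B(c) = A(c)`, and `b_i ^ 3 B(a_i) = A(a_i)`, so `A(c) B(a_i) - A(a_i) B(c) = 0`; it is `(c - a_i) U(c, a_i)` over `O`, with
`U(c, a_i)` congruent to `A'(a_i) B(a_i) - A(a_i) B'(a_i)`, a unit (`hW`); so `c = a_i`, and `hpt` gives `3 M ≤ w.ord G`; `w.ord (x - b_i) = 1` (`placeC`; if `v₀ = 0`, then `b_i` is an `a_l` of the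
curve and `w.ord (x - a_l) = n`... this does not occur: hypothesis `hv0`).
-/

open scoped Classical
open Polynomial

namespace Pool.Agent.LibCW77

open Pool.Agent.LibBH2
open Pool.Agent.LibCHd (VR RF Red FunF)

variable {k : Type} [Field k]

private theorem EVF0_ev {O : ValuationSubring k} (P : O[X]) {c a : O} (h : rs O c = rs O a) :
    rs O (P.eval c) = rs O (P.eval a) := by
  rw [← Polynomial.eval₂_hom, ← Polynomial.eval₂_hom, h]

private theorem EVF0_val {O : ValuationSubring k} (P : O[X]) (c : O) :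
    (P.map (algebraMap O k)).eval (c : k) = ((P.eval c : O) : k) := by
  show (P.map (algebraMap O k)).eval (algebraMap O k c) = algebraMap O k (P.eval c)
  rw [eval_map, Polynomial.eval₂_hom]

private theorem EVF0_ne {O : ValuationSubring k} {z : O} (h : rs O z ≠ 0) : (z : k) ≠ 0 := by
  intro h0
  apply h
  have : z = 0 := Subtype.ext h0
  rw [this, map_zero]

/-- two roots of `A(c) B(a) = A(a) B(c)` in the same residue class are equal -/
private theorem EVF0_root {O : ValuationSubring k} {A B : O[X]} {a c : O} (hc : rs O c = rs O a)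
    (hW : rs O ((derivative A * B - A * derivative B).eval a) ≠ 0)
    (h : A.eval c * B.eval a = A.eval a * B.eval c) : c = a := by
  have hroot : (A * C (B.eval a) - C (A.eval a) * B).IsRoot a := by
    rw [IsRoot.def]
    simp
  obtain ⟨U, hU⟩ := dvd_iff_isRoot.2 hroot
  have hUa : U.eval a = (derivative A * B - A * derivative B).eval a := by
    have h6 := congrArg (fun P => eval a (derivative P)) hU
    simp only [derivative_sub, derivative_mul, derivative_C, mul_zero, add_zero, zero_mul, zero_add,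
      derivative_X, sub_zero, one_mul, eval_sub, eval_mul, eval_C, eval_add, eval_X, sub_self] at h6
    simp only [eval_mul, eval_sub]
    exact h6.symm
  have hUc : ((U.eval c : O) : k) ≠ 0 := by
    apply EVF0_ne
    rw [EVF0_ev U hc, hUa]
    exact hW
  have h7 := congrArg (fun P => eval c P) hU
  simp only [eval_sub, eval_mul, eval_C, eval_X] at h7
  rw [h, sub_self] at h7
  have h8 : ((c : k) - (a : k)) * ((U.eval c : O) : k) = 0 := by
    have := congrArg (fun z : O => (z : k)) h7.symm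
    simpa using this
  rcases mul_eq_zero.1 h8 with h9 | h9
  · exact Subtype.ext (sub_eq_zero.1 h9)
  · exact absurd h9 hUc

private theorem EVF0_prim [IsAlgClosed k] [CharZero k] {m : ℕ} (hm : 2 ≤ m) :
    ∃ ζ : k, IsPrimitiveRoot ζ m := by
  have : NeZero ((m : ℕ) : k) := ⟨by exact_mod_cast (by omega : m ≠ 0)⟩
  have : NeZero m := ⟨by omega⟩
  exact HasEnoughRootsOfUnity.exists_primitiveRoot k m

/-- the local statement at a place -/
private theorem EVF0_reg [IsAlgClosed k] [CharZero k] {ω : k} (hω : IsPrimitiveRoot ω 3) {m : ℕ}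
    (hm : 2 ≤ m) {α : k} (h0 : α ≠ 0)
    (h1 : α ^ 6 ≠ 1) {N : Type} [Field N] [Algebra k N] {x v : N} (h : GenC (cov m ω α) x v) {κ δ ε : k}
    {O : ValuationSubring k} {A B : O[X]}
    (hε : ε ≠ 0) (hB : C ε * B.map (algebraMap O k) = 1 - (C κ * X + C δ) ^ m)
    (hA : C ε * A.map (algebraMap O k) = C (α ^ 3) - C ((α ^ 3)⁻¹) * (C κ * X + C δ) ^ m)
    (a b : O) (hW : rs O ((derivative A * B - A * derivative B).eval a) ≠ 0)
    (hb : b ^ 3 * B.eval a = A.eval a) (hv0 : κ * (a : k) + δ ≠ 0) {M : ℕ} {G : N}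
    (hG : G ≠ 0) (hfin : ∀ w : Place k N, 0 ≤ w.ord v → 0 ≤ w.ord G)
    (hpt : ∀ w : Place k N, Red w x (algebraMap k (RF w) (b : k)) →
      Red w v (algebraMap k (RF w) (κ * (a : k) + δ)) → 3 * (M : ℤ) ≤ w.ord G)
    (hxb : x - algebraMap k N (b : k) ≠ 0) {c : O} (hc : rs O c = rs O a) (w : Place k N)
    (hv : Red w v (algebraMap k (RF w) (κ * (c : k) + δ))) :
    0 ≤ w.ord (G * ((x - algebraMap k N (b : k)) ^ (3 * M))⁻¹) := by
  have hgood := cov_good hω hm h0 h1
  have e1 : w.ord (G * ((x - algebraMap k N (b : k)) ^ (3 * M))⁻¹) =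
      w.ord G - ((3 * M : ℕ) : ℤ) * w.ord (x - algebraMap k N (b : k)) := by
    rw [w.ord_mul _ _ hG (inv_ne_zero (pow_ne_zero _ hxb)), w.ord_inv, w.ord_pow]
    ring
  rw [e1]
  have hvr : 0 ≤ w.ord v := by
    rcases hv.reg with h2 | h2
    · rw [h2, w.ord_zero]
    · exact h2
  have hGw := hfin w hvr
  have hM0 : (0 : ℤ) ≤ ((3 * M : ℕ) : ℤ) := Int.natCast_nonneg _
  obtain ⟨Q, hQ, hQx, hQv⟩ := place_pt hgood h w
  obtain ⟨P, hP⟩ : ∃ P, P = Q 0 := ⟨_, rfl⟩
  obtain ⟨R, hR⟩ : ∃ R, R = Q 1 := ⟨_, rfl⟩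
  rw [← hP] at hQ hQx
  rw [← hR] at hQ hQv
  rcases P with _ | x₀
  · have h2 : w.ord x < 0 := hQx
    have h3 : w.ord (x - algebraMap k N (b : k)) ≤ 0 := by
      by_contra h4
      rw [not_le] at h4
      have h5 : w.Reg x := by
        have h6 : w.Zer (x - algebraMap k N (b : k)) := Or.inr h4
        exact Place.reg_of_val h6
      rcases h5 with h5 | h5
      · rw [h5, w.ord_zero] at h2
        exact lt_irrefl _ h2
      · omega
    have := mul_nonpos_of_nonneg_of_nonpos hM0 h3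
    linarith
  · have hx₀ : Red w x (algebraMap k (RF w) x₀) := hQx
    rcases R with _ | v₀
    · exact absurd (show w.ord v < 0 from hQv) (not_lt.2 hvr)
    have hv₀ : Red w v (algebraMap k (RF w) v₀) := hQv
    have hvv : v₀ = κ * (c : k) + δ := (algebraMap k (RF w)).injective (hv₀.unique hv)
    by_cases hxx : x₀ = (b : k)
    · -- the point over `b`
      have h2 : v₀ ^ m * (x₀ ^ 3 - (α ^ 3)⁻¹) = x₀ ^ 3 - α ^ 3 := by
        have h3 : v₀ ^ m * ∏ i, (x₀ - (cov m ω α).b i) = ∏ i, (x₀ - (cov m ω α).a i) := hQ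
        have h4 := cov_a hω m α k x₀
        have h5 := cov_b hω m α k x₀
        have h6 : ∏ i, (x₀ - (cov m ω α).a i) = x₀ ^ 3 - α ^ 3 := h4
        have h7 : ∏ i, (x₀ - (cov m ω α).b i) = x₀ ^ 3 - (α ^ 3)⁻¹ := h5
        rw [h6, h7] at h3
        exact h3
      have hBc : ε * ((B.eval c : O) : k) = 1 - v₀ ^ m := by
        have h3 := congrArg (fun P => eval (c : k) P) hB
        simp only [eval_mul, eval_C, eval_sub, eval_one, eval_pow, eval_add, eval_X] at h3
        rw [EVF0_val] at h3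
        rw [h3, hvv]
      have hAc : ε * ((A.eval c : O) : k) = α ^ 3 - (α ^ 3)⁻¹ * v₀ ^ m := by
        have h3 := congrArg (fun P => eval (c : k) P) hA
        simp only [eval_mul, eval_C, eval_sub, eval_pow, eval_add, eval_X] at h3
        rw [EVF0_val] at h3
        rw [h3, hvv]
      have hcA : b ^ 3 * B.eval c = A.eval c := by
        apply Subtype.ext
        show (b : k) ^ 3 * ((B.eval c : O) : k) = ((A.eval c : O) : k)
        apply mul_left_cancel₀ hε
        rw [hAc, ← hxx]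
        linear_combination x₀ ^ 3 * hBc - h2
      have hca : c = a := by
        apply EVF0_root hc hW
        rw [← hb, ← hcA]
        ring
      have h3 : 3 * (M : ℤ) ≤ w.ord G := by
        apply hpt w
        · rw [← hxx]
          exact hx₀
        · rw [← hca]
          exact hv
      obtain ⟨ζ, hζ⟩ := EVF0_prim (k := k) hm
      obtain ⟨w', -, -, h4, -, -, -, h5⟩ := placeC hgood (ζ := ζ) hζ h ![some x₀, some v₀] hQ
      have hww : w = w' := h5 w hx₀ hv₀
      have h6 : w.ord (x - algebraMap k N (b : k)) = 1 := by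
        rw [hww, ← hxx]
        refine h4 x₀ v₀ rfl rfl ?_
        rw [hvv, hca]
        exact hv0
      rw [h6]
      push_cast
      linarith
    · have h2 : w.ord (x - algebraMap k N (b : k)) = 0 := by
        have h3 := hx₀.sub (LibCHd.red_const w (b : k))
        refine h3.ord_eq_zero ?_
        rw [← map_sub, _root_.map_ne_zero]
        exact sub_ne_zero.2 hxx
      rw [h2]
      linarith

theorem ev_core [IsAlgClosed k] [CharZero k] {ω : k} (hω : IsPrimitiveRoot ω 3) {m : ℕ} {α : k} (h0 : α ≠ 0)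
    (h1 : α ^ 6 ≠ 1) {N : Type} [Field N] [Algebra k N] {x v y : N} (h : GenC (cov m ω α) x v) {κ δ ε : k} (hκ : κ ≠ 0)
    (hy : v = algebraMap k N κ * y + algebraMap k N δ) {O : ValuationSubring k} (h3 : rs O 3 = 0) {A B : O[X]}
    (hε : ε ≠ 0) (hB : C ε * B.map (algebraMap O k) = 1 - (C κ * X + C δ) ^ m)
    (hA : C ε * A.map (algebraMap O k) = C (α ^ 3) - C ((α ^ 3)⁻¹) * (C κ * X + C δ) ^ m) {ι : Type} [Fintype ι]
    [Nonempty ι] (hcard : Fintype.card ι + 1 ≤ m) (a b : ι → O) (ha : ∀ i i', rs O (a i) = rs O (a i') → i = i')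
    (hA0 : ∀ i, rs O (A.eval (a i)) ≠ 0) (hB0 : ∀ i, rs O (B.eval (a i)) ≠ 0)
    (hW : ∀ i, rs O ((derivative A * B - A * derivative B).eval (a i)) ≠ 0)
    (hb : ∀ i, b i ^ 3 * B.eval (a i) = A.eval (a i)) (hv0 : ∀ i, κ * (a i : k) + δ ≠ 0) {M : ℕ} (hM : 0 < M) {G : N}
    (hG : G ≠ 0) (hinf : ∀ w : Place k N, w.ord v < 0 → -((Fintype.card ι * M : ℕ) : ℤ) ≤ w.ord G)
    (hfin : ∀ w : Place k N, 0 ≤ w.ord v → 0 ≤ w.ord G)
    (hpt : ∀ i, ∀ w : Place k N, Red w x (algebraMap k (RF w) (b i : k)) →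
      Red w v (algebraMap k (RF w) (κ * (a i : k) + δ)) → 3 * (M : ℤ) ≤ w.ord G) : False := by
  have hcard0 : 0 < Fintype.card ι := Fintype.card_pos
  have hm : 2 ≤ m := by omega
  obtain ⟨j, hj, hrep, hu⟩ := ev_rep hω hm h0 h1 h hκ hy
  obtain ⟨g0, g1, g2, hd0, hd1, hd2, hGe⟩ := ev_glob hω hm h0 h1 h hκ hy (z := G) (Fintype.card ι * M) (by
    intro w
    split_ifs with hw
    · exact hinf w hw
    · exact hfin w (not_lt.1 hw))
  have hxb : ∀ i, x - algebraMap k N (b i : k) ≠ 0 := by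
    intro i h2
    exact h.tr (by rw [sub_eq_zero.1 h2]; exact isAlgebraic_algebraMap _)
  have hjC : ∀ c : k, j (RatFunc.C c) = algebraMap k N c := by
    intro c
    rw [← RatFunc.algebraMap_C, hj, aeval_C]
  have hvB : algebraMap k N ε * aeval y (B.map (algebraMap O k)) = 1 - v ^ m := by
    have h2 := congrArg (fun P => aeval y P) hB
    simp only [map_mul, aeval_C, map_sub, map_one, map_pow, map_add, aeval_X] at h2
    rw [h2, hy]
  have hvA : algebraMap k N ε * aeval y (A.map (algebraMap O k)) =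
      algebraMap k N (α ^ 3) - algebraMap k N ((α ^ 3)⁻¹) * v ^ m := by
    have h2 := congrArg (fun P => aeval y P) hA
    simp only [map_mul, aeval_C, map_sub, map_pow, map_add, aeval_X] at h2
    rw [h2, hy, map_pow]
  have hεN : algebraMap k N ε ≠ 0 := by
    rw [_root_.map_ne_zero]
    exact hε
  have hdeg : ∀ p : k[X], (p = 0 ∨ p.natDegree + m ≤ Fintype.card ι * M) →
      (C ε * p = 0 ∨ (C ε * p).natDegree + Fintype.card ι + 1 ≤ Fintype.card ι * M) := by
    rintro p (hp | hp)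
    · left
      rw [hp, mul_zero]
    · right
      have h2 : (C ε * p).natDegree ≤ p.natDegree := natDegree_C_mul_le ε p
      omega
  refine nfi (O := O) h3 a b ha hA0 hB0 hW hb j (v := x) ?_ hu hM (g0 := g0) (g1 := C ε * g1)
    (g2 := C ε * g2) hd0 (hdeg g1 hd1) (hdeg g2 hd2) hG ?_ ?_
  · rw [hj, hj]
    apply mul_left_cancel₀ hεN
    have h2 := cov_eq hω h
    linear_combination x ^ 3 * hvB - hvA - h2
  · have e1 : ∀ g : k[X], B.map (algebraMap O k) * (C ε * g) = (1 - (C κ * X + C δ) ^ m) * g := by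
      intro g
      rw [← hB]
      ring
    rw [hj, hj, hj, e1, e1]
    exact hGe
  · intro i
    obtain ⟨α0, α1, α2, hz⟩ := hrep (G * ((x - algebraMap k N (b i : k)) ^ (3 * M))⁻¹)
    refine ⟨α0, α1, α2, ?_, ?_⟩
    · rw [← hz, hjC, mul_assoc, inv_mul_cancel₀ (pow_ne_zero _ (hxb i)), mul_one]
    · intro c hc
      have hBc : (κ * (c : k) + δ) ^ m ≠ 1 := by
        intro h2
        have h4 := congrArg (fun P => eval (c : k) P) hB
        simp only [eval_mul, eval_C, eval_sub, eval_one, eval_pow, eval_add, eval_X] at h4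
        rw [EVF0_val, h2, sub_self] at h4
        have h5 : ((B.eval c : O) : k) ≠ 0 := by
          apply EVF0_ne
          rw [EVF0_ev B hc]
          exact hB0 i
        exact mul_ne_zero hε h5 h4
      have hAc : (κ * (c : k) + δ) ^ m ≠ α ^ 6 := by
        intro h2
        have h4 := congrArg (fun P => eval (c : k) P) hA
        simp only [eval_mul, eval_C, eval_sub, eval_pow, eval_add, eval_X] at h4
        rw [EVF0_val, h2] at h4
        have h5 : ((A.eval c : O) : k) ≠ 0 := by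
          apply EVF0_ne
          rw [EVF0_ev A hc]
          exact hA0 i
        have h6 : α ^ 3 - (α ^ 3)⁻¹ * α ^ 6 = 0 := by
          field_simp
          ring
        rw [h6] at h4
        exact mul_ne_zero hε h5 h4
      refine ev_loc hω hm h0 h1 h hκ hy j hj hBc hAc ?_
      intro w hw
      rw [← hz]
      refine Or.inr (EVF0_reg hω hm h0 h1 h hε hB hA (a i) (b i) (hW i) (hb i) (hv0 i) hG hfin
        (hpt i) (hxb i) hc w ?_)
      rw [hy, map_add, map_mul]
      exact ((LibCHd.red_const w κ).mul hw).add (LibCHd.red_const w δ)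

end Pool.Agent.LibCW77
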