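import Pool.Agent.LibEV91.Defs
import Pool.Agent.LibCW77.FGDefs

/-!
The map to the elliptic curve `Er r`, `r = 1 / R`, for `x ^ 3 + z ^ 3 = R (1 + x ^ 3 z ^ 3)`: definitions.
-/

open scoped Classical
open Polynomial WeierstrassCurve

namespace Pool.Agent.LibCW77

open Pool.Agent.LibBH2
open Pool.Agent.LibCHd (VR RF Red FunF)

variable {k : Type} [Field k]

/-- `c p / (p - 1) ^ 2`, `p = x z`, `c = 4 (1 - r ^ 2)` -/
noncomputable def mX (r : k) {N : Type} [Field N] [Algebra k N] (x z : N) : N :=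
  algebraMap k N (cE r) * (x * z) / (x * z - 1) ^ 2

/-- `c r (z ^ 3 - x ^ 3) / (p - 1) ^ 3`, `p = x z` -/
noncomputable def mY (r : k) {N : Type} [Field N] [Algebra k N] (x z : N) : N :=
  algebraMap k N (cE r * r) * (z ^ 3 - x ^ 3) / (x * z - 1) ^ 3

end Pool.Agent.LibCW77
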