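import Pool.Agent.LibEV91.G0
import Pool.Agent.LibCW77.FG1

/-!
[EV91 G1] SHORT: the point `(mX, mY)` of the elliptic curve `Er R⁻¹` over `N`

`mpt_eq`: with `p = x z`, `r = R⁻¹`, `c = 4 (1 - r ^ 2)`: `(z ^ 3 - x ^ 3) ^ 2 = (x ^ 3 + z ^ 3) ^ 2 - 4 p ^ 3 = R ^ 2 (1 + p ^ 3) ^ 2 - 4 p ^ 3`; multiply by `c ^ 2 r ^ 2 / (p - 1) ^ 6`:
`mY ^ 2 = (c ^ 2 (1 + p ^ 3) ^ 2 - 4 c ^ 2 r ^ 2 p ^ 3) / (p - 1) ^ 6`, and `mX ^ 3 + (3 mX + c) ^ 2 = (c ^ 3 p ^ 3 + c ^ 2 (p ^ 2 + p + 1) ^ 2 (p - 1) ^ 2) / (p - 1) ^ 6`; the difference of the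
numerators is `c ^ 2 p ^ 3 (4 - 4 r ^ 2 - c) = 0` (`(p ^ 2 + p + 1)(p - 1) = p ^ 3 - 1`, `(1 + p ^ 3) ^ 2 - (p ^ 3 - 1) ^ 2 = 4 p ^ 3`). `mpt`: as `fg_pt` in FG1.lean (`Er r` is nonsingular:
`er_ell`, or `fe_ns` over `N`; `R⁻¹ ≠ 0`, `R⁻¹ ^ 2 ≠ 1`).
-/

open scoped Classical
open Polynomial WeierstrassCurve

namespace Pool.Agent.LibCW77

open Pool.Agent.LibBH2
open Pool.Agent.LibCHd (VR RF Red FunF)

variable {k : Type} [Field k]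

private theorem EVG1_map {N : Type} [Field N] [Algebra k N] (r : k) :
    algebraMap k N (cE r) = 4 * (1 - (algebraMap k N r) ^ 2) := by
  simp [cE, map_ofNat]

theorem mpt_eq {N : Type} [Field N] [Algebra k N] {x z : N} {R : k} (hR : R ≠ 0)
    (h : x ^ 3 + z ^ 3 = algebraMap k N R * (1 + x ^ 3 * z ^ 3)) (h1 : x * z ≠ 1) :
    mY R⁻¹ x z ^ 2 = mX R⁻¹ x z ^ 3 + (3 * mX R⁻¹ x z + algebraMap k N (cE R⁻¹)) ^ 2 := by
  have hD : x * z - 1 ≠ 0 := sub_ne_zero.2 h1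
  have hc := EVG1_map (N := N) R⁻¹
  have hR' : algebraMap k N R ≠ 0 := (map_ne_zero (algebraMap k N)).mpr hR
  have hrel : algebraMap k N R⁻¹ * (x ^ 3 + z ^ 3) = 1 + (x * z) ^ 3 := by
    rw [h, map_inv₀, ← mul_assoc, inv_mul_cancel₀ hR', one_mul]
    ring
  unfold mX mY
  rw [map_mul]
  set r := algebraMap k N R⁻¹ with hr
  set c := algebraMap k N (cE R⁻¹) with hcd
  have e1 : (c * r * (z ^ 3 - x ^ 3) / (x * z - 1) ^ 3) ^ 2 =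
      (c ^ 2 * r ^ 2 * (z ^ 3 - x ^ 3) ^ 2) / (x * z - 1) ^ 6 := by
    field_simp
  have e2 : (c * (x * z) / (x * z - 1) ^ 2) ^ 3 + (3 * (c * (x * z) / (x * z - 1) ^ 2) + c) ^ 2 =
      (c ^ 3 * (x * z) ^ 3 + c ^ 2 * ((x * z) ^ 2 + x * z + 1) ^ 2 * (x * z - 1) ^ 2) / (x * z - 1) ^ 6 := by
    field_simp
    ring
  rw [e1, e2]
  congr 1
  linear_combination c ^ 2 * (r * (x ^ 3 + z ^ 3) + (1 + (x * z) ^ 3)) * hrel - c ^ 2 * (x * z) ^ 3 * hc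

theorem mpt [CharZero k] {N : Type} [Field N] [Algebra k N] {x z : N} {R : k} (hR : R ≠ 0) (hR2 : R ^ 2 ≠ 1)
    (h : x ^ 3 + z ^ 3 = algebraMap k N R * (1 + x ^ 3 * z ^ 3)) (h1 : x * z ≠ 1) :
    ((Er R⁻¹)⁄N).toAffine.Nonsingular (mX R⁻¹ x z) (mY R⁻¹ x z) := by
  haveI : CharZero N := charZero_of_injective_algebraMap (algebraMap k N).injective
  have hR0 : algebraMap k N R⁻¹ ≠ 0 := (map_ne_zero (algebraMap k N)).mpr (inv_ne_zero hR)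
  have hR1 : (algebraMap k N R⁻¹) ^ 2 ≠ 1 := by
    intro h3
    apply hR2
    have h4 : (R⁻¹) ^ 2 = 1 := by
      apply (algebraMap k N).injective
      rw [map_pow, map_one]
      exact h3
    rw [inv_pow, inv_eq_one] at h4
    exact h4
  have hbc : ((Er R⁻¹)⁄N) = Er (algebraMap k N R⁻¹) := by
    ext <;> simp [Er, map_ofNat]
  rw [hbc]
  apply fe_ns hR0 hR1
  have hc : algebraMap k N (cE R⁻¹) = cE (algebraMap k N R⁻¹) := by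
    simp [cE, map_ofNat]
  rw [← hc]
  exact mpt_eq hR h h1

end Pool.Agent.LibCW77
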