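import Pool.Agent.LibEV91.G1
import Pool.Agent.LibCW77.FG2
import Pool.Agent.LibCW77.FE2

/-!
[EV91 G2] MEDIUM: the values of the point `(mX, mY)` (model: `FG2_key`, `fg_ev0` in CW77 FG2.lean)

`r = R⁻¹`, `c = cE r`. `mev_one`: `x`, `z` have the values `-1`, `1`: `p = x z` has the value `-1`, `mX` the value `- c / 4 = r ^ 2 - 1`, `mY` the value `2 c r / (-8) = r (r ^ 2 - 1)`.
The point `(r ^ 2 - 1, r (r ^ 2 - 1))` is nonsingular (`fe_2B`, `fe_B`; or `fe_ns`). `mev_zero`: `z` has the value `0`, `x` the value `x₀`, `x₀ ^ 3 = R`: `mX = 0`, `mY` has the value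
`c r (- R) / (-1) = c`. `mev_inf`: `w.ord z < 0`: `z⁻¹` has the value `0` and `x` the value `x₀`, `x₀ ^ 3 = r`: `mX = c x z⁻¹ / (x - z⁻¹) ^ 2` has the value `0`,
`mY = c r (1 - x ^ 3 z⁻¹ ^ 3) / (x - z⁻¹) ^ 3` has the value `c r / x₀ ^ 3 = c`. `(0, c)` is nonsingular by `fe_ns`.
-/

open scoped Classical
open Polynomial WeierstrassCurve

namespace Pool.Agent.LibCW77

open Pool.Agent.LibBH2
open Pool.Agent.LibCHd (VR RF Red FunF)
open Pool.Agent.LibCV66 (Geo Vl tot rd)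

variable {k : Type} [Field k]

private theorem EVG2_core {r : k} {N : Type} [Field N] [Algebra k N] {X Y : N}
    [(Er r).IsElliptic] (hP : ((Er r)⁄N).toAffine.Nonsingular X Y) (p : Geo k N k) {a b : k}
    (h1 : Red p.1 X (algebraMap k (RF p.1) a)) (h3 : Red p.1 Y (algebraMap k (RF p.1) b))
    (hA : (Er r).Nonsingular a b) :
    LibCV66.ev p (.some _ _ hP : ((Er r)⁄N).toAffine.Point) =
      constPt k (.some _ _ hA : (Er r).toAffine.Point) := by
  have h4 : Pool.Agent.LibCHd.SpR p.1 (.some _ _ hP : ((Er r)⁄N).toAffine.Point)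
      (constPt (RF p.1) (.some _ _ hA : (Er r).toAffine.Point)) := ⟨h1, h3⟩
  rw [LibCV66.ev_apply, LibCV66.rd_eq h4]
  obtain ⟨h5, h6⟩ := Pool.Agent.LibCHd.mp_some (W := Er r) p.2
    (algebraMap k (RF p.1) a) (algebraMap k (RF p.1) b)
    ((WeierstrassCurve.Affine.map_nonsingular (Er r) (algebraMap k (RF p.1)).injective a b).2 hA)
  refine h6.trans ?_
  have ea : p.2 (algebraMap k (RF p.1) a) = algebraMap k k a := p.2.commutes a
  have eb : p.2 (algebraMap k (RF p.1) b) = algebraMap k k b := p.2.commutes b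
  simp only [constPt]
  congr 1

private theorem EVG2_fin {r : k} {N : Type} [Field N] [Algebra k N] {x z : N} {w : Place k N}
    {x0 z0 a b : k} (hx : Red w x (algebraMap k (RF w) x0)) (hz : Red w z (algebraMap k (RF w) z0))
    (hs : x0 * z0 - 1 ≠ 0) (ha : a = cE r * (x0 * z0) / (x0 * z0 - 1) ^ 2)
    (hb : b = cE r * r * (z0 ^ 3 - x0 ^ 3) / (x0 * z0 - 1) ^ 3) :
    Red w (mX r x z) (algebraMap k (RF w) a) ∧ Red w (mY r x z) (algebraMap k (RF w) b) := by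
  have hp := hx.mul hz
  have hd := hp.sub (Pool.Agent.LibCHd.red_one w)
  have hs' : algebraMap k (RF w) x0 * algebraMap k (RF w) z0 - 1 ≠ 0 := by
    rw [← map_mul, ← map_one (algebraMap k (RF w)), ← map_sub]
    exact (map_ne_zero_iff _ (algebraMap k (RF w)).injective).2 hs
  constructor
  · have h2 := ((Pool.Agent.LibCHd.red_const w (cE r)).mul hp).div (hd.pow 2) (pow_ne_zero _ hs')
    have e : algebraMap k (RF w) a = algebraMap k (RF w) (cE r) *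
        (algebraMap k (RF w) x0 * algebraMap k (RF w) z0) /
          (algebraMap k (RF w) x0 * algebraMap k (RF w) z0 - 1) ^ 2 := by
      rw [ha]
      simp only [map_mul, map_div₀, map_pow, map_sub, map_one]
    rw [e]
    exact h2
  · have h2 := ((Pool.Agent.LibCHd.red_const w (cE r * r)).mul ((hz.pow 3).sub (hx.pow 3))).div
      (hd.pow 3) (pow_ne_zero _ hs')
    have e : algebraMap k (RF w) b = algebraMap k (RF w) (cE r * r) *
        (algebraMap k (RF w) z0 ^ 3 - algebraMap k (RF w) x0 ^ 3) /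
          (algebraMap k (RF w) x0 * algebraMap k (RF w) z0 - 1) ^ 3 := by
      rw [hb]
      simp only [map_mul, map_div₀, map_pow, map_sub, map_one]
    rw [e]
    exact h2

private theorem EVG2_inf {r : k} {N : Type} [Field N] [Algebra k N] {x z : N} {w : Place k N}
    {x0 b : k} (hx : Red w x (algebraMap k (RF w) x0)) (hz : w.ord z < 0)
    (hs : x0 ≠ 0) (hb : b = cE r * r / x0 ^ 3) :
    Red w (mX r x z) (algebraMap k (RF w) 0) ∧ Red w (mY r x z) (algebraMap k (RF w) b) := by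
  have hz0 : z ≠ 0 := by
    rintro rfl
    rw [w.ord_zero] at hz
    exact lt_irrefl _ hz
  have h1 : Red w z⁻¹ 0 := Pool.Agent.LibCHd.red_zero_iff.2 (Or.inr (by rw [w.ord_inv]; omega))
  have hd := hx.sub h1
  have hs' : algebraMap k (RF w) x0 - 0 ≠ 0 := by
    rw [sub_zero]
    exact (map_ne_zero_iff _ (algebraMap k (RF w)).injective).2 hs
  have hxz : x * z - 1 = (x - z⁻¹) * z := by
    field_simp
  constructor
  · have h2 := ((Pool.Agent.LibCHd.red_const w (cE r)).mul (hx.mul h1)).div (hd.pow 2)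
      (pow_ne_zero _ hs')
    have e : mX r x z = algebraMap k N (cE r) * (x * z⁻¹) / (x - z⁻¹) ^ 2 := by
      have e1 : algebraMap k N (cE r) * (x * z) = algebraMap k N (cE r) * (x * z⁻¹) * z ^ 2 := by
        field_simp
      unfold mX
      rw [hxz, mul_pow, e1, mul_div_mul_right _ _ (pow_ne_zero 2 hz0)]
    rw [e, map_zero]
    simpa using h2
  · have h2 := ((Pool.Agent.LibCHd.red_const w (cE r * r)).mul
      ((Pool.Agent.LibCHd.red_one w).sub ((hx.pow 3).mul (h1.pow 3)))).div (hd.pow 3)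
      (pow_ne_zero _ hs')
    have e : mY r x z = algebraMap k N (cE r * r) * (1 - x ^ 3 * z⁻¹ ^ 3) / (x - z⁻¹) ^ 3 := by
      have e1 : algebraMap k N (cE r * r) * (z ^ 3 - x ^ 3) =
          algebraMap k N (cE r * r) * (1 - x ^ 3 * z⁻¹ ^ 3) * z ^ 3 := by
        field_simp
      unfold mY
      rw [hxz, mul_pow, e1, mul_div_mul_right _ _ (pow_ne_zero 3 hz0)]
    have e2 : algebraMap k (RF w) b = algebraMap k (RF w) (cE r * r) *
        (1 - algebraMap k (RF w) x0 ^ 3 * 0 ^ 3) / (algebraMap k (RF w) x0 - 0) ^ 3 := by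
      rw [hb]
      simp [map_div₀]
    rw [e, e2]
    exact h2

private theorem EVG2_sq {R : k} (hR : R ≠ 0) (hR2 : R ^ 2 ≠ 1) : R⁻¹ ^ 2 ≠ 1 := by
  intro h
  apply hR2
  rw [inv_pow] at h
  exact inv_eq_one.1 h

private theorem EVG2_ns0 [CharZero k] {R : k} (hR : R ≠ 0) (hR2 : R ^ 2 ≠ 1) :
    (Er R⁻¹).Nonsingular 0 (cE R⁻¹) :=
  fe_ns (inv_ne_zero hR) (EVG2_sq hR hR2) (by ring)

theorem mev_one [CharZero k] {N : Type} [Field N] [Algebra k N] {x z : N} {R : k} (hR : R ≠ 0) (hR2 : R ^ 2 ≠ 1)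
    [(Er R⁻¹).IsElliptic] (hP : ((Er R⁻¹)⁄N).toAffine.Nonsingular (mX R⁻¹ x z) (mY R⁻¹ x z)) (p : Geo k N k)
    (hx : Red p.1 x (algebraMap k (RF p.1) (-1))) (hz : Red p.1 z (algebraMap k (RF p.1) 1)) :
    ∃ hA : (Er R⁻¹).Nonsingular (R⁻¹ ^ 2 - 1) (R⁻¹ * (R⁻¹ ^ 2 - 1)),
      LibCV66.ev p (.some _ _ hP : ((Er R⁻¹)⁄N).toAffine.Point) =
        constPt k (.some _ _ hA : (Er R⁻¹).toAffine.Point) := by
  have h0 : R⁻¹ ≠ 0 := inv_ne_zero hR
  have h1 := EVG2_sq hR hR2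
  obtain ⟨hA, -⟩ := fe_2B h0 h1 (fe_B h0 h1)
  refine ⟨hA, ?_⟩
  have h2 : (2 : k) ≠ 0 := two_ne_zero
  obtain ⟨e1, e2⟩ := EVG2_fin (r := R⁻¹) (a := R⁻¹ ^ 2 - 1) (b := R⁻¹ * (R⁻¹ ^ 2 - 1)) hx
    (z0 := 1) hz (by norm_num) (by unfold cE; norm_num; ring)
    (by unfold cE; norm_num; ring)
  exact EVG2_core hP p e1 e2 hA

theorem mev_zero [CharZero k] {N : Type} [Field N] [Algebra k N] {x z : N} {R : k} (hR : R ≠ 0) (hR2 : R ^ 2 ≠ 1)
    [(Er R⁻¹).IsElliptic] (hP : ((Er R⁻¹)⁄N).toAffine.Nonsingular (mX R⁻¹ x z) (mY R⁻¹ x z)) (p : Geo k N k)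
    {x₀ : k} (hx₀ : x₀ ^ 3 = R) (hx : Red p.1 x (algebraMap k (RF p.1) x₀)) (hz : Red p.1 z 0) :
    ∃ hA : (Er R⁻¹).Nonsingular 0 (cE R⁻¹),
      LibCV66.ev p (.some _ _ hP : ((Er R⁻¹)⁄N).toAffine.Point) =
        constPt k (.some _ _ hA : (Er R⁻¹).toAffine.Point) := by
  refine ⟨EVG2_ns0 hR hR2, ?_⟩
  obtain ⟨e1, e2⟩ := EVG2_fin (r := R⁻¹) (a := 0) (b := cE R⁻¹) hx
    (z0 := 0) (by rw [map_zero]; exact hz) (by norm_num) (by simp)
    (by rw [hx₀]; field_simp; ring)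
  exact EVG2_core hP p e1 e2 _

theorem mev_inf [CharZero k] {N : Type} [Field N] [Algebra k N] {x z : N} {R : k} (hR : R ≠ 0) (hR2 : R ^ 2 ≠ 1)
    [(Er R⁻¹).IsElliptic] (hP : ((Er R⁻¹)⁄N).toAffine.Nonsingular (mX R⁻¹ x z) (mY R⁻¹ x z)) (p : Geo k N k)
    {x₀ : k} (hx₀ : x₀ ^ 3 = R⁻¹) (hx : Red p.1 x (algebraMap k (RF p.1) x₀)) (hz : p.1.ord z < 0) :
    ∃ hA : (Er R⁻¹).Nonsingular 0 (cE R⁻¹),
      LibCV66.ev p (.some _ _ hP : ((Er R⁻¹)⁄N).toAffine.Point) =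
        constPt k (.some _ _ hA : (Er R⁻¹).toAffine.Point) := by
  refine ⟨EVG2_ns0 hR hR2, ?_⟩
  have h0 : x₀ ≠ 0 := by
    rintro rfl
    rw [zero_pow three_ne_zero] at hx₀
    exact inv_ne_zero hR hx₀.symm
  obtain ⟨e1, e2⟩ := EVG2_inf (r := R⁻¹) (b := cE R⁻¹) hx hz h0
    (by rw [hx₀, mul_div_cancel_right₀ _ (inv_ne_zero hR)])
  exact EVG2_core hP p e1 e2 _

end Pool.Agent.LibCW77
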