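import Pool.Agent.LibEV91.Defs
import Pool.Agent.LibCW77.NG1
import Pool.Agent.LibCW77.NG2
import Pool.Agent.LibCW77.NG3
import Pool.Agent.LibCW77.NP
import Pool.Agent.LibCW77.NC

/-!
[EV91 N1] STRONG: the 3-adic argument (rational functions only)

Notation: `f = A / B` in `RatFunc k`, `v ^ 3 = j f`, `φ_i = f - C (b_i ^ 3)`; reductions `κ = KK O`, `f'`, `φ_i' = A' / B' - C (A'(t_i) / B'(t_i))`, `t_i = rs O (a i)`;
`φ_i' = (X - t_i) * u_i` with `u_i` regular at `t_i`, `u_i(t_i) ≠ 0` (numerator `C B'(t) * A' - C A'(t) * B'`, its derivative at `t` is `W(t) ≠ 0`). `Regular at t` means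
`denom.eval t ≠ 0` (closed under `+`, `*`: `r` is regular at `t` iff `r = p / q`, `q.eval t ≠ 0`; see the lemmas in CW77 NF.lean, which may be copied; they are private there).
(0) `(v - b) ^ 3 = φ (1 + 3 (φ⁻¹ b ^ 2 v - φ⁻¹ b v ^ 2))` (as `b ^ 3 = f(a)`). `pw` (NP) with `β = 3`, `r1 = φ⁻¹ b ^ 2`, `r2 = - φ⁻¹ b`, exponent `M`:
`(v - b_i) ^ (3 M) = j (φ_i ^ M Z_i) (1 + j (C (3 M)) (j s1 v + j s2 v ^ 2))`, `Z_i` reduces to `1`, `s1`, `s2` to `φ_i'⁻¹ b_i' ^ 2`, `- φ_i'⁻¹ b_i'`.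
(1) Scale: by `rd_scale` for the six... for the family `g0, B g1, B g2` (not all `0`, `hg`) we may divide `g0 g1 g2 g α_l` by a constant and assume that `g0`, `g1`, `g2` have
reductions `g0'`, `g1'`, `g2'` (polynomials: `pol_scale`), not all `0`. (`hα`, degrees and `hgg` are invariant.) Fix `i`. `α = g (v - b_i)⁻¹ ^ (3 M)` and
`(v - b)⁻¹ = (v ^ 2 + b v + b ^ 2) / φ`, so all `α_l` have reductions `α_l'`; in `κ(X)[v]`, `v ^ 3 = f'`, `(v - b') ^ 3 = φ'`, hence (`rd_unique`)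
`α_0' = g0' / φ' ^ M`, `α_l' = B' g_l' / φ' ^ M` (`l = 1, 2`). By `rd_reg` and `hα` they are regular at `t_i`, so `(X - t_i) ^ M` divides `g0'` and (as `B'(t_i) ≠ 0`) `g_l'`.
This for all `i` (different `t_i`: coprime), with the degrees (`natDegree` does not grow under reduction): `g1' = g2' = 0`, `g0' = C e * ∏ (X - t_i) ^ M`, `e ≠ 0`.
In particular `g0 ≠ 0`, `α_0' = g0' / φ_i' ^ M ≠ 0`, regular at `t_i` with value `≠ 0`.
(2) `γ_l = B g_l / g0` has the reduction `0`; `ρ_{i,l} = α_{i,l} / α_{i,0}` has the reduction `0`; `3 M` has the reduction `0`. `rd_scale` for the finite family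
`(γ_l)_l, (ρ_{i,l})_{i,l}, C (3 M)` (not all `0`: `3 M ≠ 0`, `CharZero`): `β ≠ 0` with reductions of all quotients by `β`, not all `0`. `β ∈ O` and `rs O β = 0`
(`rd_mem`, and `C β * (t / β) = t` has the reduction `0`). For every `i`: `hgg` and `hα` give
`j g0 (1 + β ((γ_1/β) v + (γ_2/β) v ^ 2)) = j (α_0 φ ^ M Z) (1 + β (..ρ/β..)) (1 + β ((3M/β) s1 v + (3M/β) s2 v ^ 2))`; `cmp` (NC): with `e' = (3M/β)'`,
`(γ_1/β)' = (ρ_{i,1}/β)' + e' φ_i'⁻¹ b_i' ^ 2`, `(γ_2/β)' = (ρ_{i,2}/β)' - e' φ_i'⁻¹ b_i'`.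
(3) `(ρ_{i,l}/β)'` is regular at `t_i`: `C β⁻¹ * α_{i,l}` has a reduction (it is `(ρ/β) α_0`), regular at `t_i` by `rd_reg`, and `α_0'(t_i) ≠ 0`.
`(γ_l/β)' = B' h_l / (C e * ∏ (X - t_i) ^ M)` with a polynomial `h_l`, `h_l = 0` or `natDegree h_l + card ι + 1 ≤ card ι * M` (reduction of `C β⁻¹ * g_l`; `pol_scale` or
coefficients). So `(X - t_i) * (γ_l/β)'` is regular at `t_i`, hence `(X - t_i) ^ (M - 1) ∣ h_l` for all `i`, of total degree `card ι * (M - 1)`: `h_l = 0`.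
(4) Then `(ρ_{i,1}/β)' = - e' φ_i'⁻¹ b_i' ^ 2` is regular at `t_i`, but `φ_i'⁻¹` has a pole there and `b_i' ≠ 0` (`b ^ 3 B(a) = A(a)`, `hA`), so `e' = 0`, and all
reductions are `0`: contradiction.
-/

open scoped Classical
open Polynomial

namespace Pool.Agent.LibCW77

open Pool.Agent.LibBH2
open Pool.Agent.LibCHd (VR RF Red FunF)

variable {k : Type} [Field k]

/-- the rational function `r` is regular at `y`, with the value `c` -/
private def EVN1_val {κ : Type} [Field κ] (y : κ) (r : RatFunc κ) (c : κ) : Prop :=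
  ∃ p q : κ[X], q.eval y ≠ 0 ∧ r * algebraMap κ[X] (RatFunc κ) q = algebraMap κ[X] (RatFunc κ) p ∧
    p.eval y = c * q.eval y

private theorem EVN1_inj {κ : Type} [Field κ] : Function.Injective (algebraMap κ[X] (RatFunc κ)) :=
  IsFractionRing.injective _ _

private theorem EVN1_ne {κ : Type} [Field κ] {p : κ[X]} (h : p ≠ 0) : algebraMap κ[X] (RatFunc κ) p ≠ 0 := by
  rw [Ne, map_eq_zero_iff _ EVN1_inj]
  exact h

private theorem EVN1_poly {κ : Type} [Field κ] (y : κ) (p : κ[X]) :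
    EVN1_val y (algebraMap κ[X] (RatFunc κ) p) (p.eval y) :=
  ⟨p, 1, by simp, by simp, by simp⟩

private theorem EVN1_add {κ : Type} [Field κ] {y : κ} {r s : RatFunc κ} {c d : κ} (hr : EVN1_val y r c)
    (hs : EVN1_val y s d) : EVN1_val y (r + s) (c + d) := by
  obtain ⟨p, q, hq, h1, h2⟩ := hr
  obtain ⟨p', q', hq', h1', h2'⟩ := hs
  refine ⟨p * q' + p' * q, q * q', ?_, ?_, ?_⟩
  · rw [eval_mul]
    exact mul_ne_zero hq hq'
  · rw [map_mul, map_add, map_mul, map_mul, ← h1, ← h1']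
    ring
  · rw [eval_mul, eval_add, eval_mul, eval_mul, h2, h2']
    ring

private theorem EVN1_mul {κ : Type} [Field κ] {y : κ} {r s : RatFunc κ} {c d : κ} (hr : EVN1_val y r c)
    (hs : EVN1_val y s d) : EVN1_val y (r * s) (c * d) := by
  obtain ⟨p, q, hq, h1, h2⟩ := hr
  obtain ⟨p', q', hq', h1', h2'⟩ := hs
  refine ⟨p * p', q * q', ?_, ?_, ?_⟩
  · rw [eval_mul]
    exact mul_ne_zero hq hq'
  · rw [map_mul, map_mul, ← h1, ← h1']
    ring
  · rw [eval_mul, eval_mul, h2, h2']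
    ring

private theorem EVN1_inv {κ : Type} [Field κ] {y : κ} {r : RatFunc κ} {c : κ} (hr : EVN1_val y r c)
    (hc : c ≠ 0) : EVN1_val y r⁻¹ c⁻¹ := by
  obtain ⟨p, q, hq, h1, h2⟩ := hr
  have hp : p.eval y ≠ 0 := by
    rw [h2]
    exact mul_ne_zero hc hq
  have hr0 : r ≠ 0 := by
    rintro rfl
    rw [zero_mul] at h1
    have h3 : p = 0 := EVN1_inj (by rw [← h1, map_zero])
    rw [h3, eval_zero] at hp
    exact hp rfl
  refine ⟨q, p, hp, ?_, ?_⟩
  · rw [← h1, ← mul_assoc, inv_mul_cancel₀ hr0, one_mul]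
  · rw [h2, ← mul_assoc, inv_mul_cancel₀ hc, one_mul]

private theorem EVN1_uniq {κ : Type} [Field κ] {y : κ} {r : RatFunc κ} {c d : κ} (hr : EVN1_val y r c)
    (hs : EVN1_val y r d) : c = d := by
  obtain ⟨p, q, hq, h1, h2⟩ := hr
  obtain ⟨p', q', hq', h1', h2'⟩ := hs
  have h3 : p * q' = p' * q := by
    apply EVN1_inj
    rw [map_mul, map_mul, ← h1, ← h1']
    ring
  have h4 := congrArg (eval y) h3
  rw [eval_mul, eval_mul, h2, h2'] at h4
  have h5 : (c - d) * (q.eval y * q'.eval y) = 0 := by linear_combination h4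
  rcases mul_eq_zero.1 h5 with h6 | h6
  · exact sub_eq_zero.1 h6
  · exact absurd h6 (mul_ne_zero hq hq')

private theorem EVN1_Cv {κ : Type} [Field κ] (y c : κ) : EVN1_val y (RatFunc.C c) c := by
  have h := EVN1_poly y (C c)
  rwa [eval_C, RatFunc.algebraMap_C] at h

private theorem EVN1_denom {κ : Type} [Field κ] {y : κ} {r : RatFunc κ} (h : r.denom.eval y ≠ 0) :
    ∃ c, EVN1_val y r c := by
  refine ⟨r.num.eval y / r.denom.eval y, r.num, r.denom, h, ?_, ?_⟩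
  · have h1 : algebraMap κ[X] (RatFunc κ) r.denom ≠ 0 := EVN1_ne r.denom_ne_zero
    have h2 := RatFunc.num_div_denom r
    rw [div_eq_iff h1] at h2
    exact h2.symm
  · rw [div_mul_cancel₀ _ h]

private theorem EVN1_f {κ : Type} [Field κ] {A B : κ[X]} {y : κ} (hB : B.eval y ≠ 0) :
    EVN1_val y (algebraMap κ[X] (RatFunc κ) A / algebraMap κ[X] (RatFunc κ) B) (A.eval y / B.eval y) := by
  have hB0 : algebraMap κ[X] (RatFunc κ) B ≠ 0 := by
    apply EVN1_ne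
    rintro rfl
    exact hB eval_zero
  exact ⟨A, B, hB, div_mul_cancel₀ _ hB0, (div_mul_cancel₀ _ hB).symm⟩

private theorem EVN1_delta {κ : Type} [Field κ] {A B : κ[X]} {y : κ} (hB : B.eval y ≠ 0) :
    EVN1_val y (algebraMap κ[X] (RatFunc κ) A / algebraMap κ[X] (RatFunc κ) B -
      RatFunc.C (A.eval y / B.eval y)) 0 := by
  have h := EVN1_add (EVN1_f (A := A) hB) (EVN1_Cv y (-(A.eval y / B.eval y)))
  rwa [map_neg, ← sub_eq_add_neg, ← sub_eq_add_neg, sub_self] at h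

private theorem EVN1_N {κ : Type} [Field κ] {A B : κ[X]} {y : κ} (hB : B.eval y ≠ 0)
    (hW : (derivative A * B - A * derivative B).eval y ≠ 0) :
    ∃ u : κ[X], u.eval y ≠ 0 ∧ (algebraMap κ[X] (RatFunc κ) A / algebraMap κ[X] (RatFunc κ) B -
      RatFunc.C (A.eval y / B.eval y)) * algebraMap κ[X] (RatFunc κ) (C (B.eval y) * B) =
        algebraMap κ[X] (RatFunc κ) ((X - C y) * u) := by
  obtain ⟨N, hN⟩ : ∃ N : κ[X], N = C (B.eval y) * A - C (A.eval y) * B := ⟨_, rfl⟩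
  have h0 : N.IsRoot y := by
    rw [IsRoot, hN, eval_sub, eval_mul, eval_mul, eval_C, eval_C]
    ring
  obtain ⟨u, hu⟩ := dvd_iff_isRoot.2 h0
  have hB0 : algebraMap κ[X] (RatFunc κ) B ≠ 0 := by
    apply EVN1_ne
    rintro rfl
    exact hB eval_zero
  refine ⟨u, ?_, ?_⟩
  · have h1 : (derivative N).eval y = u.eval y := by
      rw [hu, derivative_mul, eval_add, eval_mul, eval_mul, derivative_sub, derivative_X, derivative_C, sub_zero,
        eval_one, eval_sub, eval_X, eval_C, sub_self, zero_mul, add_zero, one_mul]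
    have h2 : (derivative N).eval y = (derivative A * B - A * derivative B).eval y := by
      rw [hN, derivative_sub, derivative_C_mul, derivative_C_mul, eval_sub, eval_sub, eval_mul, eval_mul, eval_mul,
        eval_mul, eval_C, eval_C]
      ring
    rw [← h1, h2]
    exact hW
  · rw [← hu, hN, map_sub, map_mul, map_mul, map_mul, ← RatFunc.algebraMap_C, sub_mul]
    congr 1
    · field_simp
    · rw [← mul_assoc, ← map_mul (algebraMap κ[X] (RatFunc κ)), ← C_mul, div_mul_cancel₀ _ hB]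

private theorem EVN1_cop {κ : Type} [Field κ] {y : κ} {q : κ[X]} (hq : q.eval y ≠ 0) (n : ℕ) :
    IsCoprime ((X - C y) ^ n) q := by
  refine IsCoprime.pow_left ?_
  rw [(irreducible_X_sub_C y).coprime_iff_not_dvd]
  intro h
  exact hq (dvd_iff_isRoot.1 h)

private theorem EVN1_div {κ : Type} [Field κ] {A B P : κ[X]} {t : κ} (hB : B.eval t ≠ 0)
    (hW : (derivative A * B - A * derivative B).eval t ≠ 0) {m : ℕ} {α δ : RatFunc κ} (hα : α.denom.eval t ≠ 0)
    (hδ : δ = algebraMap κ[X] (RatFunc κ) A / algebraMap κ[X] (RatFunc κ) B - RatFunc.C (A.eval t / B.eval t))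
    (h : algebraMap κ[X] (RatFunc κ) P = α * δ ^ m) :
    (X - C t) ^ m ∣ P := by
  obtain ⟨u, hu, hN⟩ := EVN1_N hB hW
  obtain ⟨c, p, q, hq, hpq, -⟩ := EVN1_denom hα
  rw [← hδ] at hN
  have hpoly : P * q * (C (B.eval t) * B) ^ m = p * ((X - C t) * u) ^ m := by
    apply EVN1_inj
    rw [map_mul, map_mul, map_pow, map_mul _ p, map_pow, ← hN, ← hpq, h]
    ring
  have h1 : (X - C t) ^ m ∣ P * (q * (C (B.eval t) * B) ^ m) := by
    rw [← mul_assoc, hpoly, mul_pow]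
    exact (dvd_mul_right _ _).mul_left p
  refine (EVN1_cop ?_ _).dvd_of_dvd_mul_right h1
  rw [eval_mul, eval_pow, eval_mul, eval_C]
  exact mul_ne_zero hq (pow_ne_zero _ (mul_ne_zero hB hB))

/-- `δ ≠ 0` -/
private theorem EVN1_delta_ne {κ : Type} [Field κ] {A B : κ[X]} {t : κ} (hB : B.eval t ≠ 0)
    (hW : (derivative A * B - A * derivative B).eval t ≠ 0) {δ : RatFunc κ}
    (hδ : δ = algebraMap κ[X] (RatFunc κ) A / algebraMap κ[X] (RatFunc κ) B - RatFunc.C (A.eval t / B.eval t)) :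
    δ ≠ 0 := by
  obtain ⟨u, hu, hN⟩ := EVN1_N hB hW
  rw [← hδ] at hN
  intro h0
  rw [h0, zero_mul] at hN
  have h1 : (X - C t) * u = 0 := by
    apply EVN1_inj
    rw [map_zero]
    exact hN.symm
  rcases mul_eq_zero.1 h1 with h2 | h2
  · exact X_sub_C_ne_zero t h2
  · rw [h2, eval_zero] at hu
    exact hu rfl

/-- the value of `α` at `t` if `α δ ^ M = (X - t) ^ M R` -/
private theorem EVN1_alpha {κ : Type} [Field κ] {A B R : κ[X]} {t : κ} (hB : B.eval t ≠ 0)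
    (hW : (derivative A * B - A * derivative B).eval t ≠ 0) {m : ℕ} {α δ : RatFunc κ}
    (hδ : δ = algebraMap κ[X] (RatFunc κ) A / algebraMap κ[X] (RatFunc κ) B - RatFunc.C (A.eval t / B.eval t))
    (hR : R.eval t ≠ 0) (h : algebraMap κ[X] (RatFunc κ) ((X - C t) ^ m * R) = α * δ ^ m) :
    ∃ c, c ≠ 0 ∧ EVN1_val t α c := by
  obtain ⟨u, hu, hN⟩ := EVN1_N hB hW
  rw [← hδ] at hN
  have h1 : α * algebraMap κ[X] (RatFunc κ) (u ^ m) = algebraMap κ[X] (RatFunc κ) (R * (C (B.eval t) * B) ^ m) := by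
    have hX : algebraMap κ[X] (RatFunc κ) ((X - C t) ^ m) ≠ 0 := EVN1_ne (pow_ne_zero _ (X_sub_C_ne_zero t))
    apply mul_left_cancel₀ hX
    have h2 : algebraMap κ[X] (RatFunc κ) ((X - C t) ^ m) * (α * algebraMap κ[X] (RatFunc κ) (u ^ m)) =
        α * (algebraMap κ[X] (RatFunc κ) ((X - C t) * u)) ^ m := by
      rw [map_mul, map_pow, map_pow]
      ring
    have h3 : algebraMap κ[X] (RatFunc κ) ((X - C t) ^ m) *
        algebraMap κ[X] (RatFunc κ) (R * (C (B.eval t) * B) ^ m) =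
        algebraMap κ[X] (RatFunc κ) ((X - C t) ^ m * R) * (algebraMap κ[X] (RatFunc κ) (C (B.eval t) * B)) ^ m := by
      rw [map_mul _ R, map_mul _ _ R, map_pow _ (C (B.eval t) * B)]
      ring
    rw [h2, h3, h, ← hN]
    ring
  refine ⟨(R * (C (B.eval t) * B) ^ m).eval t / (u ^ m).eval t, ?_, R * (C (B.eval t) * B) ^ m, u ^ m, ?_, h1, ?_⟩
  · apply div_ne_zero
    · rw [eval_mul, eval_pow, eval_mul, eval_C]
      exact mul_ne_zero hR (pow_ne_zero _ (mul_ne_zero hB hB))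
    · rw [eval_pow]
      exact pow_ne_zero _ hu
  · rw [eval_pow]
    exact pow_ne_zero _ hu
  · rw [div_mul_cancel₀]
    rw [eval_pow]
    exact pow_ne_zero _ hu

/-- `δ⁻¹` has a pole -/
private theorem EVN1_pole {κ : Type} [Field κ] {t ε c : κ} {δ : RatFunc κ} (hδ0 : δ ≠ 0) (hδ : EVN1_val t δ 0)
    (h : EVN1_val t (RatFunc.C ε * δ⁻¹) c) : ε = 0 := by
  have h1 := EVN1_mul h hδ
  rw [mul_zero, mul_assoc, inv_mul_cancel₀ hδ0, mul_one] at h1
  exact EVN1_uniq (EVN1_Cv t ε) h1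

/-- the pole is simple -/
private theorem EVN1_simple {κ : Type} [Field κ] {A B : κ[X]} {t : κ} (hB : B.eval t ≠ 0)
    (hW : (derivative A * B - A * derivative B).eval t ≠ 0) {δ : RatFunc κ}
    (hδ : δ = algebraMap κ[X] (RatFunc κ) A / algebraMap κ[X] (RatFunc κ) B - RatFunc.C (A.eval t / B.eval t)) :
    ∃ c, EVN1_val t (algebraMap κ[X] (RatFunc κ) (X - C t) * δ⁻¹) c := by
  have h0 := EVN1_delta_ne hB hW hδ
  obtain ⟨u, hu, hN⟩ := EVN1_N hB hW
  rw [← hδ] at hN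
  refine ⟨(C (B.eval t) * B).eval t / u.eval t, C (B.eval t) * B, u, hu, ?_, ?_⟩
  · rw [map_mul _ (X - C t)] at hN
    have h1 : algebraMap κ[X] (RatFunc κ) (X - C t) * δ⁻¹ * algebraMap κ[X] (RatFunc κ) u =
        δ⁻¹ * (algebraMap κ[X] (RatFunc κ) (X - C t) * algebraMap κ[X] (RatFunc κ) u) := by ring
    rw [h1, ← hN, ← mul_assoc, inv_mul_cancel₀ h0, one_mul]
  · rw [div_mul_cancel₀ _ hu]

private theorem EVN1_dvd {κ : Type} [Field κ] {B G h : κ[X]} {t c : κ} (hB : B.eval t ≠ 0) {M : ℕ} (hM : 0 < M)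
    (hG : (X - C t) ^ M ∣ G) {r : RatFunc κ} (hr : EVN1_val t (algebraMap κ[X] (RatFunc κ) (X - C t) * r) c)
    (he : r * algebraMap κ[X] (RatFunc κ) G = algebraMap κ[X] (RatFunc κ) (B * h)) : (X - C t) ^ (M - 1) ∣ h := by
  obtain ⟨p, q, hq, h1, -⟩ := hr
  have h2 : (X - C t) * (h * (B * q)) = p * G := by
    apply EVN1_inj
    rw [map_mul _ p, ← h1]
    have h3 : algebraMap κ[X] (RatFunc κ) (X - C t) * r * algebraMap κ[X] (RatFunc κ) q *
        algebraMap κ[X] (RatFunc κ) G = algebraMap κ[X] (RatFunc κ) (X - C t) *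
        (r * algebraMap κ[X] (RatFunc κ) G) * algebraMap κ[X] (RatFunc κ) q := by ring
    rw [h3, he]
    rw [map_mul, map_mul, map_mul, map_mul]
    ring
  obtain ⟨n, rfl⟩ : ∃ n, M = n + 1 := ⟨M - 1, by omega⟩
  rw [Nat.add_sub_cancel]
  have h4 : (X - C t) ^ (n + 1) ∣ (X - C t) * (h * (B * q)) := by
    rw [h2]
    exact hG.mul_left p
  rw [pow_succ'] at h4
  have h5 := (mul_dvd_mul_iff_left (X_sub_C_ne_zero t)).1 h4
  refine (EVN1_cop ?_ _).dvd_of_dvd_mul_right h5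
  rw [eval_mul]
  exact mul_ne_zero hB hq

private theorem EVN1_prod {κ : Type} [Field κ] {ι : Type} [Fintype ι] {t : ι → κ} (ht : Function.Injective t)
    {h : κ[X]} {n : ℕ} (hd : ∀ i, (X - C (t i)) ^ n ∣ h) : ∏ i, (X - C (t i)) ^ n ∣ h := by
  refine Finset.prod_dvd_of_coprime (fun y _ z _ hyz => ?_) fun i _ => hd i
  exact (isCoprime_X_sub_C_of_isUnit_sub (sub_ne_zero.2 fun h => hyz (ht h)).isUnit).pow

private theorem EVN1_deg {κ : Type} [Field κ] {ι : Type} [Fintype ι] (t : ι → κ) (n : ℕ) :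
    (∏ i, (X - C (t i)) ^ n : κ[X]).natDegree = Fintype.card ι * n := by
  rw [natDegree_prod_of_monic _ _ fun y _ => (monic_X_sub_C _).pow _]
  rw [Finset.sum_congr rfl fun y _ => by rw [natDegree_pow, natDegree_X_sub_C, mul_one]]
  rw [Finset.sum_const, Finset.card_univ, smul_eq_mul]

private theorem EVN1_zero {κ : Type} [Field κ] {ι : Type} [Fintype ι] {t : ι → κ} (ht : Function.Injective t)
    {h : κ[X]} {n : ℕ} (hd : ∀ i, (X - C (t i)) ^ n ∣ h) (hn : h = 0 ∨ h.natDegree < Fintype.card ι * n) : h = 0 := by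
  rcases hn with h0 | hn
  · exact h0
  · by_contra hne
    have h1 := natDegree_le_of_dvd (EVN1_prod ht hd) hne
    rw [EVN1_deg] at h1
    omega

/-- elements with reductions -/
private def EVN1_T (O : ValuationSubring k) {L : Type} [Field L] (j : RatFunc k →+* L) (v x : L) : Prop :=
  ∃ r0 r1 r2 : RatFunc k, x = j r0 + j r1 * v + j r2 * v ^ 2 ∧ (∃ r', Rd O r0 r') ∧ (∃ r', Rd O r1 r') ∧
    ∃ r', Rd O r2 r'

private theorem EVN1_mulT {O : ValuationSubring k} {L : Type} [Field L] (j : RatFunc k →+* L) {v : L}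
    {f : RatFunc k} {f' : RatFunc (KK O)} (hv : v ^ 3 = j f) (hf : Rd O f f') {x y : L}
    (hx : EVN1_T O j v x) (hy : EVN1_T O j v y) : EVN1_T O j v (x * y) := by
  obtain ⟨r0, r1, r2, hx, ⟨r0', h0⟩, ⟨r1', h1⟩, ⟨r2', h2⟩⟩ := hx
  obtain ⟨s0, s1, s2, hy, ⟨s0', k0⟩, ⟨s1', k1⟩, ⟨s2', k2⟩⟩ := hy
  refine ⟨r0 * s0 + f * (r1 * s2 + r2 * s1), r0 * s1 + r1 * s0 + f * (r2 * s2), r0 * s2 + r1 * s1 + r2 * s0, ?_,
    ⟨_, rd_add (rd_mul h0 k0) (rd_mul hf (rd_add (rd_mul h1 k2) (rd_mul h2 k1)))⟩,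
    ⟨_, rd_add (rd_add (rd_mul h0 k1) (rd_mul h1 k0)) (rd_mul hf (rd_mul h2 k2))⟩,
    ⟨_, rd_add (rd_add (rd_mul h0 k2) (rd_mul h1 k1)) (rd_mul h2 k0)⟩⟩
  rw [hx, hy]
  simp only [map_add, map_mul, ← hv]
  ring

private theorem EVN1_powT {O : ValuationSubring k} {L : Type} [Field L] (j : RatFunc k →+* L) {v : L}
    {f : RatFunc k} {f' : RatFunc (KK O)} (hv : v ^ 3 = j f) (hf : Rd O f f') {x : L}
    (hx : EVN1_T O j v x) (n : ℕ) : EVN1_T O j v (x ^ n) := by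
  induction n with
  | zero => exact ⟨1, 0, 0, by simp, ⟨_, rd_one⟩, ⟨_, rd_zero⟩, ⟨_, rd_zero⟩⟩
  | succ n ih =>
    rw [pow_succ]
    exact EVN1_mulT j hv hf ih hx

private theorem EVN1_const {O : ValuationSubring k} {c : k} {s' : RatFunc (KK O)} (h : Rd O (RatFunc.C c) s') :
    ∃ ε : KK O, s' = RatFunc.C ε := by
  have h1 : Rd O (RatFunc.C c * 1) s' := by rwa [mul_one]
  have hc := rd_mem rd_one one_ne_zero h1
  exact ⟨_, rd_unique h (rd_C (⟨c, hc⟩ : O))⟩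

private theorem EVN1_polred {O : ValuationSubring k} {H : k[X]} {s' : RatFunc (KK O)}
    (h : Rd O (algebraMap k[X] (RatFunc k) H) s') : ∃ Q : O[X], Q.map (algebraMap O k) = H := by
  by_cases hH : H = 0
  · exact ⟨0, by rw [hH, Polynomial.map_zero]⟩
  obtain ⟨c, P, hc, hP, u, hu⟩ := pol_scale (O := O) (fun _ : Unit => H) ⟨(), hH⟩
  have hP1 : H = C c * (P u).map (algebraMap O k) := hP u
  have h1 : Rd O (RatFunc.C c * algebraMap k[X] (RatFunc k) ((P u).map (algebraMap O k))) s' := by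
    rw [← RatFunc.algebraMap_C, ← map_mul, ← hP1]
    exact h
  have hcO := rd_mem (rd_pol (P u)) (EVN1_ne hu) h1
  refine ⟨C (⟨c, hcO⟩ : O) * P u, ?_⟩
  rw [Polynomial.map_mul, Polynomial.map_C, hP1]
  rfl

private theorem EVN1_ev {O : ValuationSubring k} (P : O[X]) (a : O) :
    (P.map (rs O)).eval (rs O a) = rs O (P.eval a) := by
  rw [eval_map, eval₂_hom]

private theorem EVN1_loc {O : ValuationSubring k} (h3 : rs O 3 = 0) {A B : O[X]} (a b : O)
    (hB : rs O (B.eval a) ≠ 0)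
    (hW : rs O ((derivative A * B - A * derivative B).eval a) ≠ 0)
    (hb : b ^ 3 * B.eval a = A.eval a)
    {L : Type} [Field L] (j : RatFunc k →+* L) {v : L}
    {f : RatFunc k} {f' φ' : RatFunc (KK O)} (hv : v ^ 3 = j f) (hf : Rd O f f')
    (hf' : f' = algebraMap (KK O)[X] (RatFunc (KK O)) (A.map (rs O)) /
      algebraMap (KK O)[X] (RatFunc (KK O)) (B.map (rs O)))
    (hφ' : φ' = f' - RatFunc.C ((A.map (rs O)).eval (rs O a) / (B.map (rs O)).eval (rs O a)))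
    (hu : ∀ r0 r1 r2 : RatFunc k, j r0 + j r1 * v + j r2 * v ^ 2 = 0 → r0 = 0 ∧ r1 = 0 ∧ r2 = 0)
    {M : ℕ} (hM : 0 < M) {G0 G1 G2 : O[X]} {g : L}
    (hgg : g = j (algebraMap k[X] (RatFunc k) (G0.map (algebraMap O k))) +
      j (algebraMap k[X] (RatFunc k) ((B * G1).map (algebraMap O k))) * v +
      j (algebraMap k[X] (RatFunc k) ((B * G2).map (algebraMap O k))) * v ^ 2)
    {α0 α1 α2 : RatFunc k}
    (hα : g = (j α0 + j α1 * v + j α2 * v ^ 2) * (v - j (RatFunc.C (b : k))) ^ (3 * M)) :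
    φ' ≠ 0 ∧ ∃ (W s1 s2 : RatFunc k) (α0' α1' α2' : RatFunc (KK O)), Rd O α0 α0' ∧ Rd O α1 α1' ∧ Rd O α2 α2' ∧
      Rd O W (φ' ^ M) ∧ Rd O s1 (φ'⁻¹ * RatFunc.C (rs O b ^ 2)) ∧ Rd O s2 (-(φ'⁻¹ * RatFunc.C (rs O b))) ∧
      g = (j α0 + j α1 * v + j α2 * v ^ 2) *
        (j W * (1 + j (RatFunc.C ((M : k) * 3)) * (j s1 * v + j s2 * v ^ 2))) ∧
      algebraMap (KK O)[X] (RatFunc (KK O)) (G0.map (rs O)) = α0' * φ' ^ M ∧
      algebraMap (KK O)[X] (RatFunc (KK O)) ((B * G1).map (rs O)) = α1' * φ' ^ M ∧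
      algebraMap (KK O)[X] (RatFunc (KK O)) ((B * G2).map (rs O)) = α2' * φ' ^ M := by
  have hB' : (B.map (rs O)).eval (rs O a) ≠ 0 := by
    rw [EVN1_ev]
    exact hB
  have hW' : (derivative (A.map (rs O)) * B.map (rs O) - A.map (rs O) * derivative (B.map (rs O))).eval
      (rs O a) ≠ 0 := by
    rw [derivative_map, derivative_map, ← Polynomial.map_mul, ← Polynomial.map_mul, ← Polynomial.map_sub, EVN1_ev]
    exact hW
  have hδ : φ' = algebraMap (KK O)[X] (RatFunc (KK O)) (A.map (rs O)) /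
      algebraMap (KK O)[X] (RatFunc (KK O)) (B.map (rs O)) -
      RatFunc.C ((A.map (rs O)).eval (rs O a) / (B.map (rs O)).eval (rs O a)) := by
    rw [hφ', hf']
  have hφ0 : φ' ≠ 0 := EVN1_delta_ne hB' hW' hδ
  have hbr : rs O (b ^ 3) = (A.map (rs O)).eval (rs O a) / (B.map (rs O)).eval (rs O a) := by
    rw [eq_div_iff hB', EVN1_ev, EVN1_ev, ← map_mul, hb]
  obtain ⟨φ, hφ⟩ : ∃ φ : RatFunc k, φ = f - RatFunc.C ((b ^ 3 : O) : k) := ⟨_, rfl⟩
  have hφr : Rd O φ φ' := by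
    rw [hφ, hφ', ← hbr]
    exact rd_sub hf (rd_C _)
  have hφn : φ ≠ 0 := rd_ne hφr hφ0
  have hinv : Rd O φ⁻¹ φ'⁻¹ := rd_inv hφr hφ0
  obtain ⟨c, hc⟩ : ∃ c : L, c = j (RatFunc.C (b : k)) := ⟨_, rfl⟩
  obtain ⟨p, hp⟩ : ∃ p : L, p = j φ := ⟨_, rfl⟩
  have hp0 : p ≠ 0 := by
    rw [hp]
    exact (map_ne_zero j).2 hφn
  have hpe : p = v ^ 3 - c ^ 3 := by
    rw [hp, hφ, map_sub, ← hv, hc, ← map_pow, ← map_pow]
    rfl
  have hcube : (v - c) ^ 3 = p * (1 + j (RatFunc.C ((3 : O) : k)) *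
      (j (φ⁻¹ * RatFunc.C ((b ^ 2 : O) : k)) * v + j (-(φ⁻¹ * RatFunc.C (b : k))) * v ^ 2)) := by
    have e1 : j (RatFunc.C ((3 : O) : k)) = 3 := by
      have : ((3 : O) : k) = 3 := rfl
      rw [this, map_ofNat, map_ofNat]
    have e2 : j (φ⁻¹ * RatFunc.C ((b ^ 2 : O) : k)) = p⁻¹ * c ^ 2 := by
      rw [map_mul, map_inv₀, ← hp, hc, ← map_pow, ← map_pow]
      rfl
    have e3 : j (-(φ⁻¹ * RatFunc.C (b : k))) = -(p⁻¹ * c) := by
      rw [map_neg, map_mul, map_inv₀, ← hp, hc]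
    rw [e1, e2, e3]
    have e4 : p * (1 + 3 * (p⁻¹ * c ^ 2 * v + -(p⁻¹ * c) * v ^ 2)) = p + 3 * (c ^ 2 * v - c * v ^ 2) := by
      field_simp
      ring
    rw [e4, hpe]
    ring
  have r1r : Rd O (φ⁻¹ * RatFunc.C ((b ^ 2 : O) : k)) (φ'⁻¹ * RatFunc.C (rs O b ^ 2)) := by
    rw [← map_pow (rs O)]
    exact rd_mul hinv (rd_C _)
  have r2r : Rd O (-(φ⁻¹ * RatFunc.C (b : k))) (-(φ'⁻¹ * RatFunc.C (rs O b))) := rd_neg (rd_mul hinv (rd_C _))
  obtain ⟨Z, s1, s2, hZ, hs1, hs2, hpw⟩ := pw j hv hf h3 (β := 3) h3 r1r r2r M hM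
  have e5 : ((3 : O) : k) = 3 := rfl
  have hpow : (v - c) ^ (3 * M) =
      j (φ ^ M * Z) * (1 + j (RatFunc.C ((M : k) * 3)) * (j s1 * v + j s2 * v ^ 2)) := by
    rw [pow_mul, hcube, mul_pow, hpw, e5, map_mul j (φ ^ M) Z, map_pow, ← hp]
    ring
  have hWr : Rd O (φ ^ M * Z) (φ' ^ M) := by
    have h := rd_mul (rd_pow hφr M) hZ
    rwa [mul_one] at h
  -- reductions of the `α`
  have hvc : (v - c) * (j (φ⁻¹ * RatFunc.C ((b ^ 2 : O) : k)) + j (φ⁻¹ * RatFunc.C (b : k)) * v +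
      j φ⁻¹ * v ^ 2) = 1 := by
    have e2 : j (φ⁻¹ * RatFunc.C ((b ^ 2 : O) : k)) = p⁻¹ * c ^ 2 := by
      rw [map_mul, map_inv₀, ← hp, hc, ← map_pow, ← map_pow]
      rfl
    have e3 : j (φ⁻¹ * RatFunc.C (b : k)) = p⁻¹ * c := by
      rw [map_mul, map_inv₀, ← hp, hc]
    rw [e2, e3, map_inv₀, ← hp]
    have e6 : (v - c) * (p⁻¹ * c ^ 2 + p⁻¹ * c * v + p⁻¹ * v ^ 2) = p⁻¹ * (v ^ 3 - c ^ 3) := by ring
    rw [e6, ← hpe, inv_mul_cancel₀ hp0]
  have hvc0 : v - c ≠ 0 := left_ne_zero_of_mul (hvc ▸ one_ne_zero)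
  have hTi : EVN1_T O j v (v - c)⁻¹ := by
    rw [inv_eq_of_mul_eq_one_right hvc]
    exact ⟨_, _, _, rfl, ⟨_, rd_mul hinv (rd_C _)⟩, ⟨_, rd_mul hinv (rd_C _)⟩, ⟨_, hinv⟩⟩
  have hTg : EVN1_T O j v g := ⟨_, _, _, hgg, ⟨_, rd_pol _⟩, ⟨_, rd_pol _⟩, ⟨_, rd_pol _⟩⟩
  obtain ⟨q0, q1, q2, hq, i0, i1, i2⟩ := EVN1_mulT j hv hf hTg (EVN1_powT j hv hf hTi (3 * M))
  rw [hα, ← hc, mul_assoc, ← mul_pow, mul_inv_cancel₀ hvc0, one_pow, mul_one] at hq
  obtain ⟨k0, k1, k2⟩ := hu (α0 - q0) (α1 - q1) (α2 - q2) (by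
    rw [map_sub, map_sub, map_sub]
    linear_combination hq)
  rw [← sub_eq_zero.1 k0] at i0
  rw [← sub_eq_zero.1 k1] at i1
  rw [← sub_eq_zero.1 k2] at i2
  obtain ⟨α0', hα0⟩ := i0
  obtain ⟨α1', hα1⟩ := i1
  obtain ⟨α2', hα2⟩ := i2
  have hgf : g = (j α0 + j α1 * v + j α2 * v ^ 2) *
      (j (φ ^ M * Z) * (1 + j (RatFunc.C ((M : k) * 3)) * (j s1 * v + j s2 * v ^ 2))) := by
    rw [hα, ← hc, hpow]
  -- comparison
  obtain ⟨N, hN⟩ : ∃ N : RatFunc k, N = RatFunc.C ((M : k) * 3) := ⟨_, rfl⟩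
  have hNr : Rd O N 0 := by
    have h := rd_C (O := O) ((M : O) * 3)
    rw [map_mul, h3, mul_zero, map_zero] at h
    have e7 : (((M : O) * 3 : O) : k) = (M : k) * 3 := by
      push_cast
      rfl
    rw [e7, ← hN] at h
    exact h
  obtain ⟨W, hWW⟩ : ∃ W : RatFunc k, W = φ ^ M * Z := ⟨_, rfl⟩
  rw [← hWW] at hWr hgf
  rw [← hN] at hgf
  have hexp := hgg
  rw [hgf] at hexp
  obtain ⟨m0, m1, m2⟩ := hu
    (algebraMap k[X] (RatFunc k) (G0.map (algebraMap O k)) - (α0 + N * (f * (α1 * s2 + α2 * s1))) * W)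
    (algebraMap k[X] (RatFunc k) ((B * G1).map (algebraMap O k)) - (α1 + N * (α0 * s1 + f * (α2 * s2))) * W)
    (algebraMap k[X] (RatFunc k) ((B * G2).map (algebraMap O k)) - (α2 + N * (α0 * s2 + α1 * s1)) * W) (by
      simp only [map_sub, map_mul, map_add, ← hv]
      linear_combination -hexp)
  refine ⟨hφ0, W, s1, s2, α0', α1', α2', hα0, hα1, hα2, hWr, hs1, hs2, ?_, ?_, ?_, ?_⟩
  · rw [← hN]
    exact hgf
  · have h := rd_mul (rd_add hα0 (rd_mul hNr (rd_mul hf (rd_add (rd_mul hα1 hs2) (rd_mul hα2 hs1))))) hWr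
    rw [← sub_eq_zero.1 m0, zero_mul, add_zero] at h
    exact rd_unique (rd_pol G0) h
  · have h := rd_mul (rd_add hα1 (rd_mul hNr (rd_add (rd_mul hα0 hs1) (rd_mul hf (rd_mul hα2 hs2))))) hWr
    rw [← sub_eq_zero.1 m1, zero_mul, add_zero] at h
    exact rd_unique (rd_pol (B * G1)) h
  · have h := rd_mul (rd_add hα2 (rd_mul hNr (rd_add (rd_mul hα0 hs2) (rd_mul hα1 hs1)))) hWr
    rw [← sub_eq_zero.1 m2, zero_mul, add_zero] at h
    exact rd_unique (rd_pol (B * G2)) h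

private theorem EVN1_main [IsAlgClosed k] [CharZero k] {O : ValuationSubring k} (h3 : rs O 3 = 0) {A B : O[X]}
    {ι : Type} [Fintype ι] [Nonempty ι] (a b : ι → O) (ha : ∀ i i', rs O (a i) = rs O (a i') → i = i')
    (hA : ∀ i, rs O (A.eval (a i)) ≠ 0) (hB : ∀ i, rs O (B.eval (a i)) ≠ 0)
    (hW : ∀ i, rs O ((derivative A * B - A * derivative B).eval (a i)) ≠ 0)
    (hb : ∀ i, b i ^ 3 * B.eval (a i) = A.eval (a i))
    {L : Type} [Field L] (j : RatFunc k →+* L) {v : L}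
    (hv : v ^ 3 * j (algebraMap k[X] (RatFunc k) (B.map (algebraMap O k))) =
      j (algebraMap k[X] (RatFunc k) (A.map (algebraMap O k))))
    (hu : ∀ r0 r1 r2 : RatFunc k, j r0 + j r1 * v + j r2 * v ^ 2 = 0 → r0 = 0 ∧ r1 = 0 ∧ r2 = 0)
    {M : ℕ} (hM : 0 < M) {G0 : O[X]} {G : Fin 2 → O[X]} (hg0 : G0.natDegree ≤ Fintype.card ι * M)
    (hg1 : ∀ l, G l = 0 ∨ (G l).natDegree + Fintype.card ι + 1 ≤ Fintype.card ι * M)
    (hne : G0.map (rs O) ≠ 0 ∨ ∃ l, (G l).map (rs O) ≠ 0) {g : L}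
    (hgg : g = j (algebraMap k[X] (RatFunc k) (G0.map (algebraMap O k))) +
      j (algebraMap k[X] (RatFunc k) ((B * G 0).map (algebraMap O k))) * v +
      j (algebraMap k[X] (RatFunc k) ((B * G 1).map (algebraMap O k))) * v ^ 2)
    (hα : ∀ i, ∃ (α0 : RatFunc k) (α : Fin 2 → RatFunc k),
      g = (j α0 + j (α 0) * v + j (α 1) * v ^ 2) * (v - j (RatFunc.C (b i : k))) ^ (3 * M) ∧
      ∀ c : O, rs O c = rs O (a i) → α0.denom.eval (c : k) ≠ 0 ∧ ∀ l, (α l).denom.eval (c : k) ≠ 0) : False := by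
  have hB' : ∀ i, (B.map (rs O)).eval (rs O (a i)) ≠ 0 := by
    intro i
    rw [EVN1_ev]
    exact hB i
  have hA' : ∀ i, (A.map (rs O)).eval (rs O (a i)) ≠ 0 := by
    intro i
    rw [EVN1_ev]
    exact hA i
  have hW' : ∀ i, (derivative (A.map (rs O)) * B.map (rs O) - A.map (rs O) * derivative (B.map (rs O))).eval
      (rs O (a i)) ≠ 0 := by
    intro i
    rw [derivative_map, derivative_map, ← Polynomial.map_mul, ← Polynomial.map_mul, ← Polynomial.map_sub, EVN1_ev]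
    exact hW i
  have hBm : B.map (rs O) ≠ 0 := by
    intro h0
    have h := hB' (Classical.arbitrary ι)
    rw [h0, eval_zero] at h
    exact h rfl
  obtain ⟨f, hf⟩ : ∃ f : RatFunc k, f = algebraMap k[X] (RatFunc k) (A.map (algebraMap O k)) /
      algebraMap k[X] (RatFunc k) (B.map (algebraMap O k)) := ⟨_, rfl⟩
  obtain ⟨f', hf'⟩ : ∃ f' : RatFunc (KK O), f' = algebraMap (KK O)[X] (RatFunc (KK O)) (A.map (rs O)) /
      algebraMap (KK O)[X] (RatFunc (KK O)) (B.map (rs O)) := ⟨_, rfl⟩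
  have hBn : algebraMap k[X] (RatFunc k) (B.map (algebraMap O k)) ≠ 0 := rd_ne (rd_pol B) (EVN1_ne hBm)
  have hfr : Rd O f f' := by
    rw [hf, hf']
    exact rd_div (rd_pol A) (rd_pol B) (EVN1_ne hBm)
  have hv' : v ^ 3 = j f := by
    rw [hf, map_div₀, eq_div_iff ((map_ne_zero j).2 hBn)]
    exact hv
  choose α0 α hαe hαr using hα
  obtain ⟨φ', hφ'⟩ : ∃ φ' : ι → RatFunc (KK O), ∀ i, φ' i =
      f' - RatFunc.C ((A.map (rs O)).eval (rs O (a i)) / (B.map (rs O)).eval (rs O (a i))) := ⟨_, fun _ => rfl⟩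
  have hδ : ∀ i, φ' i = algebraMap (KK O)[X] (RatFunc (KK O)) (A.map (rs O)) /
      algebraMap (KK O)[X] (RatFunc (KK O)) (B.map (rs O)) -
      RatFunc.C ((A.map (rs O)).eval (rs O (a i)) / (B.map (rs O)).eval (rs O (a i))) := by
    intro i
    rw [hφ', hf']
  have hloc := fun i => EVN1_loc h3 (a i) (b i) (hB i) (hW i) (hb i) j hv' hfr hf' (hφ' i) hu hM hgg (hαe i)
  have hφ0 : ∀ i, φ' i ≠ 0 := fun i => (hloc i).1
  have hloc2 : ∀ i, ∃ (W s1 s2 : RatFunc k) (α0' : RatFunc (KK O)) (α' : Fin 2 → RatFunc (KK O)),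
      Rd O (α0 i) α0' ∧ (∀ l, Rd O (α i l) (α' l)) ∧
      Rd O W (φ' i ^ M) ∧ Rd O s1 ((φ' i)⁻¹ * RatFunc.C (rs O (b i) ^ 2)) ∧
      Rd O s2 (-((φ' i)⁻¹ * RatFunc.C (rs O (b i)))) ∧
      g = (j (α0 i) + j (α i 0) * v + j (α i 1) * v ^ 2) *
        (j W * (1 + j (RatFunc.C ((M : k) * 3)) * (j s1 * v + j s2 * v ^ 2))) ∧
      algebraMap (KK O)[X] (RatFunc (KK O)) (G0.map (rs O)) = α0' * φ' i ^ M ∧
      ∀ l, algebraMap (KK O)[X] (RatFunc (KK O)) ((B * G l).map (rs O)) = α' l * φ' i ^ M := by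
    intro i
    obtain ⟨-, W, s1, s2, α0', α1', α2', e1, e2, e3, e4, e5, e6, e7, e8, e9, e10⟩ := hloc i
    refine ⟨W, s1, s2, α0', ![α1', α2'], e1, ?_, e4, e5, e6, e7, e8, ?_⟩
    · intro l
      match l with
      | 0 => exact e2
      | 1 => exact e3
    · intro l
      match l with
      | 0 => exact e9
      | 1 => exact e10
  choose W s1 s2 α0' α' r0 rl rW rs1 rs2 hgW hG0 hGl using hloc2
  have tinj : Function.Injective fun i => rs O (a i) := fun i i' h => ha i i' h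
  have d0 : ∀ i, (X - C (rs O (a i))) ^ M ∣ G0.map (rs O) := by
    intro i
    refine EVN1_div (hB' i) (hW' i) ?_ (hδ i) (hG0 i)
    exact rd_reg (r0 i) _ fun c hc => (hαr i c hc).1
  have d1 : ∀ l i, (X - C (rs O (a i))) ^ M ∣ (G l).map (rs O) := by
    intro l i
    have h : (X - C (rs O (a i))) ^ M ∣ (B * G l).map (rs O) := by
      refine EVN1_div (hB' i) (hW' i) ?_ (hδ i) (hGl i l)
      exact rd_reg (rl i l) _ fun c hc => (hαr i c hc).2 l
    rw [Polynomial.map_mul, mul_comm] at h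
    exact (EVN1_cop (hB' i) _).dvd_of_dvd_mul_right h
  have hGz : ∀ l, (G l).map (rs O) = 0 := by
    intro l
    refine EVN1_zero tinj (d1 l) ?_
    rcases hg1 l with h0 | h1
    · left
      rw [h0, Polynomial.map_zero]
    · right
      have := natDegree_map_le (f := rs O) (p := G l)
      omega
  have hG0n : G0.map (rs O) ≠ 0 := by
    rcases hne with h | ⟨l, h⟩
    · exact h
    · exact absurd (hGz l) h
  have hα0n : ∀ i, α0' i ≠ 0 := by
    intro i h0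
    have h := hG0 i
    rw [h0, zero_mul] at h
    exact EVN1_ne hG0n h
  have hαz : ∀ i l, α' i l = 0 := by
    intro i l
    have h := hGl i l
    rw [Polynomial.map_mul, hGz l, mul_zero, map_zero] at h
    exact (mul_eq_zero.1 h.symm).resolve_right (pow_ne_zero _ (hφ0 i))
  -- the shape of `G0'`
  obtain ⟨R, hR⟩ := EVN1_prod tinj d0
  have hRc : ∃ e : KK O, e ≠ 0 ∧ R = C e := by
    have hR0 : R ≠ 0 := by
      rintro rfl
      rw [mul_zero] at hR
      exact hG0n hR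
    have hP0 : (∏ i, (X - C (rs O (a i))) ^ M : (KK O)[X]) ≠ 0 :=
      Finset.prod_ne_zero_iff.2 fun z _ => pow_ne_zero _ (X_sub_C_ne_zero _)
    have h1 : (G0.map (rs O)).natDegree = Fintype.card ι * M + R.natDegree := by
      rw [hR, natDegree_mul hP0 hR0, EVN1_deg (fun i => rs O (a i)) M]
    have h2 := natDegree_map_le (f := rs O) (p := G0)
    have h3 : R.natDegree = 0 := by omega
    obtain ⟨e, he⟩ := natDegree_eq_zero.1 h3
    refine ⟨e, ?_, he.symm⟩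
    rintro rfl
    rw [C_0] at he
    exact hR0 he.symm
  obtain ⟨e, he0, hRe⟩ := hRc
  have hval : ∀ i, ∃ c, c ≠ 0 ∧ EVN1_val (rs O (a i)) (α0' i) c := by
    intro i
    refine EVN1_alpha (hB' i) (hW' i) (hδ i) (m := M)
      (R := (∏ i' ∈ Finset.univ.erase i, (X - C (rs O (a i'))) ^ M) * R) ?_ ?_
    · rw [eval_mul, eval_prod, hRe, eval_C]
      refine mul_ne_zero (Finset.prod_ne_zero_iff.2 fun i' hi' => ?_) he0
      rw [eval_pow, eval_sub, eval_X, eval_C]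
      refine pow_ne_zero _ (sub_ne_zero.2 fun h => ?_)
      exact (Finset.mem_erase.1 hi').1 (ha i i' h).symm
    · rw [← mul_assoc, Finset.mul_prod_erase Finset.univ (fun i' => (X - C (rs O (a i'))) ^ M) (Finset.mem_univ i),
        ← hR]
      exact hG0 i
  -- the second scaling
  have hα0k : ∀ i, α0 i ≠ 0 := fun i => rd_ne (r0 i) (hα0n i)
  have hG0k : algebraMap k[X] (RatFunc k) (G0.map (algebraMap O k)) ≠ 0 := rd_ne (rd_pol G0) (EVN1_ne hG0n)
  obtain ⟨N, hN⟩ : ∃ N : RatFunc k, N = RatFunc.C ((M : k) * 3) := ⟨_, rfl⟩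
  have hN0 : N ≠ 0 := by
    rw [hN, ne_eq, map_eq_zero]
    exact mul_ne_zero (Nat.cast_ne_zero.2 hM.ne') three_ne_zero
  have hNr : Rd O N 0 := by
    have h := rd_C (O := O) ((M : O) * 3)
    rw [map_mul, h3, mul_zero, map_zero] at h
    have e7 : (((M : O) * 3 : O) : k) = (M : k) * 3 := by
      push_cast
      rfl
    rw [e7, ← hN] at h
    exact h
  obtain ⟨gam, hgam⟩ : ∃ gam : Fin 2 → RatFunc k, ∀ l, gam l =
      algebraMap k[X] (RatFunc k) ((B * G l).map (algebraMap O k)) /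
        algebraMap k[X] (RatFunc k) (G0.map (algebraMap O k)) := ⟨_, fun _ => rfl⟩
  have hgamz : ∀ l, Rd O (gam l) 0 := by
    intro l
    have h := rd_div (rd_pol (B * G l)) (rd_pol G0) (EVN1_ne hG0n)
    rw [← hgam l, Polynomial.map_mul, hGz l, mul_zero, map_zero, zero_div] at h
    exact h
  have hrhoz : ∀ i l, Rd O (α i l / α0 i) 0 := by
    intro i l
    have h := rd_div (rl i l) (r0 i) (hα0n i)
    rw [hαz, zero_div] at h
    exact h
  obtain ⟨fam, hfam⟩ : ∃ fam : Fin 2 ⊕ ((ι × Fin 2) ⊕ Unit) → RatFunc k,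
      fam = Sum.elim gam (Sum.elim (fun p => α p.1 p.2 / α0 p.1) fun _ => N) := ⟨_, rfl⟩
  have hfamz : ∀ x, Rd O (fam x) 0 := by
    intro x
    rw [hfam]
    match x with
    | Sum.inl l => exact hgamz l
    | Sum.inr (Sum.inl p) => exact hrhoz p.1 p.2
    | Sum.inr (Sum.inr _) => exact hNr
  obtain ⟨β, hβ0, t', ht', x0, hx0⟩ := rd_scale (O := O) fam ⟨Sum.inr (Sum.inr ()), by rw [hfam]; exact hN0⟩
  have hcanc : ∀ r : RatFunc k, RatFunc.C β * (RatFunc.C β⁻¹ * r) = r := by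
    intro r
    rw [← mul_assoc, ← map_mul, mul_inv_cancel₀ hβ0, map_one, one_mul]
  have hβO : β ∈ O := by
    refine rd_mem (ht' x0) hx0 (s' := 0) ?_
    rw [hcanc]
    exact hfamz x0
  obtain ⟨bt, hbt⟩ : ∃ bt : O, (bt : k) = β := ⟨⟨β, hβO⟩, rfl⟩
  have hbt0 : rs O bt = 0 := by
    have h := rd_mul (rd_C bt) (ht' x0)
    rw [hbt, hcanc] at h
    have h1 := rd_unique h (hfamz x0)
    rcases mul_eq_zero.1 h1 with h2 | h2
    · rwa [map_eq_zero] at h2
    · exact absurd h2 hx0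
  have hbtn : bt ≠ 0 := by
    rintro rfl
    exact hβ0 (by rw [← hbt]; rfl)
  obtain ⟨γ', hγ'⟩ : ∃ γ' : Fin 2 → RatFunc (KK O), ∀ l, γ' l = t' (Sum.inl l) := ⟨_, fun _ => rfl⟩
  obtain ⟨ρ', hρ'⟩ : ∃ ρ' : ι → Fin 2 → RatFunc (KK O), ∀ i l, ρ' i l = t' (Sum.inr (Sum.inl (i, l))) :=
    ⟨fun i l => t' (Sum.inr (Sum.inl (i, l))), fun _ _ => rfl⟩
  obtain ⟨e', he'⟩ : ∃ e' : RatFunc (KK O), e' = t' (Sum.inr (Sum.inr ())) := ⟨_, rfl⟩
  have hγr : ∀ l, Rd O (RatFunc.C β⁻¹ * gam l) (γ' l) := by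
    intro l
    have h := ht' (Sum.inl l)
    rw [hfam] at h
    rw [hγ' l]
    exact h
  have hρr : ∀ i l, Rd O (RatFunc.C β⁻¹ * (α i l / α0 i)) (ρ' i l) := by
    intro i l
    have h := ht' (Sum.inr (Sum.inl (i, l)))
    rw [hfam] at h
    rw [hρ' i l]
    exact h
  have her : Rd O (RatFunc.C β⁻¹ * N) e' := by
    have h := ht' (Sum.inr (Sum.inr ()))
    rw [hfam] at h
    rw [he']
    exact h
  obtain ⟨ε, hε⟩ : ∃ ε : KK O, e' = RatFunc.C ε := by
    apply EVN1_const (O := O) (c := β⁻¹ * ((M : k) * 3))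
    rw [map_mul, ← hN]
    exact her
  -- comparison
  have hcmp : ∀ i, γ' 0 = ρ' i 0 + e' * ((φ' i)⁻¹ * RatFunc.C (rs O (b i) ^ 2)) ∧
      γ' 1 = ρ' i 1 + e' * (-((φ' i)⁻¹ * RatFunc.C (rs O (b i)))) := by
    intro i
    have hc := cmp j hv' hfr hu hbt0 hbtn (g0 := algebraMap k[X] (RatFunc k) (G0.map (algebraMap O k)))
      (w0 := α0 i * W i) (mul_ne_zero (hα0k i) (rd_ne (rW i) (pow_ne_zero _ (hφ0 i))))
      (γ := fun l => RatFunc.C β⁻¹ * gam l) (a := fun l => RatFunc.C β⁻¹ * (α i l / α0 i))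
      (s := ![RatFunc.C β⁻¹ * N * s1 i, RatFunc.C β⁻¹ * N * s2 i]) (γ' := γ') (a' := ρ' i)
      (s' := ![e' * ((φ' i)⁻¹ * RatFunc.C (rs O (b i) ^ 2)), e' * (-((φ' i)⁻¹ * RatFunc.C (rs O (b i))))])
      hγr (hρr i) (by
        intro l
        match l with
        | 0 => exact rd_mul her (rs1 i)
        | 1 => exact rd_mul her (rs2 i)) (by
        have hj : ∀ r : RatFunc k, j (RatFunc.C β) * j (RatFunc.C β⁻¹ * r) = j r := by
          intro r
          rw [← map_mul, hcanc]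
        have h1 : j (algebraMap k[X] (RatFunc k) (G0.map (algebraMap O k))) *
            (1 + j (RatFunc.C (bt : k)) * (j (RatFunc.C β⁻¹ * gam 0) * v + j (RatFunc.C β⁻¹ * gam 1) * v ^ 2)) =
            g := by
          have h2 : ∀ l, algebraMap k[X] (RatFunc k) ((B * G l).map (algebraMap O k)) =
              algebraMap k[X] (RatFunc k) (G0.map (algebraMap O k)) * gam l := by
            intro l
            rw [hgam l, mul_div_cancel₀ _ hG0k]
          rw [hbt, hgg, h2 0, h2 1, map_mul j (algebraMap k[X] (RatFunc k) (G0.map (algebraMap O k))) (gam 0),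
            map_mul j (algebraMap k[X] (RatFunc k) (G0.map (algebraMap O k))) (gam 1), ← hj (gam 0), ← hj (gam 1)]
          ring
        have h3 : j (α0 i * W i) * ((1 + j (RatFunc.C (bt : k)) *
            (j (RatFunc.C β⁻¹ * (α i 0 / α0 i)) * v + j (RatFunc.C β⁻¹ * (α i 1 / α0 i)) * v ^ 2)) *
            (1 + j (RatFunc.C (bt : k)) * (j (RatFunc.C β⁻¹ * N * s1 i) * v +
              j (RatFunc.C β⁻¹ * N * s2 i) * v ^ 2))) = g := by
          have h4 : ∀ l, j (α i l) = j (α0 i) * (j (RatFunc.C β) * j (RatFunc.C β⁻¹ * (α i l / α0 i))) := by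
            intro l
            rw [hj, ← map_mul, mul_div_cancel₀ _ (hα0k i)]
          have h5 : j N = j (RatFunc.C β) * j (RatFunc.C β⁻¹ * N) := (hj N).symm
          rw [hgW i, ← hN, h4 0, h4 1, hbt, map_mul j (RatFunc.C β⁻¹ * N) (s1 i),
            map_mul j (RatFunc.C β⁻¹ * N) (s2 i), map_mul j (α0 i) (W i)]
          rw [h5]
          ring
        exact h1.trans h3.symm)
    exact ⟨hc 0, hc 1⟩
  have hbn : ∀ i, rs O (b i) ≠ 0 := by
    intro i h0
    have h := congrArg (rs O) (hb i)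
    rw [map_mul, map_pow, h0, zero_pow (by norm_num), zero_mul] at h
    exact hA i h.symm
  have hcmp2 : ∀ i l, ∃ κ : KK O, κ ≠ 0 ∧ γ' l = ρ' i l + RatFunc.C (ε * κ) * (φ' i)⁻¹ := by
    intro i l
    match l with
    | 0 =>
      refine ⟨rs O (b i) ^ 2, pow_ne_zero _ (hbn i), ?_⟩
      rw [(hcmp i).1, hε, map_mul]
      ring
    | 1 =>
      refine ⟨-rs O (b i), neg_ne_zero.2 (hbn i), ?_⟩
      rw [(hcmp i).2, hε, map_mul, map_neg]
      ring
  -- regularity of the `ρ'`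
  have hρv : ∀ i l, ∃ c, EVN1_val (rs O (a i)) (ρ' i l) c := by
    intro i l
    obtain ⟨c, hc, hv0⟩ := hval i
    have h1 : Rd O (RatFunc.C β⁻¹ * α i l) (ρ' i l * α0' i) := by
      have h := rd_mul (hρr i l) (r0 i)
      rw [mul_assoc, div_mul_cancel₀ _ (hα0k i)] at h
      exact h
    have h2 : (ρ' i l * α0' i).denom.eval (rs O (a i)) ≠ 0 := by
      refine rd_reg h1 _ fun x hx => ?_
      intro h0
      have h3 : (RatFunc.C β⁻¹ * α i l).denom ∣ (RatFunc.C β⁻¹ : RatFunc k).denom * (α i l).denom :=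
        RatFunc.denom_mul_dvd _ _
      rw [RatFunc.denom_C, one_mul] at h3
      obtain ⟨q, hq⟩ := h3
      apply (hαr i x hx).2 l
      rw [hq, eval_mul, h0, zero_mul]
    obtain ⟨d, hd⟩ := EVN1_denom h2
    have h4 := EVN1_mul hd (EVN1_inv hv0 hc)
    rw [mul_assoc, mul_inv_cancel₀ (hα0n i), mul_one] at h4
    exact ⟨_, h4⟩
  -- polynomials
  have hpol : ∀ l, ∃ h : (KK O)[X], γ' l * algebraMap (KK O)[X] (RatFunc (KK O)) (G0.map (rs O)) =
      algebraMap (KK O)[X] (RatFunc (KK O)) (B.map (rs O) * h) ∧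
      (h = 0 ∨ h.natDegree + Fintype.card ι + 1 ≤ Fintype.card ι * M) := by
    intro l
    have h1 : Rd O (algebraMap k[X] (RatFunc k) (C β⁻¹ * (G l).map (algebraMap O k)))
        (γ' l * algebraMap (KK O)[X] (RatFunc (KK O)) (G0.map (rs O)) /
          algebraMap (KK O)[X] (RatFunc (KK O)) (B.map (rs O))) := by
      have h := rd_div (rd_mul (hγr l) (rd_pol G0)) (rd_pol B) (EVN1_ne hBm)
      have h2 : RatFunc.C β⁻¹ * gam l * algebraMap k[X] (RatFunc k) (G0.map (algebraMap O k)) /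
          algebraMap k[X] (RatFunc k) (B.map (algebraMap O k)) =
          algebraMap k[X] (RatFunc k) (C β⁻¹ * (G l).map (algebraMap O k)) := by
        rw [hgam l, Polynomial.map_mul, map_mul, map_mul (algebraMap k[X] (RatFunc k)) (C β⁻¹), RatFunc.algebraMap_C,
          mul_assoc, div_mul_cancel₀ _ hG0k, ← mul_assoc, mul_right_comm, mul_div_cancel_right₀ _ hBn]
      rw [h2] at h
      exact h
    obtain ⟨Q, hQ⟩ := EVN1_polred h1
    have h3 := rd_pol Q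
    rw [hQ] at h3
    have h4 := rd_unique h1 h3
    refine ⟨Q.map (rs O), ?_, ?_⟩
    · rw [div_eq_iff (EVN1_ne hBm)] at h4
      rw [h4, map_mul, mul_comm]
    · rcases hg1 l with h0 | h5
      · left
        have h6 : Q = 0 := by
          apply Polynomial.map_injective (algebraMap O k) Subtype.val_injective
          rw [hQ, h0, Polynomial.map_zero, mul_zero]
        rw [h6, Polynomial.map_zero]
      · right
        have h6 : (Q.map (algebraMap O k)).natDegree = Q.natDegree :=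
          natDegree_map_eq_of_injective Subtype.val_injective Q
        have h7 : (Q.map (algebraMap O k)).natDegree ≤ (G l).natDegree := by
          rw [hQ]
          exact (natDegree_C_mul_le _ _).trans natDegree_map_le
        have h8 := natDegree_map_le (f := rs O) (p := Q)
        omega
  have hγz : ∀ l, γ' l = 0 := by
    intro l
    obtain ⟨h, hh, hdeg⟩ := hpol l
    have hd : ∀ i, (X - C (rs O (a i))) ^ (M - 1) ∣ h := by
      intro i
      obtain ⟨c, hc⟩ := hρv i l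
      obtain ⟨d, hd⟩ := EVN1_simple (hB' i) (hW' i) (hδ i)
      obtain ⟨κ, -, hκ⟩ := hcmp2 i l
      have h5 := EVN1_add (EVN1_mul (EVN1_poly (rs O (a i)) (X - C (rs O (a i)))) hc)
        (EVN1_mul (EVN1_Cv _ (ε * κ)) hd)
      have h6 : algebraMap (KK O)[X] (RatFunc (KK O)) (X - C (rs O (a i))) * ρ' i l +
          RatFunc.C (ε * κ) * (algebraMap (KK O)[X] (RatFunc (KK O)) (X - C (rs O (a i))) * (φ' i)⁻¹) =
          algebraMap (KK O)[X] (RatFunc (KK O)) (X - C (rs O (a i))) * γ' l := by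
        rw [hκ]
        ring
      rw [h6] at h5
      exact EVN1_dvd (hB' i) hM (d0 i) h5 hh
    have hz : h = 0 := by
      refine EVN1_zero tinj hd ?_
      rcases hdeg with h0 | h1
      · exact Or.inl h0
      · right
        obtain ⟨n, rfl⟩ : ∃ n, M = n + 1 := ⟨M - 1, by omega⟩
        rw [Nat.add_sub_cancel]
        rw [mul_add, mul_one] at h1
        omega
    rw [hz, mul_zero, map_zero] at hh
    exact (mul_eq_zero.1 hh).resolve_right (EVN1_ne hG0n)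
  have hε0 : ε = 0 := by
    obtain ⟨κ, hκ0, hκ⟩ := hcmp2 (Classical.arbitrary ι) 0
    obtain ⟨c, hc⟩ := hρv (Classical.arbitrary ι) 0
    rw [hγz] at hκ
    have h1 : ρ' (Classical.arbitrary ι) 0 = RatFunc.C (-(ε * κ)) * (φ' (Classical.arbitrary ι))⁻¹ := by
      rw [map_neg]
      linear_combination -hκ
    rw [h1] at hc
    have hd := EVN1_delta (A := A.map (rs O)) (hB' (Classical.arbitrary ι))
    rw [← hδ] at hd
    have h2 := EVN1_pole (hφ0 _) hd hc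
    rw [neg_eq_zero] at h2
    exact (mul_eq_zero.1 h2).resolve_right hκ0
  apply hx0
  match x0 with
  | Sum.inl l => rw [← hγ' l, hγz]
  | Sum.inr (Sum.inl (i, l)) =>
    rw [← hρ' i l]
    obtain ⟨κ, -, hκ⟩ := hcmp2 i l
    rw [hγz, hε0, zero_mul, map_zero, zero_mul, add_zero] at hκ
    exact hκ.symm
  | Sum.inr (Sum.inr _) => rw [← he', hε, hε0, map_zero]

theorem nfi [IsAlgClosed k] [CharZero k] {O : ValuationSubring k} (h3 : rs O 3 = 0) {A B : O[X]} {ι : Type}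
    [Fintype ι] [Nonempty ι] (a b : ι → O) (ha : ∀ i i', rs O (a i) = rs O (a i') → i = i')
    (hA : ∀ i, rs O (A.eval (a i)) ≠ 0) (hB : ∀ i, rs O (B.eval (a i)) ≠ 0)
    (hW : ∀ i, rs O ((derivative A * B - A * derivative B).eval (a i)) ≠ 0)
    (hb : ∀ i, b i ^ 3 * B.eval (a i) = A.eval (a i))
    {L : Type} [Field L] (j : RatFunc k →+* L) {v : L}
    (hv : v ^ 3 * j (algebraMap k[X] (RatFunc k) (B.map (algebraMap O k))) =
      j (algebraMap k[X] (RatFunc k) (A.map (algebraMap O k))))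
    (hu : ∀ r0 r1 r2 : RatFunc k, j r0 + j r1 * v + j r2 * v ^ 2 = 0 → r0 = 0 ∧ r1 = 0 ∧ r2 = 0)
    {M : ℕ} (hM : 0 < M) {g0 g1 g2 : k[X]} (hg0 : g0.natDegree ≤ Fintype.card ι * M)
    (hg1 : g1 = 0 ∨ g1.natDegree + Fintype.card ι + 1 ≤ Fintype.card ι * M)
    (hg2 : g2 = 0 ∨ g2.natDegree + Fintype.card ι + 1 ≤ Fintype.card ι * M) {g : L} (hg : g ≠ 0)
    (hgg : g = j (algebraMap k[X] (RatFunc k) g0) +
      j (algebraMap k[X] (RatFunc k) (B.map (algebraMap O k) * g1)) * v +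
      j (algebraMap k[X] (RatFunc k) (B.map (algebraMap O k) * g2)) * v ^ 2)
    (hα : ∀ i, ∃ α0 α1 α2 : RatFunc k,
      g = (j α0 + j α1 * v + j α2 * v ^ 2) * (v - j (RatFunc.C (b i : k))) ^ (3 * M) ∧
      ∀ c : O, rs O c = rs O (a i) →
        α0.denom.eval (c : k) ≠ 0 ∧ α1.denom.eval (c : k) ≠ 0 ∧ α2.denom.eval (c : k) ≠ 0) : False := by
  obtain ⟨β, P, hβ, hP, u, hPu⟩ := pol_scale (O := O) ![g0, g1, g2] (by
    by_contra hcon
    push Not at hcon
    have h0 : g0 = 0 := hcon 0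
    have h1 : g1 = 0 := hcon 1
    have h2 : g2 = 0 := hcon 2
    apply hg
    rw [hgg, h0, h1, h2]
    simp)
  have e0 : g0 = C β * (P 0).map (algebraMap O k) := hP 0
  have e1 : g1 = C β * (P 1).map (algebraMap O k) := hP 1
  have e2 : g2 = C β * (P 2).map (algebraMap O k) := hP 2
  have hdeg : ∀ (p : k[X]) (q : O[X]), p = C β * q.map (algebraMap O k) → q.natDegree = p.natDegree := by
    intro p q h
    rw [h, natDegree_C_mul hβ, natDegree_map_eq_of_injective Subtype.val_injective q]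
  have hz : ∀ (p : k[X]) (q : O[X]), p = C β * q.map (algebraMap O k) → p = 0 → q = 0 := by
    intro p q h h0
    rw [h0] at h
    have h1 := (mul_eq_zero.1 h.symm).resolve_left (C_ne_zero.2 hβ)
    apply Polynomial.map_injective (algebraMap O k) Subtype.val_injective
    rw [h1, Polynomial.map_zero]
  have hjβ : j (RatFunc.C β) * j (RatFunc.C β⁻¹) = 1 := by
    rw [← map_mul, ← map_mul, mul_inv_cancel₀ hβ, map_one, map_one]
  refine EVN1_main h3 a b ha hA hB hW hb j hv hu hM (G0 := P 0) (G := ![P 1, P 2]) ?_ ?_ ?_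
    (g := j (RatFunc.C β⁻¹) * g) ?_ ?_
  · rw [hdeg _ _ e0]
    exact hg0
  · intro l
    match l with
    | 0 =>
      rcases hg1 with h | h
      · exact Or.inl (hz _ _ e1 h)
      · right
        have h5 := hdeg _ _ e1
        change (P 1).natDegree + _ + 1 ≤ _
        rw [h5]
        exact h
    | 1 =>
      rcases hg2 with h | h
      · exact Or.inl (hz _ _ e2 h)
      · right
        have h5 := hdeg _ _ e2
        change (P 2).natDegree + _ + 1 ≤ _
        rw [h5]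
        exact h
  · match u with
    | 0 => exact Or.inl hPu
    | 1 => exact Or.inr ⟨0, hPu⟩
    | 2 => exact Or.inr ⟨1, hPu⟩
  · change j (RatFunc.C β⁻¹) * g = j (algebraMap k[X] (RatFunc k) ((P 0).map (algebraMap O k))) +
      j (algebraMap k[X] (RatFunc k) ((B * P 1).map (algebraMap O k))) * v +
      j (algebraMap k[X] (RatFunc k) ((B * P 2).map (algebraMap O k))) * v ^ 2
    rw [hgg, e0, e1, e2]
    simp only [Polynomial.map_mul, map_mul, RatFunc.algebraMap_C]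
    linear_combination (j (algebraMap k[X] (RatFunc k) ((P 0).map (algebraMap O k))) +
      j (algebraMap k[X] (RatFunc k) (B.map (algebraMap O k))) *
        j (algebraMap k[X] (RatFunc k) ((P 1).map (algebraMap O k))) * v +
      j (algebraMap k[X] (RatFunc k) (B.map (algebraMap O k))) *
        j (algebraMap k[X] (RatFunc k) ((P 2).map (algebraMap O k))) * v ^ 2) * hjβ
  · intro i
    obtain ⟨α0, α1, α2, h1, h2⟩ := hα i
    have hd : ∀ (r : RatFunc k) (x : k), r.denom.eval x ≠ 0 → (RatFunc.C β⁻¹ * r).denom.eval x ≠ 0 := by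
      intro r x hr h0
      have h3 : (RatFunc.C β⁻¹ * r).denom ∣ (RatFunc.C β⁻¹ : RatFunc k).denom * r.denom :=
        RatFunc.denom_mul_dvd _ _
      rw [RatFunc.denom_C, one_mul] at h3
      obtain ⟨q, hq⟩ := h3
      apply hr
      rw [hq, eval_mul, h0, zero_mul]
    refine ⟨RatFunc.C β⁻¹ * α0, ![RatFunc.C β⁻¹ * α1, RatFunc.C β⁻¹ * α2], ?_, ?_⟩
    · change j (RatFunc.C β⁻¹) * g = (j (RatFunc.C β⁻¹ * α0) + j (RatFunc.C β⁻¹ * α1) * v +
        j (RatFunc.C β⁻¹ * α2) * v ^ 2) * (v - j (RatFunc.C (b i : k))) ^ (3 * M)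
      rw [h1, map_mul, map_mul, map_mul]
      ring
    · intro c hc
      obtain ⟨k0, k1, k2⟩ := h2 c hc
      refine ⟨hd _ _ k0, fun l => ?_⟩
      match l with
      | 0 => exact hd _ _ k1
      | 1 => exact hd _ _ k2
end Pool.Agent.LibCW77
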